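import Pool.Agent.Q278.MC.Q

/-!
# The Gaussian limit (helper278)
-/

set_option autoImplicit false

namespace Pool.Agent.Q278.MC

open Filter Topology MeasureTheory Complex ProbabilityTheory
open scoped FourierTransform ContDiff ComplexConjugate RealInnerProductSpace BoundedContinuousFunction

variable {T L : ℕ → ℝ}

/-- the covariance matrix -/
noncomputable def cm {k : ℕ} (f : Fin k → ℝ → ℝ) : Matrix (Fin k) (Fin k) ℝ :=
  Matrix.of fun i j => cv (f i) (f j)

lemma cm_quad {k : ℕ} {f : Fin k → ℝ → ℝ} (hf : ∀ j, CC (fc (f j))) (c : Fin k → ℝ) :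
    dotProduct c ((cm f).mulVec c) = vr (fc (lc f c)) := by
  rw [vr_lc hf]
  unfold dotProduct Matrix.mulVec dotProduct cm
  refine Finset.sum_congr rfl fun i _ => ?_
  rw [Finset.mul_sum]
  refine Finset.sum_congr rfl fun j _ => ?_
  show c i * (cv (f i) (f j) * c j) = c i * c j * cv (f i) (f j)
  ring

lemma cm_pos {k : ℕ} {f : Fin k → ℝ → ℝ} (hf : ∀ j, CC (fc (f j))) : (cm f).PosSemidef := by
  refine Matrix.PosSemidef.of_dotProduct_mulVec_nonneg ?_ fun c => ?_
  · ext i j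
    simp only [Matrix.conjTranspose_apply, cm, Matrix.of_apply, star_trivial]
    exact cv_symm _ _
  · rw [star_trivial, cm_quad hf]
    exact integral_nonneg fun ξ => by positivity

/-- the random vector -/
noncomputable def vc {k : ℕ} (f : Fin k → ℝ → ℝ) (L T t : ℝ) : EuclideanSpace ℝ (Fin k) :=
  WithLp.toLp 2 fun j => st (f j) L T t

lemma evs (hT : Tendsto T atTop atTop)
    (hL : Tendsto L atTop atTop) (hLT : Tendsto (fun n => L n / Real.log (T n)) atTop (𝓝 0)) (R : ℝ) :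
    ∀ᶠ n in atTop, 0 < T n ∧ R + 3 ≤ T n ∧ 1 ≤ aP (L n) (T n) := by
  filter_upwards [hT.eventually_gt_atTop 0, hT.eventually_ge_atTop (R + 3),
    (a_top hL hLT hT).eventually_ge_atTop 1] with n g1 g2 g3
  exact ⟨g1, g2, g3⟩

lemma meas_ev {k : ℕ} {f : Fin k → ℝ → ℝ} (hf : ∀ j, CC (fc (f j))) (hT : Tendsto T atTop atTop)
    (hL : Tendsto L atTop atTop) (hLT : Tendsto (fun n => L n / Real.log (T n)) atTop (𝓝 0)) :
    ∀ᶠ n in atTop, 0 < T n ∧
      AEMeasurable (vc f (L n) (T n)) (volume.restrict (Set.Icc (T n) (2 * T n))) := by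
  obtain ⟨R, hR0, hR, -⟩ := st_lc hf
  filter_upwards [evs hT hL hLT R] with n hn
  refine ⟨hn.1, ?_⟩
  have h1 : ContinuousOn (vc f (L n) (T n)) (Set.Icc (T n) (2 * T n)) := by
    unfold vc
    refine (PiLp.continuous_toLp 2 _).comp_continuousOn ?_
    exact continuousOn_pi.2 fun j => st_cont (hf j) (hR j) hn.2.2 hn.2.1
  exact h1.aemeasurable measurableSet_Icc

/-- the Gaussian law with covariance matrix `cm f` -/
noncomputable def gP {k : ℕ} (f : Fin k → ℝ → ℝ) : ProbabilityMeasure (EuclideanSpace ℝ (Fin k)) :=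
  ⟨multivariateGaussian 0 (cm f), inferInstance⟩

lemma gP_coe {k : ℕ} (f : Fin k → ℝ → ℝ) : ((gP f : ProbabilityMeasure (EuclideanSpace ℝ (Fin k))) :
    Measure (EuclideanSpace ℝ (Fin k))) = multivariateGaussian 0 (cm f) := rfl

/-- the Gaussian law with variance `cv f f` -/
noncomputable def gR (f : ℝ → ℝ) : ProbabilityMeasure ℝ :=
  ⟨gaussianReal 0 (cv f f).toNNReal, inferInstance⟩

lemma gR_coe (f : ℝ → ℝ) : ((gR f : ProbabilityMeasure ℝ) : Measure ℝ) =
    gaussianReal 0 (cv f f).toNNReal := rfl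

/-- **joint central limit theorem** -/
theorem joint {k : ℕ} {f : Fin k → ℝ → ℝ} (hf : ∀ j, CC (fc (f j))) (hT : Tendsto T atTop atTop)
    (hL : Tendsto L atTop atTop) (hLT : Tendsto (fun n => L n / Real.log (T n)) atTop (𝓝 0)) :
    Tendsto (fun n => pw (vc f (L n) (T n)) (T n)) atTop
      (𝓝 (gP f)) := by
  refine weak_lim _ (meas_ev hf hT hL hLT) fun u => ?_
  have h1 := main_seq (lc_CC hf u.ofLp) hT hL hLT
  have e1 : charFun ((gP f : ProbabilityMeasure (EuclideanSpace ℝ (Fin k))) :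
      Measure (EuclideanSpace ℝ (Fin k))) u = cexp ((-vr (fc (lc f u.ofLp)) / 2 : ℝ) : ℂ) := by
    rw [gP_coe, charFun_multivariateGaussian (cm_pos hf), inner_zero_right, ← cm_quad hf]
    congr 1
    push_cast
    ring
  rw [e1]
  refine h1.congr' ?_
  obtain ⟨R, hR0, hR, hl⟩ := st_lc hf
  filter_upwards [evs hT hL hLT R] with n hn
  congr 1
  refine intervalIntegral.integral_congr fun t ht => ?_
  rw [Set.uIcc_of_le (by linarith)] at ht
  show cexp (I * ((st (lc f u.ofLp) (L n) (T n) t : ℝ) : ℂ)) = cexp (I * ((⟪vc f (L n) (T n) t, u⟫ : ℝ) : ℂ))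
  rw [hl u.ofLp (L n) (T n) t hn.2.2 hn.2.1 ht.1]
  congr 3

/-- **one test function** -/
theorem single {f : ℝ → ℝ} (hf : CC (fc f)) (hT : Tendsto T atTop atTop)
    (hL : Tendsto L atTop atTop) (hLT : Tendsto (fun n => L n / Real.log (T n)) atTop (𝓝 0)) :
    Tendsto (fun n => pw (st f (L n) (T n)) (T n)) atTop
      (𝓝 (gR f)) ∧
    ∀ᶠ n in atTop, 0 < T n ∧
      AEMeasurable (st f (L n) (T n)) (volume.restrict (Set.Icc (T n) (2 * T n))) := by
  have hf' : ∀ j : Fin 1, CC (fc ((fun _ : Fin 1 => f) j)) := fun _ => hf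
  have hm : ∀ᶠ n in atTop, 0 < T n ∧
      AEMeasurable (st f (L n) (T n)) (volume.restrict (Set.Icc (T n) (2 * T n))) := by
    obtain ⟨R, hR0, hR⟩ := exists_R hf
    filter_upwards [evs hT hL hLT R] with n hn
    exact ⟨hn.1, (st_cont hf hR hn.2.2 hn.2.1).aemeasurable measurableSet_Icc⟩
  refine ⟨?_, hm⟩
  refine weak_lim _ hm fun u => ?_
  have hv0 : 0 ≤ cv f f := by
    rw [cv_self]
    exact integral_nonneg fun ξ => by positivity
  have h1 := main_seq (lc_CC hf' (fun _ => u)) hT hL hLT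
  have e1 : charFun ((gR f : ProbabilityMeasure ℝ) : Measure ℝ) u =
      cexp ((-vr (fc (lc (fun _ : Fin 1 => f) (fun _ => u))) / 2 : ℝ) : ℂ) := by
    rw [gR_coe, charFun_gaussianReal, vr_lc hf']
    congr 1
    simp only [Finset.univ_unique, Fin.default_eq_zero, Finset.sum_singleton]
    rw [Real.coe_toNNReal _ hv0]
    push_cast
    ring
  rw [e1]
  refine h1.congr' ?_
  obtain ⟨R, hR0, hR, hl⟩ := st_lc hf'
  filter_upwards [evs hT hL hLT R] with n hn
  congr 1
  refine intervalIntegral.integral_congr fun t ht => ?_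
  rw [Set.uIcc_of_le (by linarith)] at ht
  show cexp (I * ((st (lc (fun _ : Fin 1 => f) (fun _ => u)) (L n) (T n) t : ℝ) : ℂ)) =
    cexp (I * ((⟪st f (L n) (T n) t, u⟫ : ℝ) : ℂ))
  rw [hl (fun _ => u) (L n) (T n) t hn.2.2 hn.2.1 ht.1]
  congr 3
  simp

lemma cv_pos {f : ℝ → ℝ} (hf : CC (fc f)) (h0 : f ≠ 0) : 0 < cv f f := by
  rw [cv_self]
  have hv0 : 0 ≤ vr (fc f) := integral_nonneg fun ξ => by positivity
  refine hv0.lt_of_ne fun h => h0 ?_
  funext x
  exact vr_zero hf h.symm x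

/-- the distribution function -/
theorem single_cdf {f : ℝ → ℝ} (hf : CC (fc f)) (h0 : f ≠ 0) (hT : Tendsto T atTop atTop)
    (hL : Tendsto L atTop atTop) (hLT : Tendsto (fun n => L n / Real.log (T n)) atTop (𝓝 0)) (y : ℝ) :
    Tendsto (fun n => (1 / T n) * volume.real {t : ℝ | T n ≤ t ∧ t ≤ 2 * T n ∧
      st f (L n) (T n) t ≤ y}) atTop
      (𝓝 ((gaussianReal 0 (cv f f).toNNReal).real (Set.Iic y))) := by
  obtain ⟨h1, h2⟩ := single hf hT hL hLT
  have hv := cv_pos hf h0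
  have hfr : (gaussianReal 0 (cv f f).toNNReal) (frontier (Set.Iic y)) = 0 := by
    have hna : NullSingletonClass (gaussianReal 0 (cv f f).toNNReal) :=
      nullSingletonClass_gaussianReal (by
        rw [ne_eq, Real.toNNReal_eq_zero, not_le]
        exact hv)
    rw [frontier_Iic]
    exact Set.Finite.measure_zero (Set.toFinite _) _
  exact weak_lim_set _ h2 h1 measurableSet_Iic hfr

end Pool.Agent.Q278.MC
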