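import Pool.Agent.Helper256.KM.Mertens

/-!
# Smooth sums over primes (helper278)
-/

set_option autoImplicit false

namespace Pool.Agent.Q278.MC

open Filter Topology Finset MeasureTheory

/-- Abel summation with the total variation -/
theorem abel_var {a : ℕ → ℝ} {C : ℝ} (hC : 0 ≤ C)
    (hA : ∀ m : ℕ, 1 ≤ m → |∑ n ∈ Finset.Icc 1 m, a n - Real.log m| ≤ C)
    {H H' : ℝ → ℝ} (hH : ∀ x, HasDerivAt H (H' x) x) (hH' : Continuous H') (N : ℕ) (hN : 1 ≤ N) :
    |∑ n ∈ Finset.Icc 1 N, a n * H (Real.log n) - (∫ y in (0 : ℝ)..(Real.log N), H y) -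
      (∑ n ∈ Finset.Icc 1 N, a n - Real.log N) * H (Real.log N)| ≤
      (1 + C) * ∫ y in (0 : ℝ)..(Real.log N), |H' y| := by
  have hHc : Continuous H := continuous_iff_continuousAt.2 fun x => (hH x).continuousAt
  have hii : ∀ a b : ℝ, IntervalIntegrable H volume a b := fun a b => hHc.intervalIntegrable a b
  have hai : ∀ a b : ℝ, IntervalIntegrable (fun y => |H' y|) volume a b := fun a b =>
    hH'.abs.intervalIntegrable a b
  have hmono : ∀ x y z w : ℝ, x ≤ y → y ≤ z → z ≤ w → |H z - H y| ≤ ∫ v in x..w, |H' v| := by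
    intro x y z w h1 h2 h3
    rw [← intervalIntegral.integral_eq_sub_of_hasDerivAt (fun v _ => hH v)
      (hH'.intervalIntegrable _ _)]
    refine (intervalIntegral.abs_integral_le_integral_abs h2).trans ?_
    exact intervalIntegral.integral_mono_interval h1 h2 h3
      (Eventually.of_forall fun v => abs_nonneg _) (hai _ _)
  induction N, hN using Nat.le_induction with
  | base => simp
  | succ N hN ih =>
    have hN0 : (0 : ℝ) < N := by exact_mod_cast hN
    set l : ℝ := Real.log N with hl
    set l' : ℝ := Real.log ((N + 1 : ℕ) : ℝ) with hl'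
    have hll : l ≤ l' := by
      apply Real.log_le_log hN0
      push_cast; linarith
    have hl0 : 0 ≤ l := Real.log_nonneg (by exact_mod_cast hN)
    have hll1 : l' - l ≤ 1 := by
      rw [hl, hl', ← Real.log_div (by positivity) hN0.ne']
      have h1 := Real.log_le_sub_one_of_pos (x := ((N + 1 : ℕ) : ℝ) / N) (by positivity)
      have h2 : ((N + 1 : ℕ) : ℝ) / N - 1 ≤ 1 := by
        push_cast
        rw [add_div, div_self hN0.ne', add_sub_cancel_left, div_le_one hN0]
        exact_mod_cast hN
      linarith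
    have hE := hA N hN
    rw [Finset.sum_Icc_succ_top (by omega), Finset.sum_Icc_succ_top (by omega)]
    set S := ∑ n ∈ Finset.Icc 1 N, a n * H (Real.log n) with hS
    set B := ∑ n ∈ Finset.Icc 1 N, a n with hB
    set J := ∫ y in l..l', |H' y| with hJ
    have hJ0 : 0 ≤ J := intervalIntegral.integral_nonneg hll fun _ _ => abs_nonneg _
    have e1 : ∫ y in (0 : ℝ)..l', H y = (∫ y in (0 : ℝ)..l, H y) + ∫ y in l..l', H y :=
      (intervalIntegral.integral_add_adjacent_intervals (hii _ _) (hii _ _)).symm
    have e2 : ∫ y in (0 : ℝ)..l', |H' y| = (∫ y in (0 : ℝ)..l, |H' y|) + J :=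
      (intervalIntegral.integral_add_adjacent_intervals (hai _ _) (hai _ _)).symm
    have e3 : (l' - l) * H l' - ∫ y in l..l', H y = ∫ y in l..l', (H l' - H y) := by
      rw [intervalIntegral.integral_sub (by simp) (hii _ _), intervalIntegral.integral_const,
        smul_eq_mul]
    have h3 : |(l' - l) * H l' - ∫ y in l..l', H y| ≤ J := by
      rw [e3]
      have h4 : |∫ y in l..l', (H l' - H y)| ≤ J * |l' - l| := by
        have := intervalIntegral.norm_integral_le_of_norm_le_const (a := l) (b := l')
          (f := fun y => H l' - H y) (C := J) (fun y hy => by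
            rw [Set.uIoc_of_le hll] at hy
            exact hmono l y l' l' hy.1.le hy.2 le_rfl)
        exact this
      rw [abs_of_nonneg (by linarith : 0 ≤ l' - l)] at h4
      exact h4.trans (mul_le_of_le_one_right hJ0 hll1)
    have h5 : |(B - l) * (H l' - H l)| ≤ C * J := by
      rw [abs_mul]
      exact mul_le_mul hE (hmono l l l' l' le_rfl hll le_rfl) (abs_nonneg _) hC
    have e4 : S + a (N + 1) * H l' - (∫ y in (0 : ℝ)..l', H y) - (B + a (N + 1) - l') * H l' =
        (S - (∫ y in (0 : ℝ)..l, H y) - (B - l) * H l) +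
        ((l' - l) * H l' - ∫ y in l..l', H y) - (B - l) * (H l' - H l) := by
      rw [e1]; ring
    have e5 : ((N + 1 : ℕ) : ℝ) = ((N : ℝ) + 1) := by push_cast; rfl
    rw [e4, e2]
    calc |(S - (∫ y in (0 : ℝ)..l, H y) - (B - l) * H l) +
        ((l' - l) * H l' - ∫ y in l..l', H y) - (B - l) * (H l' - H l)| ≤
        |S - (∫ y in (0 : ℝ)..l, H y) - (B - l) * H l| + |(l' - l) * H l' - ∫ y in l..l', H y| +
          |(B - l) * (H l' - H l)| := (abs_sub _ _).trans (add_le_add_left (abs_add_le _ _) _)
      _ ≤ (1 + C) * (∫ y in (0 : ℝ)..l, |H' y|) + J + C * J := by gcongr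
      _ = _ := by ring

/-- smooth sums over primes -/
theorem prime_sum {G G' : ℝ → ℝ} (hG : ∀ x, HasDerivAt G (G' x) x) (hG' : Continuous G')
    (hGi : Integrable G) (hGi' : Integrable G') {K : ℝ} (hK : ∀ x, |G x| ≤ K)
    {A : ℕ → ℝ} (hA : Tendsto A atTop atTop) {N : ℕ → ℕ} (hN1 : ∀ n, 1 ≤ N n)
    (hN : Tendsto (fun n => Real.log (N n) / A n) atTop atTop) :
    Tendsto (fun n => 1 / A n * ∑ p ∈ (Finset.Icc 1 (N n)).filter Nat.Prime,
      Real.log p / p * G (Real.log p / A n)) atTop (𝓝 (∫ x in Set.Ioi (0 : ℝ), G x)) := by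
  obtain ⟨C0, hC0⟩ := Pool.Agent.Helper256.KM.mertens_log
  set C := max C0 0 with hCd
  have hC : 0 ≤ C := le_max_right _ _
  set a : ℕ → ℝ := fun n => if n.Prime then Real.log n / n else 0 with ha
  have hA' : ∀ m : ℕ, 1 ≤ m → |∑ n ∈ Finset.Icc 1 m, a n - Real.log m| ≤ C := by
    intro m hm
    have h1 := hC0 m hm
    rw [Finset.sum_filter] at h1
    exact h1.trans (le_max_left _ _)
  have hlim := intervalIntegral_tendsto_integral_Ioi (μ := volume) (0 : ℝ) hGi.integrableOn hN
  have herr : Tendsto (fun n => 1 / A n * ((1 + C) * (∫ x, |G' x|) + C * K)) atTop (𝓝 0) := by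
    have h1 := (tendsto_inv_atTop_zero.comp hA).mul_const ((1 + C) * (∫ x, |G' x|) + C * K)
    rw [zero_mul] at h1
    refine h1.congr fun n => ?_
    simp only [Function.comp_apply, one_div]
  have hd : Tendsto (fun n => 1 / A n * ∑ p ∈ (Finset.Icc 1 (N n)).filter Nat.Prime,
      Real.log p / p * G (Real.log p / A n) - ∫ x in (0 : ℝ)..(Real.log (N n) / A n), G x) atTop
      (𝓝 0) := by
    refine squeeze_zero_norm' ?_ herr
    filter_upwards [hA.eventually_gt_atTop 0] with n hn
    have hAn : A n ≠ 0 := hn.ne'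
    have hH : ∀ x, HasDerivAt (fun y => 1 / A n * G (y / A n)) (1 / A n * (G' (x / A n) * (1 / A n))) x := by
      intro x
      have h1 : HasDerivAt (fun y : ℝ => y / A n) (1 / A n) x := (hasDerivAt_id x).div_const _
      exact ((hG (x / A n)).comp x h1).const_mul _
    have h1 := abel_var hC hA' hH (by
      refine continuous_const.mul ((hG'.comp (continuous_id.div_const _)).mul continuous_const))
      (N n) (hN1 n)
    have hE := hA' (N n) (hN1 n)
    have hlN : 0 ≤ Real.log (N n) := Real.log_nonneg (by exact_mod_cast hN1 n)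
    have e1 : ∑ j ∈ Finset.Icc 1 (N n), a j * (1 / A n * G (Real.log j / A n)) =
        1 / A n * ∑ p ∈ (Finset.Icc 1 (N n)).filter Nat.Prime,
          Real.log p / p * G (Real.log p / A n) := by
      rw [Finset.mul_sum, Finset.sum_filter]
      refine Finset.sum_congr rfl fun j _ => ?_
      simp only [ha]
      split_ifs
      · ring
      · ring
    have e2 : ∫ y in (0 : ℝ)..(Real.log (N n)), 1 / A n * G (y / A n) =
        ∫ x in (0 : ℝ)..(Real.log (N n) / A n), G x := by
      rw [intervalIntegral.integral_const_mul, intervalIntegral.integral_comp_div G hAn, zero_div,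
        smul_eq_mul]
      field_simp
    have e3 : ∫ y in (0 : ℝ)..(Real.log (N n)), |1 / A n * (G' (y / A n) * (1 / A n))| ≤
        1 / A n * ∫ x, |G' x| := by
      have e4 : ∀ y, |1 / A n * (G' (y / A n) * (1 / A n))| = 1 / A n * (1 / A n * |G' (y / A n)|) := by
        intro y
        rw [abs_mul, abs_mul, abs_of_pos (by positivity : 0 < 1 / A n)]
        ring
      simp_rw [e4]
      rw [intervalIntegral.integral_const_mul, intervalIntegral.integral_const_mul,
        intervalIntegral.integral_comp_div (fun x => |G' x|) hAn, zero_div, smul_eq_mul]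
      refine mul_le_mul_of_nonneg_left ?_ (by positivity)
      have e5 : 1 / A n * (A n * ∫ x in (0 : ℝ)..(Real.log (N n) / A n), |G' x|) =
          ∫ x in (0 : ℝ)..(Real.log (N n) / A n), |G' x| := by
        field_simp
      rw [e5, intervalIntegral.integral_of_le (by positivity)]
      exact setIntegral_le_integral hGi'.abs (Eventually.of_forall fun _ => abs_nonneg _)
    rw [e1, e2] at h1
    set Q := 1 / A n * ∑ p ∈ (Finset.Icc 1 (N n)).filter Nat.Prime,
          Real.log p / p * G (Real.log p / A n) with hQ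
    set R := ∫ x in (0 : ℝ)..(Real.log (N n) / A n), G x with hR
    set E := ∑ j ∈ Finset.Icc 1 (N n), a j - Real.log (N n) with hEd
    have h2 : |E * (1 / A n * G (Real.log (N n) / A n))| ≤ 1 / A n * (C * K) := by
      rw [abs_mul, abs_mul, abs_of_pos (by positivity : 0 < 1 / A n)]
      calc |E| * (1 / A n * |G (Real.log (N n) / A n)|) = 1 / A n * (|E| * |G (Real.log (N n) / A n)|) := by
            ring
        _ ≤ _ := by
            refine mul_le_mul_of_nonneg_left ?_ (by positivity)
            exact mul_le_mul hE (hK _) (abs_nonneg _) hC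
    rw [Real.norm_eq_abs]
    calc |Q - R| = |(Q - R - E * (1 / A n * G (Real.log (N n) / A n))) +
          E * (1 / A n * G (Real.log (N n) / A n))| := by congr 1; ring
      _ ≤ (1 + C) * (1 / A n * ∫ x, |G' x|) + 1 / A n * (C * K) := by
          refine (abs_add_le _ _).trans (add_le_add (h1.trans ?_) h2)
          exact mul_le_mul_of_nonneg_left e3 (by positivity)
      _ = _ := by ring
  have := hd.add hlim
  rw [zero_add] at this
  refine this.congr fun n => ?_
  ring

end Pool.Agent.Q278.MC
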