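import Pool.Agent.Q278.MC.I
import Pool.Agent.Q278.MC.C
import Pool.Agent.H345R2.A2.VVl
import Pool.Agent.H370R2.NT

/-!
# The coefficients and the variance (helper278)
-/

set_option autoImplicit false

namespace Pool.Agent.Q278.MC

open Filter Topology MeasureTheory Complex
open scoped FourierTransform ContDiff ComplexConjugate

variable {f : ℝ → ℂ}

/-- the coefficients on the primes -/
noncomputable def cn (f : ℝ → ℂ) (a : ℝ) (X : ℕ) : ArithmeticFunction ℂ :=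
  ⟨fun n => if n.Prime ∧ n ≤ X then ((1 / (Real.pi * a) * (Real.log n * (Real.sqrt n)⁻¹) : ℝ) : ℂ) *
    𝓕 f (Real.log n / (2 * Real.pi * a)) else 0, by simp [Nat.not_prime_zero]⟩

lemma cn_apply (f : ℝ → ℂ) (a : ℝ) (X n : ℕ) : cn f a X n = if n.Prime ∧ n ≤ X then
    ((1 / (Real.pi * a) * (Real.log n * (Real.sqrt n)⁻¹) : ℝ) : ℂ) *
    𝓕 f (Real.log n / (2 * Real.pi * a)) else 0 := rfl

/-- the primes up to `X` -/
def PX (X : ℕ) : Finset ℕ := (Finset.Icc 1 X).filter Nat.Prime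

lemma mem_PX {X p : ℕ} : p ∈ PX X ↔ p.Prime ∧ p ≤ X := by
  unfold PX
  rw [Finset.mem_filter, Finset.mem_Icc]
  constructor
  · rintro ⟨⟨_, h2⟩, h3⟩; exact ⟨h3, h2⟩
  · rintro ⟨h1, h2⟩; exact ⟨⟨h1.one_le, h2⟩, h1⟩

lemma cn_Pc (f : ℝ → ℂ) (a : ℝ) (X : ℕ) : Pc (cn f a X) (PX X) X := by
  refine ⟨fun p hp => (mem_PX.1 hp).1, fun p hp => (mem_PX.1 hp).2, fun n hn => ?_⟩
  rw [cn_apply, if_neg (fun h => hn (mem_PX.2 h))]

lemma four_bound (hf : CC f) : ∃ K : ℝ, 0 < K ∧ ∀ ξ : ℝ, ‖𝓕 f ξ‖ ≤ K * (1 + ξ ^ 2)⁻¹ ^ 3 := by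
  obtain ⟨K, hK, h⟩ := gs_decay hf
  refine ⟨K, hK, fun ξ => ?_⟩
  have h1 := h 0 ⟨le_rfl, zero_le_one⟩ ξ
  have e : gs f 0 = f := by
    funext x
    unfold gs
    simp
  rwa [e] at h1

lemma inv_pow_le (ξ : ℝ) : (1 + ξ ^ 2)⁻¹ ^ 3 ≤ 1 := by
  apply pow_le_one₀ (by positivity)
  exact inv_le_one_of_one_le₀ (by nlinarith [sq_nonneg ξ])

/-- the coefficients are small -/
theorem cn_small (hf : CC f) : ∃ K : ℝ, 0 < K ∧ ∀ (a : ℝ) (X : ℕ), 0 < a → ∀ p ∈ PX X,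
    ‖cn f a X p‖ ^ 2 ≤ K / a ^ 2 := by
  obtain ⟨K, hK, h⟩ := four_bound hf
  refine ⟨4 * K ^ 2, by positivity, fun a X ha p hp => ?_⟩
  have hpi := Real.pi_gt_three
  rw [cn_apply, if_pos (mem_PX.1 hp)]
  have hp' := (mem_PX.1 hp).1
  have hp1 : (1 : ℝ) ≤ p := by exact_mod_cast hp'.one_le
  have hs : 0 < Real.sqrt p := Real.sqrt_pos.2 (by linarith)
  have h1 : Real.log p * (Real.sqrt p)⁻¹ ≤ 2 := by
    rw [← div_eq_mul_inv, div_le_iff₀ hs]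
    have h2 := Real.log_le_sub_one_of_pos hs
    rw [Real.log_sqrt (by linarith)] at h2
    linarith
  have h0 : 0 ≤ Real.log p * (Real.sqrt p)⁻¹ := by
    have := Real.log_nonneg hp1
    positivity
  have h3 : ‖𝓕 f (Real.log p / (2 * Real.pi * a))‖ ≤ K :=
    (h _).trans (mul_le_of_le_one_right hK.le (inv_pow_le _))
  have h4 : ‖((1 / (Real.pi * a) * (Real.log p * (Real.sqrt p)⁻¹) : ℝ) : ℂ) *
    𝓕 f (Real.log p / (2 * Real.pi * a))‖ ≤ 2 * K / a := by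
    rw [norm_mul, Complex.norm_real, Real.norm_of_nonneg (by positivity)]
    calc 1 / (Real.pi * a) * (Real.log p * (Real.sqrt p)⁻¹) *
          ‖𝓕 f (Real.log p / (2 * Real.pi * a))‖ ≤ 1 / (1 * a) * 2 * K := by
          gcongr
          linarith
      _ = _ := by ring
  calc _ ≤ (2 * K / a) ^ 2 := pow_le_pow_left₀ (norm_nonneg _) h4 2
    _ = _ := by ring

lemma sq_add_le (x y : ℝ) : (x + y) ^ 2 ≤ 2 * x ^ 2 + 2 * y ^ 2 := by nlinarith [sq_nonneg (x - y)]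

/-- the two families of coefficients are close -/
theorem dn_close (hf : CC f) : ∃ K : ℝ, 0 < K ∧ ∀ (a W : ℝ) (X : ℕ), 1 ≤ a → 1 ≤ W → 1 ≤ X →
    ∑ n ∈ Finset.Icc 1 X, ‖dn f W a n - cn f a X n‖ ^ 2 ≤
      K / a ^ 2 * (1 + W⁻¹ ^ 8 * (1 + Real.log X) ^ 2) := by
  obtain ⟨K1, hK1, h1⟩ := q0_bound hf
  obtain ⟨K2, hK2, h2⟩ := four_bound hf
  obtain ⟨C3, hC3, h3⟩ := H370.A2.Dn_sum
  set S0 : ℝ := ∑' n : ℕ, (ArithmeticFunction.vonMangoldt n) ^ 2 / n *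
    Real.exp (-(Real.log n) ^ 2 / 8) with hS0
  have hS00 : 0 ≤ S0 := tsum_nonneg fun n => by positivity
  refine ⟨4 * K1 ^ 2 * (S0 + 16) + 2 * K2 ^ 2 * C3, by positivity, fun a W X ha hW hX => ?_⟩
  have ha0 : 0 < a := by linarith
  have hW0 : 0 < W := by linarith
  have hpi := Real.pi_gt_three
  have hlX : 0 ≤ Real.log X := Real.log_nonneg (by exact_mod_cast hX)
  -- termwise
  have hterm : ∀ n ∈ Finset.Icc 1 X, ‖dn f W a n - cn f a X n‖ ^ 2 ≤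
      4 * K1 ^ 2 / a ^ 2 * ((ArithmeticFunction.vonMangoldt n) ^ 2 / n *
        Real.exp (-(Real.log n) ^ 2 / 8)) +
      4 * K1 ^ 2 / a ^ 2 * W⁻¹ ^ 8 * ((ArithmeticFunction.vonMangoldt n) ^ 2 / n) +
      2 * K2 ^ 2 / a ^ 2 * (H370.A2.Dn n / n * Real.log n) := by
    intro n hn
    rw [Finset.mem_Icc] at hn
    have hn0 : (0 : ℝ) < n := by exact_mod_cast hn.1
    have hn1 : (1 : ℝ) ≤ n := by exact_mod_cast hn.1
    have hln : 0 ≤ Real.log n := Real.log_nonneg hn1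
    have hL0 : 0 ≤ ArithmeticFunction.vonMangoldt n := ArithmeticFunction.vonMangoldt_nonneg
    have hL1 : ArithmeticFunction.vonMangoldt n ≤ Real.log n := ArithmeticFunction.vonMangoldt_le_log
    set m : ℝ := ArithmeticFunction.vonMangoldt n * (Real.sqrt n)⁻¹ with hm
    have hm0 : 0 ≤ m := by positivity
    have hm2 : m ^ 2 = (ArithmeticFunction.vonMangoldt n) ^ 2 / n := by
      rw [hm, mul_pow, inv_pow, Real.sq_sqrt hn0.le]; rfl
    set b : ℂ := (m : ℂ) * (((1 / (Real.pi * a) : ℝ) : ℂ) * 𝓕 f (Real.log n / (2 * Real.pi * a)))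
      with hb
    have g1 : ‖dn f W a n - b‖ ≤ m * (K1 / a * (Real.exp (-(Real.log n) ^ 2 / 2) + W⁻¹ ^ 4)) := by
      have e1 : dn f W a n - b = (m : ℂ) * (((2 * c0 : ℝ) : ℂ) * q0 f W a (Real.log n) -
          ((1 / (Real.pi * a) : ℝ) : ℂ) * 𝓕 f (Real.log n / (2 * Real.pi * a))) := by
        unfold dn
        rw [← hm, hb]
        push_cast
        ring
      rw [e1, norm_mul, Complex.norm_real, Real.norm_of_nonneg hm0]
      exact mul_le_mul_of_nonneg_left (h1 a W (Real.log n) ha hW hln) hm0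
    have g2 : ‖b - cn f a X n‖ ^ 2 ≤ K2 ^ 2 / a ^ 2 * (H370.A2.Dn n / n * Real.log n) := by
      by_cases hp : n.Prime
      · have e2 : b - cn f a X n = 0 := by
          rw [cn_apply, if_pos ⟨hp, hn.2⟩, hb, hm, ArithmeticFunction.vonMangoldt_apply_prime hp]
          push_cast
          ring
        rw [e2, norm_zero]
        unfold H370.A2.Dn
        rw [if_pos hp]
        simp
      · rw [cn_apply, if_neg (fun h => hp h.1), sub_zero]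
        unfold H370.A2.Dn
        rw [if_neg hp]
        have g3 : ‖b‖ ≤ m * (1 / a * K2) := by
          rw [hb, norm_mul, norm_mul, Complex.norm_real, Complex.norm_real,
            Real.norm_of_nonneg hm0, Real.norm_of_nonneg (by positivity)]
          refine mul_le_mul_of_nonneg_left ?_ hm0
          refine mul_le_mul ?_ ((h2 _).trans (mul_le_of_le_one_right hK2.le (inv_pow_le _)))
            (norm_nonneg _) (by positivity)
          apply one_div_le_one_div_of_le ha0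
          nlinarith
        calc ‖b‖ ^ 2 ≤ (m * (1 / a * K2)) ^ 2 := pow_le_pow_left₀ (norm_nonneg _) g3 2
          _ = K2 ^ 2 / a ^ 2 * ((ArithmeticFunction.vonMangoldt n) ^ 2 / n) := by
              rw [mul_pow, hm2]; ring
          _ ≤ K2 ^ 2 / a ^ 2 * (ArithmeticFunction.vonMangoldt n / n * Real.log n) := by
              refine mul_le_mul_of_nonneg_left ?_ (by positivity)
              rw [sq, mul_div_assoc, mul_comm (ArithmeticFunction.vonMangoldt n / n)]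
              rw [div_eq_mul_inv]
              have h9 : 0 ≤ ArithmeticFunction.vonMangoldt n * (n : ℝ)⁻¹ := by positivity
              exact mul_le_mul_of_nonneg_right hL1 h9
    have g4 : ‖dn f W a n - cn f a X n‖ ≤ ‖dn f W a n - b‖ + ‖b - cn f a X n‖ := by
      have := norm_add_le (dn f W a n - b) (b - cn f a X n)
      rwa [sub_add_sub_cancel] at this
    have g5 : ‖dn f W a n - b‖ ^ 2 ≤ (2 * K1 ^ 2 / a ^ 2) * ((ArithmeticFunction.vonMangoldt n) ^ 2 / n *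
        Real.exp (-(Real.log n) ^ 2 / 8)) + (2 * K1 ^ 2 / a ^ 2) * W⁻¹ ^ 8 *
          ((ArithmeticFunction.vonMangoldt n) ^ 2 / n) := by
      have g6 : (Real.exp (-(Real.log n) ^ 2 / 2) + W⁻¹ ^ 4) ^ 2 ≤
          2 * Real.exp (-(Real.log n) ^ 2 / 8) + 2 * W⁻¹ ^ 8 := by
        refine (sq_add_le _ _).trans (add_le_add (mul_le_mul_of_nonneg_left ?_ (by norm_num)) ?_)
        · rw [← Real.exp_nat_mul]
          apply Real.exp_le_exp.2
          push_cast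
          nlinarith [sq_nonneg (Real.log n)]
        · rw [← pow_mul]
      calc ‖dn f W a n - b‖ ^ 2 ≤
            (m * (K1 / a * (Real.exp (-(Real.log n) ^ 2 / 2) + W⁻¹ ^ 4))) ^ 2 :=
            pow_le_pow_left₀ (norm_nonneg _) g1 2
        _ = m ^ 2 * (K1 ^ 2 / a ^ 2) * (Real.exp (-(Real.log n) ^ 2 / 2) + W⁻¹ ^ 4) ^ 2 := by ring
        _ ≤ m ^ 2 * (K1 ^ 2 / a ^ 2) * (2 * Real.exp (-(Real.log n) ^ 2 / 8) + 2 * W⁻¹ ^ 8) :=
            mul_le_mul_of_nonneg_left g6 (by positivity)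
        _ = _ := by rw [hm2]; ring
    calc ‖dn f W a n - cn f a X n‖ ^ 2 ≤ (‖dn f W a n - b‖ + ‖b - cn f a X n‖) ^ 2 :=
          pow_le_pow_left₀ (norm_nonneg _) g4 2
      _ ≤ 2 * ‖dn f W a n - b‖ ^ 2 + 2 * ‖b - cn f a X n‖ ^ 2 := sq_add_le _ _
      _ ≤ 2 * ((2 * K1 ^ 2 / a ^ 2) * ((ArithmeticFunction.vonMangoldt n) ^ 2 / n *
        Real.exp (-(Real.log n) ^ 2 / 8)) + (2 * K1 ^ 2 / a ^ 2) * W⁻¹ ^ 8 *
          ((ArithmeticFunction.vonMangoldt n) ^ 2 / n)) +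
          2 * (K2 ^ 2 / a ^ 2 * (H370.A2.Dn n / n * Real.log n)) :=
          add_le_add (mul_le_mul_of_nonneg_left g5 (by norm_num))
            (mul_le_mul_of_nonneg_left g2 (by norm_num))
      _ = _ := by ring
  refine (Finset.sum_le_sum hterm).trans ?_
  rw [Finset.sum_add_distrib, Finset.sum_add_distrib, ← Finset.mul_sum, ← Finset.mul_sum,
    ← Finset.mul_sum]
  have s1 : ∑ n ∈ Finset.Icc 1 X, ((ArithmeticFunction.vonMangoldt n) ^ 2 / n *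
        Real.exp (-(Real.log n) ^ 2 / 8)) ≤ S0 :=
    H370.nt_summable.sum_le_tsum _ fun n _ => by positivity
  have s2 : ∑ n ∈ Finset.Icc 1 X, ((ArithmeticFunction.vonMangoldt n) ^ 2 / n) ≤
      16 * (1 + Real.log X) ^ 2 := by
    refine (H370.lam_sq_sum_nat X hX).trans ?_
    nlinarith
  have s3 := h3 X hX
  have hw : 0 ≤ W⁻¹ ^ 8 := by positivity
  calc _ ≤ 4 * K1 ^ 2 / a ^ 2 * S0 + 4 * K1 ^ 2 / a ^ 2 * W⁻¹ ^ 8 * (16 * (1 + Real.log X) ^ 2) +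
        2 * K2 ^ 2 / a ^ 2 * C3 :=
        add_le_add (add_le_add (mul_le_mul_of_nonneg_left s1 (by positivity))
          (mul_le_mul_of_nonneg_left s2 (by positivity))) (mul_le_mul_of_nonneg_left s3 (by positivity))
    _ = (4 * K1 ^ 2 * S0 + 2 * K2 ^ 2 * C3) / a ^ 2 +
        (4 * K1 ^ 2 * 16) / a ^ 2 * (W⁻¹ ^ 8 * (1 + Real.log X) ^ 2) := by ring
    _ ≤ (4 * K1 ^ 2 * (S0 + 16) + 2 * K2 ^ 2 * C3) / a ^ 2 +
        (4 * K1 ^ 2 * (S0 + 16) + 2 * K2 ^ 2 * C3) / a ^ 2 * (W⁻¹ ^ 8 * (1 + Real.log X) ^ 2) := by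
        have g7 : 0 ≤ K1 ^ 2 := by positivity
        have g8 : 0 ≤ K2 ^ 2 * C3 := by positivity
        have g9 : 0 ≤ K1 ^ 2 * S0 := by positivity
        refine add_le_add (div_le_div_of_nonneg_right (by nlinarith) (by positivity))
          (mul_le_mul_of_nonneg_right (div_le_div_of_nonneg_right (by nlinarith) (by positivity))
            (by positivity))
    _ = _ := by ring

/-- the limiting variance -/
noncomputable def vr (f : ℝ → ℂ) : ℝ := ∫ ξ : ℝ, |ξ| * ‖𝓕 f ξ‖ ^ 2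

lemma vr_eq (hr : ∀ x, conj (f x) = f x) : vr f = 2 * ∫ ξ in Set.Ioi (0 : ℝ), ξ * ‖𝓕 f ξ‖ ^ 2 := by
  have h := integral_comp_abs (f := fun ξ : ℝ => ξ * ‖𝓕 f ξ‖ ^ 2)
  rw [← h]
  unfold vr
  congr 1
  funext ξ
  rcases abs_choice ξ with h1 | h1
  · rw [h1]
  · rw [h1, four_neg hr, RCLike.norm_conj]

/-- convergence of the variances -/
theorem VV_lim (hf : CC f) (hr : ∀ x, conj (f x) = f x) {a : ℕ → ℝ} (ha : Tendsto a atTop atTop)
    {X : ℕ → ℕ} (hX1 : ∀ n, 1 ≤ X n)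
    (hX : Tendsto (fun n => Real.log (X n) / (2 * Real.pi * a n)) atTop atTop) :
    Tendsto (fun n => VV (cn f (a n) (X n)) (PX (X n))) atTop (𝓝 (2 * vr f)) := by
  have hpi := Real.pi_pos
  obtain ⟨K0, hK0, h0⟩ := four_bound hf
  obtain ⟨K1, hK1, h1⟩ := four_bound hf.mx
  have e0 : gs f 0 = f := by funext x; unfold gs; simp
  have e1 : gs (mx f) 0 = mx f := by funext x; unfold gs; simp
  have hd : ∀ ξ, HasDerivAt (𝓕 f) (𝓕 (mx f) ξ) ξ := by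
    intro ξ
    have := four_gs hf 0 ξ
    rwa [e0, e1] at this
  have hc0 : Continuous (𝓕 f) := continuous_iff_continuousAt.2 fun ξ => (hd ξ).continuousAt
  have hc1 : Continuous (𝓕 (mx f)) := by
    have := four_cont hf.mx 0
    rwa [e1] at this
  set G : ℝ → ℝ := fun ξ => ξ * ‖𝓕 f ξ‖ ^ 2 with hG
  set G' : ℝ → ℝ := fun ξ => 1 * ‖𝓕 f ξ‖ ^ 2 + ξ * (2 * inner ℝ (𝓕 f ξ) (𝓕 (mx f) ξ)) with hG'
  have hGd : ∀ ξ, HasDerivAt G (G' ξ) ξ := fun ξ => (hasDerivAt_id ξ).mul (hd ξ).norm_sq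
  have hG'c : Continuous G' := by
    simp only [hG']
    exact (continuous_const.mul (hc0.norm.pow 2)).add
      (continuous_id.mul (continuous_const.mul (hc0.inner hc1)))
  have hxi : ∀ ξ : ℝ, |ξ| * (1 + ξ ^ 2)⁻¹ ≤ 1 := by
    intro ξ
    rw [← div_eq_mul_inv, div_le_one (by positivity)]
    have := sq_abs ξ
    nlinarith [sq_nonneg (|ξ| - 1), abs_nonneg ξ]
  have hone : ∀ ξ : ℝ, (1 + ξ ^ 2)⁻¹ ≤ 1 := fun ξ => inv_le_one_of_one_le₀ (by nlinarith [sq_nonneg ξ])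
  have hpos : ∀ ξ : ℝ, 0 ≤ (1 + ξ ^ 2)⁻¹ := fun ξ => by positivity
  have hGb : ∀ ξ, |G ξ| ≤ K0 ^ 2 * (1 + ξ ^ 2)⁻¹ := by
    intro ξ
    simp only [hG]
    rw [abs_mul, abs_of_nonneg (sq_nonneg ‖𝓕 f ξ‖)]
    have g1 : ‖𝓕 f ξ‖ ^ 2 ≤ (K0 * (1 + ξ ^ 2)⁻¹ ^ 3) ^ 2 := pow_le_pow_left₀ (norm_nonneg _) (h0 ξ) 2
    calc |ξ| * ‖𝓕 f ξ‖ ^ 2 ≤ |ξ| * (K0 * (1 + ξ ^ 2)⁻¹ ^ 3) ^ 2 :=
          mul_le_mul_of_nonneg_left g1 (abs_nonneg _)
      _ = K0 ^ 2 * (|ξ| * (1 + ξ ^ 2)⁻¹) * (1 + ξ ^ 2)⁻¹ * (1 + ξ ^ 2)⁻¹ ^ 4 := by ring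
      _ ≤ K0 ^ 2 * 1 * (1 + ξ ^ 2)⁻¹ * 1 := by
          have := hpos ξ
          gcongr
          · exact hxi ξ
          · exact pow_le_one₀ (hpos ξ) (hone ξ)
      _ = _ := by ring
  have hGb' : ∀ ξ, |G' ξ| ≤ (K0 ^ 2 + 2 * (K0 * K1)) * (1 + ξ ^ 2)⁻¹ := by
    intro ξ
    simp only [hG']
    have g0 : ‖𝓕 f ξ‖ ^ 2 ≤ (K0 * (1 + ξ ^ 2)⁻¹ ^ 3) ^ 2 := pow_le_pow_left₀ (norm_nonneg _) (h0 ξ) 2
    have g1 : |inner ℝ (𝓕 f ξ) (𝓕 (mx f) ξ)| ≤ (K0 * (1 + ξ ^ 2)⁻¹ ^ 3) * (K1 * (1 + ξ ^ 2)⁻¹ ^ 3) :=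
      (abs_real_inner_le_norm _ _).trans (mul_le_mul (h0 ξ) (h1 ξ) (norm_nonneg _)
        (by have := hpos ξ; positivity))
    have g2 := hpos ξ
    calc |1 * ‖𝓕 f ξ‖ ^ 2 + ξ * (2 * inner ℝ (𝓕 f ξ) (𝓕 (mx f) ξ))| ≤
          ‖𝓕 f ξ‖ ^ 2 + |ξ| * (2 * |inner ℝ (𝓕 f ξ) (𝓕 (mx f) ξ)|) := by
          refine (abs_add_le _ _).trans (le_of_eq ?_)
          rw [one_mul, abs_of_nonneg (sq_nonneg ‖𝓕 f ξ‖), abs_mul, abs_mul,
            abs_of_pos (by norm_num : (0 : ℝ) < 2)]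
      _ ≤ (K0 * (1 + ξ ^ 2)⁻¹ ^ 3) ^ 2 +
          |ξ| * (2 * ((K0 * (1 + ξ ^ 2)⁻¹ ^ 3) * (K1 * (1 + ξ ^ 2)⁻¹ ^ 3))) := by gcongr
      _ = K0 ^ 2 * (1 + ξ ^ 2)⁻¹ * (1 + ξ ^ 2)⁻¹ ^ 5 +
          2 * (K0 * K1) * (|ξ| * (1 + ξ ^ 2)⁻¹) * (1 + ξ ^ 2)⁻¹ * (1 + ξ ^ 2)⁻¹ ^ 4 := by ring
      _ ≤ K0 ^ 2 * (1 + ξ ^ 2)⁻¹ * 1 + 2 * (K0 * K1) * 1 * (1 + ξ ^ 2)⁻¹ * 1 := by
          gcongr
          · exact pow_le_one₀ g2 (hone ξ)
          · exact hxi ξ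
          · exact pow_le_one₀ g2 (hone ξ)
      _ = _ := by ring
  have hGc : Continuous G := continuous_iff_continuousAt.2 fun ξ => (hGd ξ).continuousAt
  have hGi : Integrable G := (integrable_inv_one_add_sq.const_mul (K0 ^ 2)).mono'
    hGc.aestronglyMeasurable (Eventually.of_forall hGb)
  have hGi' : Integrable G' := (integrable_inv_one_add_sq.const_mul (K0 ^ 2 + 2 * (K0 * K1))).mono'
    hG'c.aestronglyMeasurable (Eventually.of_forall hGb')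
  have hA : Tendsto (fun n => 2 * Real.pi * a n) atTop atTop := ha.const_mul_atTop (by positivity)
  have h := prime_sum hGd hG'c hGi hGi' (K := K0 ^ 2) (fun ξ => (hGb ξ).trans
    (mul_le_of_le_one_right (by positivity) (hone ξ))) hA hX1 hX
  have h2 := h.const_mul 4
  have e2 : 4 * ∫ ξ in Set.Ioi (0 : ℝ), G ξ = 2 * vr f := by
    rw [vr_eq hr]
    simp only [hG]
    ring
  rw [e2] at h2
  refine h2.congr' ?_
  filter_upwards [ha.eventually_gt_atTop 0] with n hn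
  unfold VV
  rw [Finset.mul_sum, Finset.mul_sum]
  refine Finset.sum_congr rfl fun p hp => ?_
  have hp' := mem_PX.1 hp
  have hp0 : (0 : ℝ) < p := by exact_mod_cast hp'.1.pos
  rw [cn_apply, if_pos hp', norm_mul, Complex.norm_real, mul_pow, Real.norm_eq_abs, sq_abs]
  simp only [hG]
  rw [mul_pow, mul_pow, inv_pow, Real.sq_sqrt hp0.le]
  field_simp
  ring

end Pool.Agent.Q278.MC
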