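import Pool.Agent.Q278.MC.J
import Pool.Agent.Q278.MC.K

/-!
# Approximation of the linear statistic by a Dirichlet polynomial over primes (helper278)
-/

set_option autoImplicit false

namespace Pool.Agent.Q278.MC

open Filter Topology MeasureTheory Complex
open scoped FourierTransform ContDiff ComplexConjugate
open H370 (Zf mult mem_Zf good_zeta zset finsum_Zf)

/-- the sum over all zeros -/
noncomputable def SZ (f : ℝ → ℝ) (a t : ℝ) : ℝ :=
  ∑ᶠ s ∈ {s : ℂ | riemannZeta s = 0 ∧ 0 < s.re ∧ s.re < 1},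
    (analyticOrderNatAt riemannZeta s : ℝ) * f (a * (s.im - t))

/-- the complex version of a real function -/
noncomputable def fc (f : ℝ → ℝ) (x : ℝ) : ℂ := (f x : ℂ)

lemma fc_real (f : ℝ → ℝ) (x : ℝ) : conj (fc f x) = fc f x := Complex.conj_ofReal _

lemma SZ_eq {f : ℝ → ℝ} {R : ℝ} (hR : ∀ x, R < |x| → f x = 0) {a A B t : ℝ}
    (ha : 1 ≤ a) (hA : 1 ≤ A) (h1 : A < t - R) (h2 : t + R ≤ B) :
    SZ f a t = ∑ s ∈ Zf riemannZeta A B, mz s * f (a * (s.im - t)) := by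
  have e1 : ∑ s ∈ Zf riemannZeta A B, mz s * f (a * (s.im - t)) =
      ∑ᶠ s ∈ zset riemannZeta A B, mz s * f (a * (s.im - t)) := (finsum_Zf good_zeta hA _).symm
  rw [e1]
  unfold SZ
  apply finsum_mem_inter_support_eq
  ext s
  simp only [Set.mem_inter_iff, Set.mem_ofPred_eq, Function.mem_support]
  constructor
  · rintro ⟨⟨k1, k2, k3⟩, k4⟩
    refine ⟨?_, k4⟩
    have k5 : f (a * (s.im - t)) ≠ 0 := right_ne_zero_of_mul k4
    have k6 : |a * (s.im - t)| ≤ R := by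
      by_contra h
      push Not at h
      exact k5 (hR _ h)
    rw [abs_mul, abs_of_pos (by linarith : (0 : ℝ) < a)] at k6
    have k7 : |s.im - t| ≤ R := by
      refine le_trans ?_ k6
      exact le_mul_of_one_le_left (abs_nonneg _) ha
    have k8 := abs_le.1 k7
    exact ⟨k2, k3, by linarith [k8.1], by linarith [k8.2], k1⟩
  · rintro ⟨⟨k1, k2, -, -, k3⟩, k4⟩
    exact ⟨⟨k3, k1, k2⟩, k4⟩

lemma Sz_re (f : ℝ → ℝ) (S : Finset ℂ) (a t : ℝ) :
    (Sz (fc f) S a t).re = ∑ s ∈ S, mz s * f (a * (s.im - t)) := by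
  unfold Sz fc
  rw [Complex.re_sum]
  refine Finset.sum_congr rfl fun s _ => ?_
  rw [Complex.re_ofReal_mul, Complex.ofReal_re]

lemma DP_sub (g h : ℕ → ℂ) (X : ℕ) (t : ℝ) : DP (fun n => g n - h n) X t = DP g X t - DP h X t := by
  unfold DP
  rw [← Finset.sum_sub_distrib]
  exact Finset.sum_congr rfl fun n _ => by ring

/-- the difference polynomial -/
noncomputable def Er (f : ℝ → ℂ) (W a : ℝ) (X : ℕ) (t : ℝ) : ℂ :=
  DP (fun n => dn f W a n - cn f a X n) X t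

/-- the pointwise approximation -/
theorem approx {f : ℝ → ℝ} (hf : CC (fc f)) : ∃ K T0 : ℝ, 0 < K ∧ 10 ≤ T0 ∧
    ∀ T : ℝ, T0 ≤ T → ∃ U1 U2 : ℝ, T ≤ U1 ∧ U1 ≤ T + 1 ∧ 2 * T - 1 ≤ U2 ∧ U2 ≤ 2 * T ∧
      ∀ L W a : ℝ, 1 ≤ a → 1 ≤ W → 0 < L → 2 * Real.pi * a = Real.log T / L → 2 * W ≤ L →
        16 ≤ 2 * W * (2 * Real.pi * a) → ∀ X : ℕ, 2 * (2 * W * (2 * Real.pi * a)) ≤ Real.log (X + 1) →
        ∀ t : ℝ, T + Real.log T ≤ t → t ≤ 2 * T - Real.log T →
        |SZ f a t - L * (∫ x, f x) + (DP (cn (fc f) a X) X t).re| ≤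
          Bz K W a U1 U2 t + K * (1 / a + Real.exp (-(2 * W * (2 * Real.pi * a))) + L * W⁻¹ ^ 4) +
            ‖Er (fc f) W a X t‖ := by
  obtain ⟨K1, hK1, h1⟩ := zero_pt hf
  obtain ⟨K2, T2, hK2, hT2, h2⟩ := prime_pt hf (fc_real f)
  obtain ⟨R, hR0, hR⟩ : ∃ R : ℝ, 0 ≤ R ∧ ∀ x, R < |x| → f x = 0 := by
    obtain ⟨R, hR⟩ := hf.cs.isCompact.isBounded.subset_closedBall (0 : ℝ)
    refine ⟨max R 0, le_max_right _ _, fun x hx => ?_⟩
    by_contra h
    have h3 : x ∈ tsupport (fc f) := by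
      apply subset_tsupport
      rw [Function.mem_support]
      unfold fc
      exact_mod_cast h
    have h4 := hR h3
    rw [Metric.mem_closedBall, dist_zero_right, Real.norm_eq_abs] at h4
    exact absurd (h4.trans (le_max_left _ _)) (not_le.2 hx)
  refine ⟨K1 + K2, max T2 (Real.exp (R + 2)), by positivity, hT2.trans (le_max_left _ _),
    fun T hT => ?_⟩
  have hTT2 : T2 ≤ T := (le_max_left _ _).trans hT
  have hTR : R + 2 ≤ Real.log T := by
    rw [Real.le_log_iff_exp_le (by linarith)]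
    exact (le_max_right _ _).trans hT
  obtain ⟨U1, U2, g1, g2, g3, g4, g5⟩ := h2 T hTT2
  refine ⟨U1, U2, g1, g2, g3, g4, fun L W a ha hW hL haL hWL hU X hX t ht1 ht2 => ?_⟩
  have hA : 1 ≤ U1 := by linarith
  have b1 := h1 a W U1 U2 t ha hW hA
  have b2 := g5 L W a ha hW hL haL hWL hU X hX t ht1 ht2
  have e1 : SZ f a t = (Sz (fc f) (Zf riemannZeta U1 U2) a t).re := by
    rw [Sz_re]
    exact SZ_eq hR ha hA (by linarith) (by linarith)
  have e2 : (∫ x, fc f x).re = ∫ x, f x := by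
    have : ∫ x, fc f x = ((∫ x, f x : ℝ) : ℂ) := integral_ofReal
    rw [this, Complex.ofReal_re]
  rw [e2] at b2
  have e3 : (Er (fc f) W a X t).re = (DP (dn (fc f) W a) X t).re - (DP (cn (fc f) a X) X t).re := by
    unfold Er
    rw [DP_sub, Complex.sub_re]
  have b3 := Complex.abs_re_le_norm (Er (fc f) W a X t)
  have b4 := (Complex.abs_re_le_norm _).trans b1
  rw [Complex.sub_re] at b4
  have hBz : Bz (K1 + K2) W a U1 U2 t = ∑ s ∈ Zf riemannZeta U1 U2, mz s *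
      (K1 * (W⁻¹ ^ 4 + W * (((s.re - 1 / 2) * (2 * Real.pi * a)) ^ 2 *
        Real.exp (2 * W * |(s.re - 1 / 2) * (2 * Real.pi * a)|)))) * (1 + (a * (s.im - t)) ^ 2)⁻¹ +
      ∑ s ∈ Zf riemannZeta U1 U2, mz s *
      (K2 * (W⁻¹ ^ 4 + W * (((s.re - 1 / 2) * (2 * Real.pi * a)) ^ 2 *
        Real.exp (2 * W * |(s.re - 1 / 2) * (2 * Real.pi * a)|)))) * (1 + (a * (s.im - t)) ^ 2)⁻¹ := by
    unfold Bz
    rw [← Finset.sum_add_distrib]
    exact Finset.sum_congr rfl fun s _ => by ring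
  have hB0 : 0 ≤ ∑ s ∈ Zf riemannZeta U1 U2, mz s *
      (K2 * (W⁻¹ ^ 4 + W * (((s.re - 1 / 2) * (2 * Real.pi * a)) ^ 2 *
        Real.exp (2 * W * |(s.re - 1 / 2) * (2 * Real.pi * a)|)))) * (1 + (a * (s.im - t)) ^ 2)⁻¹ := by
    refine Finset.sum_nonneg fun s _ => ?_
    have := mz_nonneg s
    positivity
  rw [hBz, e1]
  set z := (Sz (fc f) (Zf riemannZeta U1 U2) a t).re with hz
  set p := (Ps (fc f) W a U1 U2 t).re with hp
  set d := (DP (dn (fc f) W a) X t).re with hd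
  set c := (DP (cn (fc f) a X) X t).re with hc
  set Q := 1 / a + Real.exp (-(2 * W * (2 * Real.pi * a))) + L * W⁻¹ ^ 4 with hQ
  have hQ0 : 0 ≤ Q := by positivity
  have e4 : z - L * (∫ x, f x) + c = (z - p) + (p - (L * (∫ x, f x) - d)) -
      (Er (fc f) W a X t).re := by
    rw [e3]; ring
  rw [e4]
  refine (abs_sub _ _).trans ?_
  refine (add_le_add ((abs_add_le _ _).trans (add_le_add b4 b2)) b3).trans ?_
  nlinarith [mul_nonneg hK1.le hQ0]

/-- the mean of the error -/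
theorem Er_int {f : ℝ → ℂ} (hf : CC f) : ∃ K : ℝ, 0 < K ∧ ∀ (T W a : ℝ) (X : ℕ), 10 ≤ T → 1 ≤ a →
    1 ≤ W → 1 ≤ X → 8 * X * (1 + Real.log X) ≤ T →
    ∫ t in (T + Real.log T)..(2 * T - Real.log T), ‖Er f W a X t‖ ≤
      K * T * (1 / a * (1 + W⁻¹ ^ 4 * (1 + Real.log X))) := by
  obtain ⟨K, hK, h⟩ := dn_close hf
  refine ⟨1 + 2 * K, by positivity, fun T W a X hT ha hW hX hXT => ?_⟩
  have ha0 : 0 < a := by linarith
  have hW0 : 0 < W := by linarith
  have hT0 : 0 < T := by linarith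
  have hlX : 0 ≤ Real.log X := Real.log_nonneg (by exact_mod_cast hX)
  have hl : 0 ≤ Real.log T := Real.log_nonneg (by linarith)
  have h2l := two_log_le (x := T) (by linarith)
  set y : ℝ := W⁻¹ ^ 4 * (1 + Real.log X) with hy
  have hy0 : 0 ≤ y := by positivity
  set η : ℝ := 1 / a * (1 + y) with hη
  have hη0 : 0 < η := by positivity
  have hc : Continuous (Er f W a X) := DP_cont _ _
  have h1 := h a W X ha hW hX
  have h2 := mean_sq X (T + Real.log T) (2 * T - Real.log T) (by linarith)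
    (fun n => dn f W a n - cn f a X n)
  have hsum0 : 0 ≤ ∑ n ∈ Finset.Icc 1 X, ‖dn f W a n - cn f a X n‖ ^ 2 :=
    Finset.sum_nonneg fun _ _ => sq_nonneg _
  have h3 : ∑ n ∈ Finset.Icc 1 X, ‖dn f W a n - cn f a X n‖ ^ 2 ≤ K * η ^ 2 := by
    refine h1.trans ?_
    have e1 : W⁻¹ ^ 8 * (1 + Real.log X) ^ 2 = y ^ 2 := by rw [hy]; ring
    rw [e1]
    calc K / a ^ 2 * (1 + y ^ 2) ≤ K / a ^ 2 * (1 + y) ^ 2 := by
          refine mul_le_mul_of_nonneg_left ?_ (by positivity)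
          nlinarith
      _ = _ := by rw [hη]; field_simp
  have h4 : ∫ t in (T + Real.log T)..(2 * T - Real.log T), ‖Er f W a X t‖ ^ 2 ≤ 2 * T * (K * η ^ 2) := by
    refine h2.trans ?_
    refine mul_le_mul ?_ h3 hsum0 (by positivity)
    linarith
  have hpt : ∀ t ∈ Set.Icc (T + Real.log T) (2 * T - Real.log T),
      ‖Er f W a X t‖ ≤ η + 1 / η * ‖Er f W a X t‖ ^ 2 := by
    intro t _
    have h5 : 0 ≤ (‖Er f W a X t‖ - η) ^ 2 := sq_nonneg _
    have h6 : ‖Er f W a X t‖ * η ≤ η * η + ‖Er f W a X t‖ ^ 2 := by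
      nlinarith [norm_nonneg (Er f W a X t)]
    have h7 : η + 1 / η * ‖Er f W a X t‖ ^ 2 = (η * η + ‖Er f W a X t‖ ^ 2) / η := by
      field_simp
    rw [h7, le_div_iff₀ hη0]
    exact h6
  calc ∫ t in (T + Real.log T)..(2 * T - Real.log T), ‖Er f W a X t‖ ≤
      ∫ t in (T + Real.log T)..(2 * T - Real.log T), (η + 1 / η * ‖Er f W a X t‖ ^ 2) := by
        refine intervalIntegral.integral_mono_on (by linarith) (hc.norm.intervalIntegrable _ _) ?_ hpt
        exact (Continuous.intervalIntegrable (by fun_prop) _ _)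
    _ = (2 * T - Real.log T - (T + Real.log T)) * η + 1 / η *
        ∫ t in (T + Real.log T)..(2 * T - Real.log T), ‖Er f W a X t‖ ^ 2 := by
        rw [intervalIntegral.integral_add (by simp) ((Continuous.intervalIntegrable (by fun_prop) _ _)),
          intervalIntegral.integral_const, intervalIntegral.integral_const_mul, smul_eq_mul]
    _ ≤ T * η + 1 / η * (2 * T * (K * η ^ 2)) := by
        refine add_le_add (mul_le_mul_of_nonneg_right (by linarith) hη0.le)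
          (mul_le_mul_of_nonneg_left h4 (by positivity))
    _ = _ := by field_simp

end Pool.Agent.Q278.MC
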