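import Mathlib

/-!
# Powers of an arithmetic function supported on primes, complex values (helper278)

Adapted from `Pool.Agent.Y655.SW.MC`, where the function is `p ↦ p^{-1/2}`.
-/

set_option autoImplicit false

namespace Pool.Agent.Q278.MC

open Filter Topology Finset
open scoped ComplexConjugate

/-- multiplication of an arithmetic function by a weight -/
noncomputable def Dw (w : ℕ → ℂ) (f : ArithmeticFunction ℂ) : ArithmeticFunction ℂ :=
  ⟨fun n => w n * f n, by simp⟩

lemma Dw_apply (w : ℕ → ℂ) (f : ArithmeticFunction ℂ) (n : ℕ) : Dw w f n = w n * f n := rfl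

lemma nsmul_app (c : ℕ) (f : ArithmeticFunction ℂ) (n : ℕ) : (c • f) n = (c : ℂ) * f n := by
  induction c with
  | zero => simp
  | succ c ih =>
    rw [succ_nsmul, ArithmeticFunction.add_apply, ih]
    push_cast
    ring

lemma Dw_mul {w : ℕ → ℂ} (hw : ∀ a b : ℕ, a ≠ 0 → b ≠ 0 → w (a * b) = w a + w b)
    (f g : ArithmeticFunction ℂ) : Dw w (f * g) = Dw w f * g + f * Dw w g := by
  ext n
  rw [ArithmeticFunction.add_apply, Dw_apply, ArithmeticFunction.mul_apply,
    ArithmeticFunction.mul_apply, ArithmeticFunction.mul_apply, Finset.mul_sum,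
    ← Finset.sum_add_distrib]
  refine Finset.sum_congr rfl fun x hx => ?_
  rw [Nat.mem_divisorsAntidiagonal] at hx
  have h1 : x.1 ≠ 0 := by
    rintro h; apply hx.2; rw [← hx.1, h, zero_mul]
  have h2 : x.2 ≠ 0 := by
    rintro h; apply hx.2; rw [← hx.1, h, mul_zero]
  rw [← hx.1, hw _ _ h1 h2, Dw_apply, Dw_apply]
  ring

lemma Dw_pow {w : ℕ → ℂ} (hw : ∀ a b : ℕ, a ≠ 0 → b ≠ 0 → w (a * b) = w a + w b)
    (f : ArithmeticFunction ℂ) (k : ℕ) : Dw w (f ^ (k + 1)) = (k + 1) • (f ^ k * Dw w f) := by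
  induction k with
  | zero => simp
  | succ k ih =>
    rw [pow_succ, Dw_mul hw, ih]
    have e1 : ((k + 1) • (f ^ k * Dw w f)) * f = (k + 1) • (f ^ (k + 1) * Dw w f) := by
      rw [smul_mul_assoc, pow_succ]
      congr 1
      ring
    rw [e1, add_smul (k + 1) 1, one_smul]

/-- an arithmetic function supported on a finite set of primes up to `N` -/
structure Pc (c : ArithmeticFunction ℂ) (P : Finset ℕ) (N : ℕ) : Prop where
  pr : ∀ p ∈ P, p.Prime
  le : ∀ p ∈ P, p ≤ N
  supp : ∀ n, n ∉ P → c n = 0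

variable {c : ArithmeticFunction ℂ} {P : Finset ℕ} {N : ℕ}

lemma pow_le (h : Pc c P N) (k : ℕ) : ∀ n : ℕ, (c ^ k) n ≠ 0 → n ≤ N ^ k := by
  induction k with
  | zero =>
    intro n hn
    rw [pow_zero, ArithmeticFunction.one_apply] at hn
    rw [pow_zero]
    by_contra h
    rw [if_neg (by omega)] at hn
    exact hn rfl
  | succ k ih =>
    intro n hn
    rw [pow_succ, ArithmeticFunction.mul_apply] at hn
    obtain ⟨x, hx, hx2⟩ := Finset.exists_ne_zero_of_sum_ne_zero hn
    rw [Nat.mem_divisorsAntidiagonal] at hx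
    have h1 := ih x.1 (left_ne_zero_of_mul hx2)
    have h2 := right_ne_zero_of_mul hx2
    have h3 : x.2 ∈ P := by
      by_contra h4; exact h2 (h.supp _ h4)
    rw [← hx.1, pow_succ]
    exact Nat.mul_le_mul h1 (h.le _ h3)

/-- the number of prime factors in `P` -/
noncomputable def wy (P : Finset ℕ) (n : ℕ) : ℂ := ∑ p ∈ P, (n.factorization p : ℂ)

lemma wy_mul (P : Finset ℕ) (a b : ℕ) (ha : a ≠ 0) (hb : b ≠ 0) : wy P (a * b) = wy P a + wy P b := by
  unfold wy
  rw [← Finset.sum_add_distrib]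
  refine Finset.sum_congr rfl fun p _ => ?_
  rw [Nat.factorization_mul ha hb, Finsupp.add_apply, Nat.cast_add]

lemma Dw_c (h : Pc c P N) : Dw (wy P) c = c := by
  ext n
  rw [Dw_apply]
  by_cases hn : n ∈ P
  · have : wy P n = 1 := by
      unfold wy
      rw [Finset.sum_eq_single n]
      · rw [(h.pr n hn).factorization_self]; norm_num
      · intro p _ hp
        rw [(h.pr n hn).factorization, Finsupp.single_apply, if_neg (fun e => hp e.symm)]
        norm_num
      · intro hn'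
        exact absurd hn hn'
    rw [this, one_mul]
  · rw [h.supp n hn, mul_zero]

lemma wy_pow (h : Pc c P N) (k n : ℕ) : wy P n * (c ^ k) n = k * (c ^ k) n := by
  cases k with
  | zero =>
    rw [pow_zero, ArithmeticFunction.one_apply]
    split_ifs with h1
    · subst h1
      simp [wy]
    · simp
  | succ k =>
    have h1 := Dw_pow (wy_mul P) c k
    rw [Dw_c h, ← pow_succ] at h1
    have h2 := congrArg (fun f : ArithmeticFunction ℂ => f n) h1
    simp only [Dw_apply] at h2
    rw [h2, nsmul_app]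

lemma orth (h : Pc c P N) {k l : ℕ} (hkl : k ≠ l) (n : ℕ) :
    (c ^ k) n * conj ((c ^ l) n) = 0 := by
  by_contra hc
  have h0 := left_ne_zero_of_mul hc
  have h0' : (c ^ l) n ≠ 0 := by
    intro e
    exact right_ne_zero_of_mul hc (by rw [e, map_zero])
  have h1 := mul_right_cancel₀ h0 (wy_pow h k n)
  have h2 := mul_right_cancel₀ h0' (wy_pow h l n)
  apply hkl
  have : (k : ℂ) = l := by rw [← h1, ← h2]
  exact_mod_cast this

/-! ### the recursion -/

lemma fac_mul (p : ℕ) (a b : ℕ) (ha : a ≠ 0) (hb : b ≠ 0) :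
    ((a * b).factorization p : ℂ) = a.factorization p + b.factorization p := by
  rw [Nat.factorization_mul ha hb, Finsupp.add_apply, Nat.cast_add]

lemma recu (h : Pc c P N) {p : ℕ} (hp : p ∈ P) (k m : ℕ) (hm : m ≠ 0) :
    ((m.factorization p : ℂ) + 1) * (c ^ (k + 1)) (p * m) = (k + 1) * (c p * (c ^ k) m) := by
  have hp' := h.pr p hp
  have h1 := Dw_pow (w := fun n => (n.factorization p : ℂ)) (fun a b => fac_mul p a b) c k
  have h2 := congrArg (fun f : ArithmeticFunction ℂ => f (p * m)) h1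
  simp only [Dw_apply] at h2
  rw [fac_mul p p m hp'.ne_zero hm, hp'.factorization_self] at h2
  have h3 : ((k + 1) • (c ^ k * Dw (fun n => (n.factorization p : ℂ)) c)) (p * m) =
      (k + 1) * ((c ^ k * Dw (fun n => (n.factorization p : ℂ)) c) (p * m)) := by
    rw [nsmul_app]
    push_cast
    rfl
  rw [h3] at h2
  have h4 : (c ^ k * Dw (fun n => (n.factorization p : ℂ)) c) (p * m) = c p * (c ^ k) m := by
    rw [ArithmeticFunction.mul_apply, Finset.sum_eq_single (m, p)]
    · rw [Dw_apply, hp'.factorization_self]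
      push_cast
      ring
    · intro x hx hne
      rw [Nat.mem_divisorsAntidiagonal] at hx
      rw [Dw_apply]
      by_cases hx2 : x.2 ∈ P
      · by_cases e : x.2 = p
        · exfalso
          apply hne
          have : x.1 = m := by
            have h5 := hx.1
            rw [e, mul_comm] at h5
            exact Nat.eq_of_mul_eq_mul_left hp'.pos h5
          exact Prod.ext this e
        · rw [(h.pr _ hx2).factorization, Finsupp.single_apply, if_neg e]
          simp
      · rw [h.supp _ hx2]; simp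
    · intro h
      exfalso
      apply h
      rw [Nat.mem_divisorsAntidiagonal]
      exact ⟨mul_comm _ _, mul_ne_zero hp'.ne_zero hm⟩
  rw [h4] at h2
  rw [← h2]
  push_cast
  ring

/-- the sum of the squares -/
noncomputable def SS (c : ArithmeticFunction ℂ) (N k : ℕ) : ℝ :=
  ∑ n ∈ Finset.Icc 1 (N ^ k), ‖(c ^ k) n‖ ^ 2

lemma SS_eq (h : Pc c P N) (k M : ℕ) (hM : N ^ k ≤ M) :
    ∑ n ∈ Finset.Icc 1 M, ‖(c ^ k) n‖ ^ 2 = SS c N k := by
  unfold SS
  symm
  refine Finset.sum_subset (Finset.Icc_subset_Icc_right hM) fun n _ h2 => ?_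
  by_contra h0
  have h3 : (c ^ k) n ≠ 0 := fun e => h0 (by rw [e]; norm_num)
  have h4 := pow_le h k n h3
  rw [Finset.mem_Icc] at h2
  have h5 : n ≠ 0 := by rintro rfl; simp at h3
  exact h2 ⟨by omega, h4⟩

lemma SS_step_p (h : Pc c P N) {p : ℕ} (hp : p ∈ P) (k : ℕ) :
    ∑ n ∈ Finset.Icc 1 (N ^ (k + 1)), (n.factorization p : ℝ) * ‖(c ^ (k + 1)) n‖ ^ 2 =
      (k + 1) ^ 2 * ∑ m ∈ Finset.Icc 1 (N ^ k),
        ‖(c ^ k) m‖ ^ 2 * (‖c p‖ ^ 2 / ((m.factorization p : ℝ) + 1)) := by
  have hp' := h.pr p hp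
  have hpN := h.le p hp
  have h1 : ∑ n ∈ Finset.Icc 1 (N ^ (k + 1)), (n.factorization p : ℝ) * ‖(c ^ (k + 1)) n‖ ^ 2 =
      ∑ n ∈ (Finset.Icc 1 (N ^ k)).image (fun m => p * m),
        (n.factorization p : ℝ) * ‖(c ^ (k + 1)) n‖ ^ 2 := by
    symm
    refine Finset.sum_subset ?_ ?_
    · intro n hn
      rw [Finset.mem_image] at hn
      obtain ⟨m, hm, rfl⟩ := hn
      rw [Finset.mem_Icc] at hm ⊢
      refine ⟨Nat.mul_pos hp'.pos hm.1, ?_⟩
      rw [pow_succ, mul_comm]
      exact Nat.mul_le_mul hm.2 hpN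
    · intro n hn hn2
      rw [Finset.mem_Icc] at hn
      by_cases hd : p ∣ n
      · obtain ⟨m, rfl⟩ := hd
        have hm0 : m ≠ 0 := by rintro rfl; simp at hn
        have hm1 : ¬ m ≤ N ^ k := by
          intro h
          apply hn2
          rw [Finset.mem_image]
          exact ⟨m, Finset.mem_Icc.2 ⟨Nat.one_le_iff_ne_zero.2 hm0, h⟩, rfl⟩
        have h2 : (c ^ k) m = 0 := by
          by_contra h0
          exact hm1 (pow_le h k m h0)
        have h3 := recu h hp k m hm0
        rw [h2, mul_zero, mul_zero] at h3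
        have h4 : (c ^ (k + 1)) (p * m) = 0 := by
          rcases mul_eq_zero.1 h3 with h | h
          · exfalso
            have h5 : ((m.factorization p + 1 : ℕ) : ℂ) = 0 := by push_cast; exact h
            rw [Nat.cast_eq_zero] at h5
            omega
          · exact h
        rw [h4]
        norm_num
      · rw [Nat.factorization_eq_zero_of_not_dvd hd]
        norm_num
  rw [h1, Finset.sum_image (fun a _ b _ h => Nat.eq_of_mul_eq_mul_left hp'.pos h), Finset.mul_sum]
  refine Finset.sum_congr rfl fun m hm => ?_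
  rw [Finset.mem_Icc] at hm
  have hm0 : m ≠ 0 := by omega
  have h3 := congrArg norm (recu h hp k m hm0)
  have hv : (0 : ℝ) < (m.factorization p : ℝ) + 1 := by positivity
  have e1 : ‖((m.factorization p : ℂ) + 1)‖ = (m.factorization p : ℝ) + 1 := by
    have : ((m.factorization p : ℂ) + 1) = ((m.factorization p + 1 : ℕ) : ℂ) := by push_cast; rfl
    rw [this, Complex.norm_natCast]
    push_cast; rfl
  have e2 : ‖((k : ℂ) + 1)‖ = (k : ℝ) + 1 := by
    have : ((k : ℂ) + 1) = ((k + 1 : ℕ) : ℂ) := by push_cast; rfl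
    rw [this, Complex.norm_natCast]
    push_cast; rfl
  rw [norm_mul, norm_mul, norm_mul, e1, e2] at h3
  have h4 : ‖(c ^ (k + 1)) (p * m)‖ =
      (k + 1) * (‖c p‖ * ‖(c ^ k) m‖) / ((m.factorization p : ℝ) + 1) := by
    rw [← h3]
    field_simp
  have h6 : ((p * m).factorization p : ℝ) = (m.factorization p : ℝ) + 1 := by
    rw [Nat.factorization_mul hp'.ne_zero hm0, Finsupp.add_apply, hp'.factorization_self]
    push_cast
    ring
  rw [h4, h6]
  field_simp

lemma SS_succ (h : Pc c P N) (k : ℕ) : SS c N (k + 1) =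
    (k + 1) * ∑ m ∈ Finset.Icc 1 (N ^ k),
        ‖(c ^ k) m‖ ^ 2 * ∑ p ∈ P, (‖c p‖ ^ 2 / ((m.factorization p : ℝ) + 1)) := by
  have h1 : ((k : ℝ) + 1) * SS c N (k + 1) = ∑ n ∈ Finset.Icc 1 (N ^ (k + 1)),
      ∑ p ∈ P, (n.factorization p : ℝ) * ‖(c ^ (k + 1)) n‖ ^ 2 := by
    unfold SS
    rw [Finset.mul_sum]
    refine Finset.sum_congr rfl fun n _ => ?_
    rw [← Finset.sum_mul]
    by_cases h0 : (c ^ (k + 1)) n = 0
    · rw [h0]; simp
    · have h2 := mul_right_cancel₀ h0 (wy_pow h (k + 1) n)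
      have h3 : (∑ p ∈ P, (n.factorization p : ℝ)) = (k : ℝ) + 1 := by
        unfold wy at h2
        exact_mod_cast h2
      rw [h3]
  rw [Finset.sum_comm, Finset.sum_congr rfl (fun p hp => SS_step_p h hp k), ← Finset.mul_sum,
    Finset.sum_comm] at h1
  have h3 : (0 : ℝ) < (k : ℝ) + 1 := by positivity
  have h4 : SS c N (k + 1) = (k + 1) * ∑ m ∈ Finset.Icc 1 (N ^ k), ∑ p ∈ P,
        ‖(c ^ k) m‖ ^ 2 * (‖c p‖ ^ 2 / ((m.factorization p : ℝ) + 1)) := by
    have h5 := mul_left_cancel₀ h3.ne' (h1.trans (by rw [sq, mul_assoc]))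
    exact h5
  rw [h4]
  congr 1
  refine Finset.sum_congr rfl fun m _ => ?_
  rw [Finset.mul_sum]

/-- the variance -/
noncomputable def VV (c : ArithmeticFunction ℂ) (P : Finset ℕ) : ℝ := ∑ p ∈ P, ‖c p‖ ^ 2

lemma SS_nonneg (c : ArithmeticFunction ℂ) (N k : ℕ) : 0 ≤ SS c N k :=
  Finset.sum_nonneg fun _ _ => sq_nonneg _

lemma SS_upper (h : Pc c P N) (k : ℕ) : SS c N (k + 1) ≤ (k + 1) * (VV c P * SS c N k) := by
  rw [SS_succ h]
  refine mul_le_mul_of_nonneg_left ?_ (by positivity)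
  unfold SS VV
  rw [Finset.mul_sum]
  refine Finset.sum_le_sum fun m _ => ?_
  rw [mul_comm]
  refine mul_le_mul_of_nonneg_right ?_ (sq_nonneg _)
  refine Finset.sum_le_sum fun p _ => ?_
  refine div_le_self (by positivity) ?_
  have : (0 : ℝ) ≤ (m.factorization p : ℝ) := by positivity
  linarith

lemma SS_lower (h : Pc c P N) {M : ℝ} (hM : ∀ p ∈ P, ‖c p‖ ^ 2 ≤ M) (k : ℕ) :
    (k + 1) * ((VV c P - k * M) * SS c N k) ≤ SS c N (k + 1) := by
  rw [SS_succ h]
  refine mul_le_mul_of_nonneg_left ?_ (by positivity)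
  unfold SS
  rw [Finset.mul_sum]
  refine Finset.sum_le_sum fun m _ => ?_
  by_cases h0 : (c ^ k) m = 0
  · rw [h0]; simp
  have h2 := mul_right_cancel₀ h0 (wy_pow h k m)
  have h3 : (∑ p ∈ P, (m.factorization p : ℝ)) = (k : ℝ) := by
    unfold wy at h2
    exact_mod_cast h2
  rw [mul_comm]
  refine mul_le_mul_of_nonneg_left ?_ (sq_nonneg _)
  rw [← h3]
  unfold VV
  rw [Finset.sum_mul, ← Finset.sum_sub_distrib]
  refine Finset.sum_le_sum fun p hp => ?_
  have hv : (0 : ℝ) ≤ (m.factorization p : ℝ) := by positivity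
  have hc0 : 0 ≤ ‖c p‖ ^ 2 := sq_nonneg _
  have hcM := hM p hp
  rw [le_div_iff₀ (by linarith)]
  have h7 : 0 ≤ (m.factorization p : ℝ) * (M - ‖c p‖ ^ 2) := mul_nonneg hv (by linarith)
  have h8 : 0 ≤ M := hc0.trans hcM
  nlinarith [mul_nonneg (mul_nonneg hv hv) h8]

end Pool.Agent.Q278.MC
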