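import Pool.Agent.Q278.MC.A
import Pool.Agent.Y840.SW.MVB
import Pool.Agent.Y586.SW.GM

/-!
# A central limit theorem for Dirichlet polynomials over primes with complex coefficients (helper278)
-/

set_option autoImplicit false

namespace Pool.Agent.Q278.MC

open Filter Topology Finset MeasureTheory Complex
open scoped ComplexConjugate

noncomputable section

/-- the Dirichlet polynomial -/
def DP (f : ℕ → ℂ) (X : ℕ) (t : ℝ) : ℂ := ∑ n ∈ Finset.Icc 1 X, f n * (n : ℂ) ^ (-(t : ℂ) * I)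

lemma DP_cont (f : ℕ → ℂ) (X : ℕ) : Continuous (DP f X) := by
  unfold DP
  refine continuous_finsetSum _ fun n hn => ?_
  rw [Finset.mem_Icc] at hn
  have hn0 : (n : ℂ) ≠ 0 := by
    have : n ≠ 0 := by omega
    exact_mod_cast this
  refine continuous_const.mul ?_
  simp only [Complex.cpow_def_of_ne_zero hn0]
  fun_prop

lemma DP_extend (f : ℕ → ℂ) (X Y : ℕ) (hXY : X ≤ Y) (hf : ∀ n, X < n → f n = 0) (t : ℝ) :
    DP f X t = DP f Y t := by
  unfold DP
  apply Finset.sum_subset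
  · exact Finset.Icc_subset_Icc_right hXY
  · intro n hn hn'
    have : X < n := by
      simp only [Finset.mem_Icc, not_and, not_le] at hn hn'
      exact hn' hn.1
    rw [hf n this]; simp

lemma supp_mul (f g : ArithmeticFunction ℂ) (M N : ℕ) (hf : ∀ n, M < n → f n = 0)
    (hg : ∀ n, N < n → g n = 0) : ∀ n, M * N < n → (f * g) n = 0 := by
  intro n hn
  rw [ArithmeticFunction.mul_apply]
  apply Finset.sum_eq_zero
  intro x hx
  rw [Nat.mem_divisorsAntidiagonal] at hx
  by_cases h1 : M < x.1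
  · rw [hf _ h1]; ring
  · by_cases h2 : N < x.2
    · rw [hg _ h2]; ring
    · exfalso
      push Not at h1 h2
      have := Nat.mul_le_mul h1 h2
      omega

lemma DP_mul (f g : ArithmeticFunction ℂ) (M N : ℕ) (hf : ∀ n, M < n → f n = 0)
    (hg : ∀ n, N < n → g n = 0) (t : ℝ) :
    DP f M t * DP g N t = DP ⇑(f * g) (M * N) t := by
  unfold DP
  rw [Finset.sum_mul_sum, ← Finset.sum_product']
  have hmap : ∀ x ∈ Finset.Icc 1 M ×ˢ Finset.Icc 1 N, x.1 * x.2 ∈ Finset.Icc 1 (M * N) := by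
    intro x hx
    simp only [Finset.mem_product, Finset.mem_Icc] at hx ⊢
    exact ⟨Nat.one_le_iff_ne_zero.mpr (by
      have h1 := hx.1.1; have h2 := hx.2.1
      positivity), Nat.mul_le_mul hx.1.2 hx.2.2⟩
  rw [← Finset.sum_fiberwise_of_maps_to hmap]
  apply Finset.sum_congr rfl
  intro r hr
  rw [Finset.mem_Icc] at hr
  rw [ArithmeticFunction.mul_apply]
  push_cast
  rw [Finset.sum_mul]
  apply Finset.sum_subset_zero_on_sdiff
  · intro x hx
    simp only [Finset.mem_filter, Finset.mem_product, Finset.mem_Icc] at hx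
    rw [Nat.mem_divisorsAntidiagonal]
    exact ⟨hx.2, by omega⟩
  · intro x hx
    simp only [Finset.mem_sdiff, Nat.mem_divisorsAntidiagonal, Finset.mem_filter, Finset.mem_product,
      Finset.mem_Icc] at hx
    obtain ⟨⟨h1, h2⟩, h3⟩ := hx
    have hx1 : 1 ≤ x.1 := by
      rcases Nat.eq_zero_or_pos x.1 with h | h
      · rw [h] at h1; omega
      · exact h
    have hx2 : 1 ≤ x.2 := by
      rcases Nat.eq_zero_or_pos x.2 with h | h
      · rw [h] at h1; omega
      · exact h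
    by_cases hM : M < x.1
    · rw [hf _ hM]; simp
    · by_cases hN : N < x.2
      · rw [hg _ hN]; simp
      · exfalso
        push Not at hM hN
        exact h3 ⟨⟨⟨hx1, hM⟩, ⟨hx2, hN⟩⟩, h1⟩
  · intro x hx
    simp only [Finset.mem_filter, Finset.mem_product, Finset.mem_Icc] at hx
    rw [← hx.2]
    push_cast
    rw [Complex.natCast_mul_natCast_cpow]
    ring

lemma supp_pow (f : ArithmeticFunction ℂ) (X : ℕ) (hf : ∀ n, X < n → f n = 0) (k : ℕ) :
    ∀ n, X ^ k < n → (f ^ k) n = 0 := by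
  induction k with
  | zero =>
    intro n hn
    rw [pow_zero, ArithmeticFunction.one_apply_ne]
    simp at hn; omega
  | succ k ih =>
    intro n hn
    rw [pow_succ]
    exact supp_mul (f ^ k) f (X ^ k) X ih hf n (by rwa [← pow_succ])

lemma DP_pow (f : ArithmeticFunction ℂ) (X : ℕ) (hf : ∀ n, X < n → f n = 0) (t : ℝ) (k : ℕ) :
    DP f X t ^ k = DP ⇑(f ^ k) (X ^ k) t := by
  induction k with
  | zero =>
    rw [pow_zero, pow_zero, pow_zero]
    unfold DP
    simp
  | succ k ih =>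
    rw [pow_succ, ih, DP_mul (f ^ k) f (X ^ k) X (supp_pow f X hf k) hf t, pow_succ, pow_succ]

lemma Pc.zero {c : ArithmeticFunction ℂ} {P : Finset ℕ} {N : ℕ} (h : Pc c P N) :
    ∀ n, N < n → c n = 0 := fun n hn => h.supp n fun h2 => by have := h.le n h2; omega

lemma DP_pow_ext {c : ArithmeticFunction ℂ} {P : Finset ℕ} {N : ℕ} (h : Pc c P N) (k M : ℕ)
    (hM : N ^ k ≤ M) (t : ℝ) : DP c N t ^ k = DP ⇑(c ^ k) M t := by
  rw [DP_pow _ _ h.zero]
  exact DP_extend _ _ _ hM (supp_pow _ _ h.zero k) t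

/-- the mean square of a Dirichlet polynomial -/
theorem mean_sq (X : ℕ) (T1 T2 : ℝ) (h : T1 ≤ T2) (f : ℕ → ℂ) :
    ∫ t in T1..T2, ‖DP f X t‖ ^ 2 ≤
      ((T2 - T1) + 8 * X * (1 + Real.log X)) * ∑ n ∈ Finset.Icc 1 X, ‖f n‖ ^ 2 := by
  have h1 := Pool.Agent.Y840.SW.t_MVB X T1 T2 h f f
  have e1 : ∀ t : ℝ, (∑ n ∈ Finset.Icc 1 X, f n * (n : ℂ) ^ (-(t : ℂ) * I)) *
      conj (∑ n ∈ Finset.Icc 1 X, f n * (n : ℂ) ^ (-(t : ℂ) * I)) = ((‖DP f X t‖ ^ 2 : ℝ) : ℂ) := by
    intro t
    rw [Complex.mul_conj, Complex.normSq_eq_norm_sq]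
    rfl
  have e2 : ∀ n : ℕ, f n * conj (f n) = ((‖f n‖ ^ 2 : ℝ) : ℂ) := by
    intro n
    rw [Complex.mul_conj, Complex.normSq_eq_norm_sq]
  simp_rw [e1, e2] at h1
  rw [intervalIntegral.integral_ofReal, ← Complex.ofReal_sum, ← Complex.ofReal_mul,
    ← Complex.ofReal_sub, Complex.norm_real, Real.norm_eq_abs, Real.mul_self_sqrt
      (Finset.sum_nonneg fun _ _ => sq_nonneg _)] at h1
  have h2 := (abs_le.1 h1).2
  linarith

lemma err_tendsto : Tendsto (fun T : ℝ => Real.sqrt T * (1 + Real.log T) / T) atTop (𝓝 0) := by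
  have h1 : Tendsto (fun T : ℝ => T ^ (-(1/2 : ℝ))) atTop (𝓝 0) := tendsto_rpow_neg_atTop (by norm_num)
  have h2 : Tendsto (fun T : ℝ => Real.log T / T ^ (1/2 : ℝ)) atTop (𝓝 0) :=
    (isLittleO_log_rpow_atTop (by norm_num : (0:ℝ) < 1/2)).tendsto_div_nhds_zero
  have h3 := h1.add h2
  rw [add_zero] at h3
  apply h3.congr'
  filter_upwards [eventually_gt_atTop (0:ℝ)] with T hT
  have hs : T ^ (1/2 : ℝ) * T ^ (1/2 : ℝ) = T := by
    rw [← Real.rpow_add hT]; norm_num
  have hpos : 0 < T ^ (1/2 : ℝ) := by positivity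
  rw [Real.sqrt_eq_rpow, Real.rpow_neg hT.le]
  rw [eq_div_iff hT.ne']
  field_simp
  rw [sq, hs]
  ring

/-! ### sequences of polynomials -/

variable {T : ℕ → ℝ} {c : ℕ → ArithmeticFunction ℂ} {P : ℕ → Finset ℕ} {N : ℕ → ℕ}

lemma SS_lim (hP : ∀ n, Pc (c n) (P n) (N n)) {M : ℕ → ℝ} (hM : Tendsto M atTop (𝓝 0))
    (hcM : ∀ n, ∀ p ∈ P n, ‖c n p‖ ^ 2 ≤ M n) {V : ℝ}
    (hV : Tendsto (fun n => VV (c n) (P n)) atTop (𝓝 V)) (k : ℕ) :
    Tendsto (fun n => SS (c n) (N n) k) atTop (𝓝 (k.factorial * V ^ k)) := by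
  induction k with
  | zero =>
    refine Tendsto.congr (f₁ := fun _ => (1 : ℝ)) (fun n => ?_) (by simp)
    rw [SS]
    simp
  | succ k ih =>
    have e : ((k : ℝ) + 1) * (V * (k.factorial * V ^ k)) = (k + 1).factorial * V ^ (k + 1) := by
      rw [Nat.factorial_succ]; push_cast; ring
    have h1 : Tendsto (fun n => ((k : ℝ) + 1) * (VV (c n) (P n) * SS (c n) (N n) k)) atTop
        (𝓝 ((k + 1).factorial * V ^ (k + 1))) := by
      rw [← e]
      exact (hV.mul ih).const_mul ((k : ℝ) + 1)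
    have h3 : Tendsto (fun n => ((k : ℝ) + 1) * ((VV (c n) (P n) - k * M n) * SS (c n) (N n) k))
        atTop (𝓝 ((k + 1).factorial * V ^ (k + 1))) := by
      have h4 := (((hV.sub (hM.const_mul (k : ℝ))).mul ih).const_mul ((k : ℝ) + 1))
      rw [mul_zero, sub_zero, e] at h4
      exact h4
    exact tendsto_of_tendsto_of_tendsto_of_le_of_le h3 h1
      (fun n => SS_lower (hP n) (hcM n) k) (fun n => SS_upper (hP n) k)

/-- the mixed moments -/
theorem moments (hT : Tendsto T atTop atTop) (hP : ∀ n, Pc (c n) (P n) (N n))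
    (hN1 : ∀ n, 1 ≤ N n) (hN : ∀ m : ℕ, ∀ᶠ n in atTop, ((N n : ℝ)) ^ m ≤ Real.sqrt (T n))
    {M : ℕ → ℝ} (hM : Tendsto M atTop (𝓝 0))
    (hcM : ∀ n, ∀ p ∈ P n, ‖c n p‖ ^ 2 ≤ M n) {V : ℝ}
    (hV : Tendsto (fun n => VV (c n) (P n)) atTop (𝓝 V)) (k l : ℕ) :
    Tendsto (fun n => ((1 / T n : ℝ) : ℂ) * ∫ t in (T n + Real.log (T n))..(2 * T n - Real.log (T n)),
      DP (c n) (N n) t ^ k * conj (DP (c n) (N n) t) ^ l) atTop
      (𝓝 (if k = l then (k.factorial : ℂ) * (V : ℂ) ^ k else 0)) := by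
  set X : ℕ → ℕ := fun n => N n ^ (k + l) with hX
  set D : ℕ → ℂ := fun n => ∑ j ∈ Finset.Icc 1 (X n), (c n ^ k) j * conj ((c n ^ l) j) with hD
  have hlog := Real.tendsto_log_atTop
  have hr : Tendsto (fun x : ℝ => Real.log x / x) atTop (𝓝 0) := by
    have := Real.isLittleO_log_id_atTop.tendsto_div_nhds_zero
    simpa using this
  -- the main term
  have hDlim : Tendsto D atTop (𝓝 (if k = l then (k.factorial : ℂ) * (V : ℂ) ^ k else 0)) := by
    by_cases h : k = l
    · rw [if_pos h]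
      subst h
      have h1 := (Complex.continuous_ofReal.tendsto _).comp (SS_lim hP hM hcM hV k)
      have e1 : (((k.factorial : ℝ) * V ^ k : ℝ) : ℂ) = (k.factorial : ℂ) * (V : ℂ) ^ k := by
        push_cast; rfl
      rw [e1] at h1
      refine h1.congr fun n => ?_
      simp only [Function.comp_apply, hD]
      rw [← SS_eq (hP n) k (X n) (Nat.pow_le_pow_right (hN1 n) (by omega))]
      push_cast
      refine Finset.sum_congr rfl fun j _ => ?_
      rw [Complex.mul_conj, Complex.normSq_eq_norm_sq]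
      push_cast
      rfl
    · rw [if_neg h]
      refine Tendsto.congr (f₁ := fun _ => (0 : ℂ)) (fun n => ?_) tendsto_const_nhds
      simp only [hD]
      rw [Finset.sum_eq_zero fun j _ => orth (hP n) h j]
  have hlen : Tendsto (fun n => (((T n - 2 * Real.log (T n)) / T n : ℝ) : ℂ)) atTop (𝓝 1) := by
    have h1 : Tendsto (fun x : ℝ => 1 - 2 * (Real.log x / x)) atTop (𝓝 (1 - 2 * 0)) :=
      tendsto_const_nhds.sub (hr.const_mul 2)
    rw [mul_zero, sub_zero] at h1
    have h2 := (Complex.continuous_ofReal.tendsto _).comp (h1.comp hT)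
    rw [Complex.ofReal_one] at h2
    refine h2.congr' ?_
    filter_upwards [hT.eventually_gt_atTop 0] with n hn
    simp only [Function.comp_apply]
    congr 1
    field_simp
  have hmain := hlen.mul hDlim
  rw [one_mul] at hmain
  -- the error
  have herr : Tendsto (fun n => 8 * (Real.sqrt (T n) * (1 + Real.log (T n)) / T n) *
      (Real.sqrt (SS (c n) (N n) k) * Real.sqrt (SS (c n) (N n) l))) atTop (𝓝 0) := by
    have h1 : Tendsto (fun x : ℝ => Real.sqrt x * (1 + Real.log x) / x) atTop (𝓝 0) :=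
      Pool.Agent.Q278.MC.err_tendsto
    have h2 := ((h1.comp hT).const_mul 8).mul
      (((Real.continuous_sqrt.tendsto _).comp (SS_lim hP hM hcM hV k)).mul
      ((Real.continuous_sqrt.tendsto _).comp (SS_lim hP hM hcM hV l)))
    rw [mul_zero, zero_mul] at h2
    exact h2
  have hdiff : Tendsto (fun n => (((1 / T n : ℝ) : ℂ) *
      ∫ t in (T n + Real.log (T n))..(2 * T n - Real.log (T n)),
      DP (c n) (N n) t ^ k * conj (DP (c n) (N n) t) ^ l) -
      (((T n - 2 * Real.log (T n)) / T n : ℝ) : ℂ) * D n) atTop (𝓝 0) := by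
    refine squeeze_zero_norm' ?_ herr
    have hl2 : ∀ᶠ x : ℝ in atTop, 2 * Real.log x ≤ x := by
      filter_upwards [hr.eventually_le_const (u := 1 / 2) (by norm_num), eventually_gt_atTop (0 : ℝ)]
        with x h2 h3
      rw [div_le_iff₀ h3] at h2
      linarith
    filter_upwards [hN (k + l), hT.eventually hl2, hT.eventually_ge_atTop 1] with n h1 h2 h3
    have hT0 : 0 < T n := by linarith
    have hXc : ((X n : ℕ) : ℝ) = (N n : ℝ) ^ (k + l) := by simp only [hX]; push_cast; rfl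
    have hX1 : (1 : ℝ) ≤ (X n : ℕ) := by
      have : 1 ≤ X n := Nat.one_le_pow _ _ (hN1 n)
      exact_mod_cast this
    have hMV := Pool.Agent.Y840.SW.t_MVB (X n) (T n + Real.log (T n)) (2 * T n - Real.log (T n))
      (by linarith) (fun j => (c n ^ k) j) (fun j => (c n ^ l) j)
    have hint : ∀ t : ℝ, (∑ j ∈ Finset.Icc 1 (X n), (c n ^ k) j * (j : ℂ) ^ (-(t : ℂ) * I)) *
        conj (∑ j ∈ Finset.Icc 1 (X n), (c n ^ l) j * (j : ℂ) ^ (-(t : ℂ) * I)) =
        DP (c n) (N n) t ^ k * conj (DP (c n) (N n) t) ^ l := by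
      intro t
      rw [← map_pow, DP_pow_ext (hP n) k (X n) (Nat.pow_le_pow_right (hN1 n) (by omega)),
        DP_pow_ext (hP n) l (X n) (Nat.pow_le_pow_right (hN1 n) (by omega))]
      rfl
    simp_rw [hint] at hMV
    rw [SS_eq (hP n) k (X n) (Nat.pow_le_pow_right (hN1 n) (by omega)),
      SS_eq (hP n) l (X n) (Nat.pow_le_pow_right (hN1 n) (by omega))] at hMV
    set J : ℂ := ∫ t in (T n + Real.log (T n))..(2 * T n - Real.log (T n)),
      DP (c n) (N n) t ^ k * conj (DP (c n) (N n) t) ^ l with hJ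
    have e1 : (((1 / T n : ℝ) : ℂ) * J) - (((T n - 2 * Real.log (T n)) / T n : ℝ) : ℂ) * D n =
        ((1 / T n : ℝ) : ℂ) * (J - (((2 * T n - Real.log (T n)) - (T n + Real.log (T n)) : ℝ) : ℂ) *
          D n) := by
      rw [mul_sub, ← mul_assoc, ← Complex.ofReal_mul]
      congr 3
      field_simp
      ring
    rw [e1, norm_mul, Complex.norm_real, Real.norm_of_nonneg (by positivity)]
    have hs1 : Real.sqrt (T n) ≤ T n := by
      rw [Real.sqrt_le_left (by linarith)]
      nlinarith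
    have hlX : Real.log (X n : ℕ) ≤ Real.log (T n) := by
      apply Real.log_le_log (by linarith)
      rw [hXc]; linarith
    have hlX0 : 0 ≤ Real.log (X n : ℕ) := Real.log_nonneg hX1
    have hS : 0 ≤ Real.sqrt (SS (c n) (N n) k) * Real.sqrt (SS (c n) (N n) l) := by positivity
    calc 1 / T n * ‖J - _‖ ≤ 1 / T n * (8 * (X n : ℕ) * (1 + Real.log (X n : ℕ)) *
          (Real.sqrt (SS (c n) (N n) k) * Real.sqrt (SS (c n) (N n) l))) :=
          mul_le_mul_of_nonneg_left hMV (by positivity)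
      _ ≤ 1 / T n * (8 * Real.sqrt (T n) * (1 + Real.log (T n)) *
          (Real.sqrt (SS (c n) (N n) k) * Real.sqrt (SS (c n) (N n) l))) := by
          have h9 : (X n : ℝ) ≤ Real.sqrt (T n) := by rw [hXc]; exact h1
          gcongr
      _ = _ := by
          field_simp
  have := hdiff.add hmain
  rw [zero_add] at this
  refine this.congr fun n => ?_
  ring

lemma two_log_le {x : ℝ} (hx : 1 ≤ x) : 2 * Real.log x ≤ x := by
  have h0 : 0 < Real.sqrt x := Real.sqrt_pos.2 (by linarith)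
  have h1 := Real.log_le_sub_one_of_pos h0
  rw [Real.log_sqrt (by linarith)] at h1
  have h2 : Real.sqrt x ^ 2 = x := Real.sq_sqrt (by linarith)
  nlinarith [sq_nonneg (Real.sqrt x - 2)]

/-- the normalised measure on the dyadic interval -/
def mu (T : ℝ) : Measure ℝ :=
  ENNReal.ofReal (1 / T) • volume.restrict (Set.Ioc (T + Real.log T) (2 * T - Real.log T))

lemma mu_int {E : Type*} [NormedAddCommGroup E] [NormedSpace ℝ E] {T : ℝ} (hT : 1 ≤ T) (f : ℝ → E) :
    ∫ t, f t ∂(mu T) = (1 / T) • ∫ t in (T + Real.log T)..(2 * T - Real.log T), f t := by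
  have h := two_log_le hT
  unfold mu
  rw [integral_smul_measure, intervalIntegral.integral_of_le (by linarith),
    ENNReal.toReal_ofReal (by positivity)]

lemma mu_fin (T : ℝ) : IsFiniteMeasure (mu T) := by
  unfold mu
  have : IsFiniteMeasure (volume.restrict (Set.Ioc (T + Real.log T) (2 * T - Real.log T))) := by
    refine ⟨?_⟩
    rw [Measure.restrict_apply MeasurableSet.univ, Set.univ_inter, Real.volume_Ioc]
    exact ENNReal.ofReal_lt_top
  refine ⟨?_⟩
  rw [Measure.smul_apply, smul_eq_mul]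
  exact ENNReal.mul_lt_top ENNReal.ofReal_lt_top (measure_lt_top _ _)

lemma mu_cont {E : Type*} [NormedAddCommGroup E] {f : ℝ → E} (hf : Continuous f) (T : ℝ) :
    Integrable f (mu T) := by
  unfold mu
  refine Integrable.smul_measure ?_ ENNReal.ofReal_ne_top
  exact (hf.integrableOn_Icc).mono_set Set.Ioc_subset_Icc_self

/-- the central limit theorem -/
theorem clt (hT : Tendsto T atTop atTop) (hT1 : ∀ n, 1 ≤ T n) (hP : ∀ n, Pc (c n) (P n) (N n))
    (hN1 : ∀ n, 1 ≤ N n) (hN : ∀ m : ℕ, ∀ᶠ n in atTop, ((N n : ℝ)) ^ m ≤ Real.sqrt (T n))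
    {M : ℕ → ℝ} (hM : Tendsto M atTop (𝓝 0))
    (hcM : ∀ n, ∀ p ∈ P n, ‖c n p‖ ^ 2 ≤ M n) {V : ℝ} (hV0 : 0 < V)
    (hV : Tendsto (fun n => VV (c n) (P n)) atTop (𝓝 V)) :
    Tendsto (fun n => ((1 / T n : ℝ) : ℂ) * ∫ t in (T n + Real.log (T n))..(2 * T n - Real.log (T n)),
      cexp (I * ((-(DP (c n) (N n) t).re : ℝ) : ℂ))) atTop (𝓝 (cexp ((-V / 4 : ℝ) : ℂ))) := by
  have hs0 : 0 < Real.sqrt V := Real.sqrt_pos.2 hV0
  have hsc : ((Real.sqrt V : ℝ) : ℂ) ≠ 0 := by exact_mod_cast hs0.ne'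
  set f : ℕ → ℝ → ℂ := fun n t => DP (c n) (N n) t / (Real.sqrt V : ℂ) with hf
  have hfc : ∀ n, Continuous (f n) := fun n => (DP_cont _ _).div_const _
  have hy : Pool.Agent.Y586.SW.Hy (fun n => mu (T n)) f 1 := by
    refine ⟨zero_le_one, fun n => mu_fin _, fun n => (hfc n).measurable, fun n k => ?_,
      fun k l => ?_⟩
    · exact mu_cont ((hfc n).norm.pow k) _
    · have h1 := moments hT hP hN1 hN hM hcM hV k l
      have h2 := h1.mul_const (((Real.sqrt V : ℝ) : ℂ) ^ (k + l))⁻¹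
      have e2 : (if k = l then (k.factorial : ℂ) * (V : ℂ) ^ k else 0) *
          (((Real.sqrt V : ℝ) : ℂ) ^ (k + l))⁻¹ =
          (if k = l then (k.factorial : ℂ) * ((1 : ℝ) : ℂ) else 0) := by
        by_cases h : k = l
        · rw [if_pos h, if_pos h]
          subst h
          have h3 : ((Real.sqrt V : ℝ) : ℂ) ^ (k + k) = (V : ℂ) ^ k := by
            rw [← two_mul, pow_mul, ← Complex.ofReal_pow, Real.sq_sqrt hV0.le]
          have h4 : (V : ℂ) ≠ 0 := by exact_mod_cast hV0.ne'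
          rw [h3]
          field_simp
          simp
        · rw [if_neg h, if_neg h, zero_mul]
      rw [e2] at h2
      refine h2.congr fun n => ?_
      rw [mu_int (hT1 n), Complex.real_smul, mul_assoc, ← intervalIntegral.integral_mul_const]
      congr 1
      refine intervalIntegral.integral_congr fun t _ => ?_
      simp only [hf]
      rw [map_div₀, Complex.conj_ofReal, div_pow, div_pow, pow_add]
      field_simp
  have h1 := Pool.Agent.Y586.SW.char_lim hy (-(Real.sqrt V / Real.sqrt 2))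
  have e1 : ((1 : ℝ) : ℂ) * cexp ((-((-(Real.sqrt V / Real.sqrt 2)) ^ 2) / 2 : ℝ) : ℂ) =
      cexp ((-V / 4 : ℝ) : ℂ) := by
    rw [Complex.ofReal_one, one_mul]
    congr 2
    rw [neg_sq, div_pow, Real.sq_sqrt hV0.le, Real.sq_sqrt (by norm_num)]
    ring
  rw [e1] at h1
  refine h1.congr fun n => ?_
  rw [mu_int (hT1 n), Complex.real_smul]
  congr 1
  refine intervalIntegral.integral_congr fun t _ => ?_
  simp only [Pool.Agent.Y586.SW.X, hf]
  congr 3
  have e3 : (DP (c n) (N n) t / (Real.sqrt V : ℂ)).re = (DP (c n) (N n) t).re / Real.sqrt V := by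
    rw [Complex.div_ofReal_re]
  rw [e3]
  have h2 : Real.sqrt 2 ≠ 0 := by positivity
  field_simp

end

end Pool.Agent.Q278.MC
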