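import Mathlib

/-!
# Fourier transforms of `f(x) exp(s x²/2)`, uniformly in `0 ≤ s ≤ 1` (helper278)
-/

set_option autoImplicit false

namespace Pool.Agent.Q278.MC

open Filter Topology MeasureTheory Complex
open scoped FourierTransform ContDiff

/-- smooth functions with compact support -/
structure CC (f : ℝ → ℂ) : Prop where
  cd : ContDiff ℝ ∞ f
  cs : HasCompactSupport f

variable {f g : ℝ → ℂ}

lemma CC.cont (h : CC f) : Continuous f := h.cd.continuous

lemma CC.int (h : CC f) : Integrable f := h.cont.integrable_of_hasCompactSupport h.cs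

lemma CC.der (h : CC f) : CC (deriv f) :=
  ⟨(contDiff_infty_iff_deriv.1 h.cd).2, h.cs.deriv⟩

lemma CC.mul (h : CC f) (hg : ContDiff ℝ ∞ g) : CC (fun x => g x * f x) :=
  ⟨hg.mul h.cd, h.cs.mul_left⟩

lemma CC.mulx (h : CC f) : CC (fun x => (x : ℂ) * f x) := h.mul Complex.ofRealCLM.contDiff

/-- multiplication by `exp(s x²/2)` -/
noncomputable def gs (f : ℝ → ℂ) (s x : ℝ) : ℂ := ((Real.exp (s * x ^ 2 / 2) : ℝ) : ℂ) * f x

lemma exp_cd (s : ℝ) : ContDiff ℝ ∞ (fun x : ℝ => ((Real.exp (s * x ^ 2 / 2) : ℝ) : ℂ)) := by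
  refine Complex.ofRealCLM.contDiff.comp (Real.contDiff_exp.comp ?_)
  fun_prop

lemma gs_cc (h : CC f) (s : ℝ) : CC (gs f s) := h.mul (exp_cd s)

lemma gs_hasDeriv (h : CC f) (s x : ℝ) :
    HasDerivAt (gs f s) (gs (deriv f) s x + (s : ℂ) * gs (fun x => (x : ℂ) * f x) s x) x := by
  have h1 : HasDerivAt (fun x : ℝ => Real.exp (s * x ^ 2 / 2))
      (Real.exp (s * x ^ 2 / 2) * (s * x)) x := by
    have h2 : HasDerivAt (fun x : ℝ => s * x ^ 2 / 2) (s * x) x := by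
      have h3 := ((hasDerivAt_pow 2 x).const_mul s).div_const 2
      refine h3.congr_deriv ?_
      push_cast
      ring
    exact h2.exp
  have h4 := h1.ofReal_comp.mul ((h.cd.differentiable (by simp)).differentiableAt.hasDerivAt (x := x))
  refine h4.congr_deriv ?_
  unfold gs
  push_cast
  ring

lemma gs_deriv (h : CC f) (s : ℝ) : deriv (gs f s) =
    fun x => gs (deriv f) s x + (s : ℂ) * gs (fun x => (x : ℂ) * f x) s x := by
  funext x
  exact (gs_hasDeriv h s x).deriv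

/-- uniform bounds for the derivatives -/
theorem gs_bound (n : ℕ) : ∀ f : ℝ → ℂ, CC f → ∃ C : ℝ, 0 ≤ C ∧ ∀ s ∈ Set.Icc (0 : ℝ) 1, ∀ x : ℝ,
    ‖iteratedDeriv n (gs f s) x‖ ≤ C * (1 + x ^ 2)⁻¹ := by
  induction n with
  | zero =>
    intro f h
    have h1 : HasCompactSupport (fun x : ℝ => ((1 + x ^ 2 : ℝ) : ℂ) * gs f 1 x) :=
      (gs_cc h 1).cs.mul_left
    have h2 : Continuous (fun x : ℝ => ((1 + x ^ 2 : ℝ) : ℂ) * gs f 1 x) := by
      refine Continuous.mul (by fun_prop) (gs_cc h 1).cont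
    obtain ⟨C, hC⟩ := h1.exists_bound_of_continuous h2
    have hC0 : 0 ≤ C := (norm_nonneg _).trans (hC 0)
    refine ⟨C, hC0, fun s hs x => ?_⟩
    have h3 := hC x
    have hx : 0 < 1 + x ^ 2 := by positivity
    rw [norm_mul, Complex.norm_real, Real.norm_of_nonneg hx.le] at h3
    rw [iteratedDeriv_zero, ← div_eq_mul_inv, le_div_iff₀ hx, mul_comm]
    refine le_trans ?_ h3
    refine mul_le_mul_of_nonneg_left ?_ hx.le
    unfold gs
    rw [norm_mul, norm_mul, Complex.norm_real, Complex.norm_real,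
      Real.norm_of_nonneg (Real.exp_pos _).le, Real.norm_of_nonneg (Real.exp_pos _).le]
    refine mul_le_mul_of_nonneg_right ?_ (norm_nonneg _)
    apply Real.exp_le_exp.2
    have := mul_le_mul_of_nonneg_right hs.2 (sq_nonneg x)
    linarith
  | succ n ih =>
    intro f h
    obtain ⟨C1, hC1, h1⟩ := ih (deriv f) h.der
    obtain ⟨C2, hC2, h2⟩ := ih (fun x => (x : ℂ) * f x) h.mulx
    refine ⟨C1 + C2, by positivity, fun s hs x => ?_⟩
    have e1 : iteratedDeriv (n + 1) (gs f s) x = iteratedDeriv n (gs (deriv f) s) x +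
        (s : ℂ) * iteratedDeriv n (gs (fun x => (x : ℂ) * f x) s) x := by
      rw [iteratedDeriv_succ', gs_deriv h s]
      have c1 : ContDiffAt ℝ n (gs (deriv f) s) x :=
        ((gs_cc h.der s).cd.of_le (by exact_mod_cast le_top)).contDiffAt
      have c2 : ContDiffAt ℝ n (gs (fun x => (x : ℂ) * f x) s) x :=
        ((gs_cc h.mulx s).cd.of_le (by exact_mod_cast le_top)).contDiffAt
      have c3 : ContDiffAt ℝ n (fun x => (s : ℂ) * gs (fun x => (x : ℂ) * f x) s x) x :=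
        contDiffAt_const.mul c2
      have e2 := iteratedDeriv_add c1 c3
      have e3 := iteratedDeriv_const_mul (s : ℂ) c2
      rw [← e3]
      exact e2
    rw [e1]
    refine (norm_add_le _ _).trans ?_
    rw [norm_mul, Complex.norm_real, Real.norm_of_nonneg hs.1, add_mul]
    refine add_le_add (h1 s hs x) ?_
    exact (mul_le_of_le_one_left (norm_nonneg _) hs.2).trans (h2 s hs x)

lemma norm_fourier_le (g : ℝ → ℂ) (ξ : ℝ) : ‖𝓕 g ξ‖ ≤ ∫ x, ‖g x‖ := by
  rw [Real.fourier_real_eq]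
  refine (norm_integral_le_integral_norm _).trans (le_of_eq ?_)
  congr 1
  funext x
  rw [Circle.norm_smul]

/-- uniform decay of the Fourier transforms -/
theorem gs_decay (h : CC f) : ∃ K : ℝ, 0 < K ∧ ∀ s ∈ Set.Icc (0 : ℝ) 1, ∀ ξ : ℝ,
    ‖𝓕 (gs f s) ξ‖ ≤ K * (1 + ξ ^ 2)⁻¹ ^ 3 := by
  obtain ⟨C0, hC0, h0⟩ := gs_bound 0 f h
  obtain ⟨C6, hC6, h6⟩ := gs_bound 6 f h
  have hint : ∀ n : ℕ, ∀ s : ℝ, Integrable (iteratedDeriv n (gs f s)) := by
    intro n s
    have hcc : ∀ n : ℕ, CC (iteratedDeriv n (gs f s)) := by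
      intro n
      induction n with
      | zero => rw [iteratedDeriv_zero]; exact gs_cc h s
      | succ n ih => rw [iteratedDeriv_succ]; exact ih.der
    exact (hcc n).int
  have hL : ∀ n : ℕ, ∀ C : ℝ, 0 ≤ C → ∀ s : ℝ, (∀ x : ℝ, ‖iteratedDeriv n (gs f s) x‖ ≤
      C * (1 + x ^ 2)⁻¹) → ∫ x, ‖iteratedDeriv n (gs f s) x‖ ≤ C * Real.pi := by
    intro n C hC s hb
    calc ∫ x, ‖iteratedDeriv n (gs f s) x‖ ≤ ∫ x : ℝ, C * (1 + x ^ 2)⁻¹ :=
          integral_mono (hint n s).norm (integrable_inv_one_add_sq.const_mul C) hb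
      _ = C * Real.pi := by rw [integral_const_mul, integral_univ_inv_one_add_sq]
  refine ⟨4 * (C0 * Real.pi + C6 * Real.pi) + 1, by positivity, fun s hs ξ => ?_⟩
  have e0 : ‖𝓕 (gs f s) ξ‖ ≤ C0 * Real.pi := by
    refine (norm_fourier_le _ _).trans ?_
    have := hL 0 C0 hC0 s (h0 s hs)
    rwa [iteratedDeriv_zero] at this
  have e6 : ξ ^ 6 * ‖𝓕 (gs f s) ξ‖ ≤ C6 * Real.pi := by
    have h1 := Real.fourier_iteratedDeriv (N := ⊤) (n := 6) (f := gs f s)
      (by exact_mod_cast (gs_cc h s).cd) (fun n _ => hint n s) (by exact_mod_cast le_top)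
    have h2 := norm_fourier_le (iteratedDeriv 6 (gs f s)) ξ
    rw [h1] at h2
    simp only at h2
    rw [norm_smul, norm_pow] at h2
    have h3 : ‖(2 * Real.pi * I * ξ : ℂ)‖ = 2 * Real.pi * |ξ| := by
      rw [norm_mul, norm_mul, norm_mul, Complex.norm_I, Complex.norm_real, Complex.norm_real,
        Real.norm_eq_abs, Real.norm_eq_abs, abs_of_pos Real.pi_pos]
      norm_num
    rw [h3] at h2
    have h4 : ξ ^ 6 ≤ (2 * Real.pi * |ξ|) ^ 6 := by
      rw [← Even.pow_abs (by decide : Even 6) ξ]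
      apply pow_le_pow_left₀ (abs_nonneg _)
      have := Real.pi_gt_three
      nlinarith [abs_nonneg ξ]
    exact (mul_le_mul_of_nonneg_right h4 (norm_nonneg _)).trans (h2.trans (hL 6 C6 hC6 s (h6 s hs)))
  have hx : 0 < 1 + ξ ^ 2 := by positivity
  rw [inv_pow, ← div_eq_mul_inv, le_div_iff₀ (by positivity)]
  have e1 : (1 + ξ ^ 2) ^ 3 ≤ 4 * (1 + ξ ^ 6) := by
    have h2 : 0 ≤ (ξ ^ 2 - 1) ^ 2 * (1 + ξ ^ 2) := by positivity
    nlinarith [h2]
  calc ‖𝓕 (gs f s) ξ‖ * (1 + ξ ^ 2) ^ 3 ≤ ‖𝓕 (gs f s) ξ‖ * (4 * (1 + ξ ^ 6)) :=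
        mul_le_mul_of_nonneg_left e1 (norm_nonneg _)
    _ = 4 * (‖𝓕 (gs f s) ξ‖ + ξ ^ 6 * ‖𝓕 (gs f s) ξ‖) := by ring
    _ ≤ _ := by linarith

/-- the derivative of the Fourier transform -/
lemma four_deriv (h : CC g) (ξ : ℝ) :
    HasDerivAt (𝓕 g) (𝓕 (fun x : ℝ => (-2 * Real.pi * I * x) * g x) ξ) ξ := by
  have h1 : Integrable (fun x : ℝ => x • g x) := by
    have := h.mulx.int
    refine this.congr (Eventually.of_forall fun x => ?_)
    simp only [Complex.real_smul]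
  exact Real.hasDerivAt_fourier h.int h1 ξ

lemma CC.mulc (h : CC f) : CC (fun x : ℝ => (-2 * Real.pi * I * x) * f x) :=
  h.mul (contDiff_const.mul Complex.ofRealCLM.contDiff)

lemma gs_mulc (f : ℝ → ℂ) (s : ℝ) : (fun x : ℝ => (-2 * Real.pi * I * x) * gs f s x) =
    gs (fun x : ℝ => (-2 * Real.pi * I * x) * f x) s := by
  funext x
  unfold gs
  ring

end Pool.Agent.Q278.MC
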