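import Pool.Agent.Q278.MC.D
import Pool.Agent.Y750.OM.Kern

/-!
# Band-limited approximation of `f(x) exp(s x²/2)` (helper278)
-/

set_option autoImplicit false

namespace Pool.Agent.Q278.MC

open Filter Topology MeasureTheory Complex
open scoped FourierTransform ContDiff

/-- a cut-off with two derivatives, all bounded by `B` -/
structure Cut (c c1 c2 : ℝ → ℂ) (B : ℝ) : Prop where
  h1 : ∀ x, HasDerivAt c (c1 x) x
  h2 : ∀ x, HasDerivAt c1 (c2 x) x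
  cont2 : Continuous c2
  b0 : ∀ x, ‖c x‖ ≤ B
  b1 : ∀ x, ‖c1 x‖ ≤ B
  b2 : ∀ x, ‖c2 x‖ ≤ B

/-- the multiplier `-2πix` -/
noncomputable def mx (f : ℝ → ℂ) (x : ℝ) : ℂ := (-2 * Real.pi * I * x) * f x

lemma CC.mx {f : ℝ → ℂ} (h : CC f) : CC (mx f) := h.mulc

/-- the cut-off transform and its derivatives -/
noncomputable def p0 (c : ℝ → ℂ) (f : ℝ → ℂ) (s W ξ : ℝ) : ℂ := c (ξ / W) * 𝓕 (gs f s) ξ

noncomputable def p1 (c c1 : ℝ → ℂ) (f : ℝ → ℂ) (s W ξ : ℝ) : ℂ :=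
  (c1 (ξ / W) * ((1 / W : ℝ) : ℂ)) * 𝓕 (gs f s) ξ + c (ξ / W) * 𝓕 (gs (mx f) s) ξ

noncomputable def p2 (c c1 c2 : ℝ → ℂ) (f : ℝ → ℂ) (s W ξ : ℝ) : ℂ :=
  (c2 (ξ / W) * ((1 / W : ℝ) : ℂ) * ((1 / W : ℝ) : ℂ)) * 𝓕 (gs f s) ξ +
    2 * ((c1 (ξ / W) * ((1 / W : ℝ) : ℂ)) * 𝓕 (gs (mx f) s) ξ) +
    c (ξ / W) * 𝓕 (gs (mx (mx f)) s) ξ

variable {c c1 c2 : ℝ → ℂ} {B : ℝ} {f : ℝ → ℂ}

lemma comp_div {g g' : ℝ → ℂ} (h : ∀ x, HasDerivAt g (g' x) x) (W ξ : ℝ) :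
    HasDerivAt (fun ξ : ℝ => g (ξ / W)) (g' (ξ / W) * ((1 / W : ℝ) : ℂ)) ξ := by
  have h1 : HasDerivAt (fun ξ : ℝ => ξ / W) (1 / W) ξ := (hasDerivAt_id ξ).div_const W
  have h2 := (h (ξ / W)).scomp ξ h1
  refine h2.congr_deriv ?_
  rw [Complex.real_smul, mul_comm]

lemma four_gs (hf : CC f) (s ξ : ℝ) : HasDerivAt (𝓕 (gs f s)) (𝓕 (gs (mx f) s) ξ) ξ := by
  have h := four_deriv (gs_cc hf s) ξ
  rw [gs_mulc] at h
  exact h

lemma four_cont (hf : CC f) (s : ℝ) : Continuous (𝓕 (gs f s)) :=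
  continuous_iff_continuousAt.2 fun ξ => (four_gs hf s ξ).continuousAt

lemma p0_deriv (hc : Cut c c1 c2 B) (hf : CC f) (s W ξ : ℝ) :
    HasDerivAt (p0 c f s W) (p1 c c1 f s W ξ) ξ :=
  (comp_div hc.h1 W ξ).mul (four_gs hf s ξ)

lemma p1_deriv (hc : Cut c c1 c2 B) (hf : CC f) (s W ξ : ℝ) :
    HasDerivAt (p1 c c1 f s W) (p2 c c1 c2 f s W ξ) ξ := by
  have h1 := (((comp_div hc.h2 W ξ).mul_const ((1 / W : ℝ) : ℂ)).mul (four_gs hf s ξ)).add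
    ((comp_div hc.h1 W ξ).mul (four_gs hf.mx s ξ))
  refine h1.congr_deriv ?_
  unfold p2
  ring

lemma Cut.cont (hc : Cut c c1 c2 B) : Continuous c :=
  continuous_iff_continuousAt.2 fun x => (hc.h1 x).continuousAt

lemma Cut.cont1 (hc : Cut c c1 c2 B) : Continuous c1 :=
  continuous_iff_continuousAt.2 fun x => (hc.h2 x).continuousAt

lemma p2_cont (hc : Cut c c1 c2 B) (hf : CC f) (s W : ℝ) : Continuous (p2 c c1 c2 f s W) := by
  unfold p2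
  have hd : Continuous fun ξ : ℝ => ξ / W := continuous_id.div_const W
  exact ((((hc.cont2.comp hd).mul continuous_const).mul continuous_const).mul (four_cont hf s)).add
    (continuous_const.mul (((hc.cont1.comp hd).mul continuous_const).mul (four_cont hf.mx s))) |>.add
    ((hc.cont.comp hd).mul (four_cont hf.mx.mx s))

lemma p1_cont (hc : Cut c c1 c2 B) (hf : CC f) (s W : ℝ) : Continuous (p1 c c1 f s W) :=
  continuous_iff_continuousAt.2 fun ξ => (p1_deriv hc hf s W ξ).continuousAt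

lemma p0_cont (hc : Cut c c1 c2 B) (hf : CC f) (s W : ℝ) : Continuous (p0 c f s W) :=
  continuous_iff_continuousAt.2 fun ξ => (p0_deriv hc hf s W ξ).continuousAt

/-- the uniform bounds -/
theorem p_bound (hf : CC f) : ∃ K : ℝ, 0 < K ∧ ∀ (c c1 c2 : ℝ → ℂ) (B : ℝ), Cut c c1 c2 B →
    ∀ s ∈ Set.Icc (0 : ℝ) 1, ∀ W : ℝ, 1 ≤ W → ∀ ξ : ℝ,
    ‖p0 c f s W ξ‖ ≤ K * B * (1 + ξ ^ 2)⁻¹ ^ 3 ∧ ‖p1 c c1 f s W ξ‖ ≤ K * B * (1 + ξ ^ 2)⁻¹ ^ 3 ∧
      ‖p2 c c1 c2 f s W ξ‖ ≤ K * B * (1 + ξ ^ 2)⁻¹ ^ 3 := by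
  obtain ⟨K0, hK0, h0⟩ := gs_decay hf
  obtain ⟨K1, hK1, h1⟩ := gs_decay hf.mx
  obtain ⟨K2, hK2, h2⟩ := gs_decay hf.mx.mx
  refine ⟨K0 + 2 * K1 + K2, by positivity, fun c c1 c2 B hc s hs W hW ξ => ?_⟩
  have hB : 0 ≤ B := (norm_nonneg _).trans (hc.b0 0)
  set q : ℝ := (1 + ξ ^ 2)⁻¹ ^ 3 with hq
  have hq0 : 0 ≤ q := by positivity
  have a0 := h0 s hs ξ
  have a1 := h1 s hs ξ
  have a2 := h2 s hs ξ
  rw [← hq] at a0 a1 a2
  have hW0 : 0 < W := by linarith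
  have hW1 : ‖((1 / W : ℝ) : ℂ)‖ ≤ 1 := by
    rw [Complex.norm_real, Real.norm_of_nonneg (by positivity), div_le_one hW0]; exact hW
  have b0 := hc.b0 (ξ / W)
  have b1 : ‖c1 (ξ / W) * ((1 / W : ℝ) : ℂ)‖ ≤ B := by
    rw [norm_mul]
    exact (mul_le_of_le_one_right (norm_nonneg _) hW1).trans (hc.b1 _)
  have b2 : ‖c2 (ξ / W) * ((1 / W : ℝ) : ℂ) * ((1 / W : ℝ) : ℂ)‖ ≤ B := by
    rw [norm_mul, norm_mul]
    exact (mul_le_of_le_one_right (by positivity) hW1).trans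
      ((mul_le_of_le_one_right (norm_nonneg _) hW1).trans (hc.b2 _))
  have m : ∀ {u v : ℂ} {k : ℝ}, ‖u‖ ≤ B → ‖v‖ ≤ k * q → ‖u * v‖ ≤ k * (B * q) := by
    intro u v k hu hv
    rw [norm_mul]
    calc ‖u‖ * ‖v‖ ≤ B * (k * q) := mul_le_mul hu hv (norm_nonneg _) hB
      _ = _ := by ring
  have hBq : 0 ≤ B * q := mul_nonneg hB hq0
  refine ⟨?_, ?_, ?_⟩
  · unfold p0
    refine (m b0 a0).trans ?_
    nlinarith
  · unfold p1
    refine (norm_add_le _ _).trans ((add_le_add (m b1 a0) (m b0 a1)).trans ?_)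
    nlinarith
  · unfold p2
    refine (norm_add_le _ _).trans ((add_le_add (norm_add_le _ _) (m b0 a2)).trans ?_)
    have e : ‖2 * ((c1 (ξ / W) * ((1 / W : ℝ) : ℂ)) * 𝓕 (gs (mx f) s) ξ)‖ ≤ 2 * (K1 * (B * q)) := by
      rw [norm_mul, Complex.norm_ofNat]
      exact mul_le_mul_of_nonneg_left (m b1 a1) (by norm_num)
    have e2 := m b2 a0
    nlinarith

lemma p_supp {S : Set ℝ} (hS0 : ∀ x ∈ S, c x = 0) (hS1 : ∀ x ∈ S, c1 x = 0)
    (hS2 : ∀ x ∈ S, c2 x = 0) (s W ξ : ℝ) (h : ξ / W ∈ S) :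
    p0 c f s W ξ = 0 ∧ p1 c c1 f s W ξ = 0 ∧ p2 c c1 c2 f s W ξ = 0 := by
  unfold p0 p1 p2
  rw [hS0 _ h, hS1 _ h, hS2 _ h]
  simp

/-! ### the cut-off -/

/-- the smooth cut-off -/
noncomputable def chi : ContDiffBump (0 : ℝ) := ⟨1, 2, one_pos, one_lt_two⟩

lemma chi_one {x : ℝ} (h : |x| ≤ 1) : chi x = 1 := by
  apply chi.one_of_mem_closedBall
  rw [Metric.mem_closedBall, Real.dist_eq, sub_zero]
  exact h

lemma chi_zero {x : ℝ} (h : 2 ≤ |x|) : chi x = 0 := by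
  apply chi.zero_of_le_dist
  rw [Real.dist_eq, sub_zero]
  exact h

/-- the complex version -/
noncomputable def ch (x : ℝ) : ℂ := ((chi x : ℝ) : ℂ)

lemma ch_cd : ContDiff ℝ ∞ ch := Complex.ofRealCLM.contDiff.comp chi.contDiff

lemma ch_cc : CC ch := ⟨ch_cd, by
  apply HasCompactSupport.intro (isCompact_Icc (a := (-2 : ℝ)) (b := 2))
  intro x hx
  unfold ch
  rw [chi_zero, Complex.ofReal_zero]
  by_contra h
  push Not at h
  exact hx (abs_le.1 h.le)⟩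

lemma ch_norm (x : ℝ) : ‖ch x‖ ≤ 1 := by
  unfold ch
  rw [Complex.norm_real, Real.norm_of_nonneg chi.nonneg]
  exact chi.le_one

lemma ch_neg (x : ℝ) : ch (-x) = ch x := by
  unfold ch
  rw [chi.neg]

theorem ch_cut : ∃ B : ℝ, 1 ≤ B ∧ Cut ch (deriv ch) (deriv (deriv ch)) B ∧
    Cut (fun x => 1 - ch x) (fun x => -deriv ch x) (fun x => -deriv (deriv ch) x) B := by
  have h0 := ch_cc
  have hb : ∀ {g : ℝ → ℂ}, CC g → ∃ B : ℝ, ∀ x, ‖g x‖ ≤ B := fun hg =>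
    hg.cs.exists_bound_of_continuous hg.cont
  obtain ⟨B1, hB1⟩ := hb h0.der
  obtain ⟨B2, hB2⟩ := hb h0.der.der
  have hB1' : 0 ≤ B1 := (norm_nonneg _).trans (hB1 0)
  have hB2' : 0 ≤ B2 := (norm_nonneg _).trans (hB2 0)
  have d0 : ∀ x, HasDerivAt ch (deriv ch x) x := fun x =>
    (h0.cd.differentiable (by simp)).differentiableAt.hasDerivAt
  have d1 : ∀ x, HasDerivAt (deriv ch) (deriv (deriv ch) x) x := fun x =>
    (h0.der.cd.differentiable (by simp)).differentiableAt.hasDerivAt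
  refine ⟨2 + B1 + B2, by linarith, ⟨d0, d1, h0.der.der.cont, fun x => ?_, fun x => ?_, fun x => ?_⟩,
    ⟨fun x => ?_, fun x => ?_, h0.der.der.cont.neg, fun x => ?_, fun x => ?_, fun x => ?_⟩⟩
  · linarith [ch_norm x]
  · linarith [hB1 x]
  · linarith [hB2 x]
  · exact (d0 x).const_sub 1
  · exact (d1 x).neg
  · have := norm_sub_le (1 : ℂ) (ch x)
    rw [norm_one] at this
    linarith [ch_norm x]
  · rw [norm_neg]; linarith [hB1 x]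
  · rw [norm_neg]; linarith [hB2 x]

lemma ch_deriv_zero {x : ℝ} (h : |x| < 1 ∨ 2 < |x|) : deriv ch x = 0 ∧ deriv (deriv ch) x = 0 := by
  have key : ∀ {g : ℝ → ℂ} {k : ℂ}, (∀ᶠ y in 𝓝 x, g y = k) → ∀ᶠ y in 𝓝 x, deriv g y = 0 := by
    intro g k hg
    have h1 := hg.eventually_nhds
    refine h1.mono fun y hy => ?_
    have h2 : g =ᶠ[𝓝 y] fun _ => k := hy
    rw [h2.deriv_eq, deriv_const]
  have h0 : ∃ k : ℂ, ∀ᶠ y in 𝓝 x, ch y = k := by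
    rcases h with h | h
    · refine ⟨1, ?_⟩
      have : ∀ᶠ y in 𝓝 x, |y| < 1 := (continuous_abs.continuousAt).eventually (gt_mem_nhds h)
      refine this.mono fun y hy => ?_
      unfold ch
      rw [chi_one hy.le, Complex.ofReal_one]
    · refine ⟨0, ?_⟩
      have : ∀ᶠ y in 𝓝 x, 2 < |y| := (continuous_abs.continuousAt).eventually (lt_mem_nhds h)
      refine this.mono fun y hy => ?_
      unfold ch
      rw [chi_zero hy.le, Complex.ofReal_zero]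
  obtain ⟨k, hk⟩ := h0
  have h1 := key hk
  have h2 := key h1
  exact ⟨h1.self_of_nhds, h2.self_of_nhds⟩

end Pool.Agent.Q278.MC
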