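import Pool.Agent.Q278.MC.E

/-!
# The remainder and the effect of the distance from the critical line (helper278)
-/

set_option autoImplicit false

namespace Pool.Agent.Q278.MC

open Filter Topology MeasureTheory Complex
open scoped FourierTransform ContDiff
open Pool.Agent.Y750.OM (cfac cfac1 cfac2 cfac_deriv cfac1_deriv cfac2_cont cfac_bound cfac1_bound
  cfac2_bound decay)

variable {f : ℝ → ℂ}

lemma ft_eq (g : ℝ → ℂ) (x : ℝ) :
    ∫ ξ : ℝ, g ξ * cexp (I * ((ξ * (2 * Real.pi * x) : ℝ) : ℂ)) = 𝓕 g (-x) := by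
  rw [Real.fourier_real_eq_integral_exp_smul]
  congr 1
  funext ξ
  rw [smul_eq_mul, mul_comm]
  congr 2
  push_cast
  ring

lemma four2 {H H1 H2 : ℝ → ℂ} (h1 : ∀ x, HasDerivAt H (H1 x) x) (h2 : ∀ x, HasDerivAt H1 (H2 x) x)
    (i0 : Integrable H) (i1 : Integrable H1) (i2 : Integrable H2) (x : ℝ) :
    x ^ 2 * ‖𝓕 H x‖ ≤ ∫ ξ, ‖H2 ξ‖ := by
  have d1 : deriv H = H1 := funext fun x => (h1 x).deriv
  have d2 : deriv H1 = H2 := funext fun x => (h2 x).deriv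
  have e1 := Real.fourier_deriv i0 (fun x => (h1 x).differentiableAt) (by rw [d1]; exact i1)
  have e2 := Real.fourier_deriv i1 (fun x => (h2 x).differentiableAt) (by rw [d2]; exact i2)
  rw [d1] at e1
  rw [d2, e1] at e2
  have h3 := norm_fourier_le H2 x
  rw [e2] at h3
  simp only [norm_smul] at h3
  have h4 : ‖(2 * Real.pi * I * x : ℂ)‖ = 2 * Real.pi * |x| := by
    rw [norm_mul, norm_mul, norm_mul, Complex.norm_I, Complex.norm_real, Complex.norm_real,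
      Real.norm_eq_abs, Real.norm_eq_abs, abs_of_pos Real.pi_pos]
    norm_num
  rw [h4, ← mul_assoc] at h3
  have h5 : x ^ 2 ≤ 2 * Real.pi * |x| * (2 * Real.pi * |x|) := by
    have h6 : |x| ≤ 2 * Real.pi * |x| := by
      have := Real.pi_gt_three
      nlinarith [abs_nonneg x]
    calc x ^ 2 = |x| * |x| := by rw [← sq, sq_abs]
      _ ≤ _ := mul_le_mul h6 h6 (abs_nonneg _) (by positivity)
  exact (mul_le_mul_of_nonneg_right h5 (norm_nonneg _)).trans h3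

lemma inv_cube_int : Integrable (fun x : ℝ => (1 + x ^ 2)⁻¹ ^ 3) := by
  refine integrable_inv_one_add_sq.mono' (by fun_prop) (Eventually.of_forall fun x => ?_)
  have h0 : 0 ≤ (1 + x ^ 2)⁻¹ := by positivity
  have h1 : (1 + x ^ 2)⁻¹ ≤ 1 := inv_le_one_of_one_le₀ (by nlinarith [sq_nonneg x])
  rw [Real.norm_of_nonneg (by positivity)]
  calc (1 + x ^ 2)⁻¹ ^ 3 = (1 + x ^ 2)⁻¹ * (1 + x ^ 2)⁻¹ ^ 2 := by ring
    _ ≤ (1 + x ^ 2)⁻¹ * 1 := mul_le_mul_of_nonneg_left (pow_le_one₀ h0 h1) h0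
    _ = _ := mul_one _

lemma gs_four_int (hf : CC f) {s : ℝ} (hs : s ∈ Set.Icc (0 : ℝ) 1) : Integrable (𝓕 (gs f s)) := by
  obtain ⟨K, _, h⟩ := gs_decay hf
  exact (inv_cube_int.const_mul K).mono' (four_cont hf s).aestronglyMeasurable
    (Eventually.of_forall (h s hs))

/-- the remainder of the band-limited approximation -/
theorem rem_bound (hf : CC f) : ∃ K : ℝ, 0 < K ∧ ∀ s ∈ Set.Icc (0 : ℝ) 1, ∀ W : ℝ, 1 ≤ W →
    ∀ x : ℝ, ‖gs f s x - ∫ ξ : ℝ, p0 ch f s W ξ * cexp (I * ((ξ * (2 * Real.pi * x) : ℝ) : ℂ))‖ ≤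
      K * W⁻¹ ^ 4 * (1 + x ^ 2)⁻¹ := by
  obtain ⟨K, hK, hb⟩ := p_bound hf
  obtain ⟨B, hB, hc1, hc2⟩ := ch_cut
  refine ⟨2 * (K * B * Real.pi), by positivity, fun s hs W hW x => ?_⟩
  have hW0 : 0 < W := by linarith
  set c : ℝ → ℂ := fun x => 1 - ch x with hc
  set d1 : ℝ → ℂ := fun x => -deriv ch x with hd1
  set d2 : ℝ → ℂ := fun x => -deriv (deriv ch) x with hd2
  have hB0 : 0 ≤ K * B := by positivity
  -- pointwise bounds
  have hpt : ∀ ξ : ℝ, ∀ u : ℂ, ‖u‖ ≤ K * B * (1 + ξ ^ 2)⁻¹ ^ 3 → (|ξ / W| < 1 → u = 0) →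
      ‖u‖ ≤ K * B * W⁻¹ ^ 4 * (1 + ξ ^ 2)⁻¹ := by
    intro ξ u h1 h2
    by_cases h : |ξ / W| < 1
    · rw [h2 h, norm_zero]; positivity
    · push Not at h
      refine h1.trans ?_
      rw [abs_div, abs_of_pos hW0, one_le_div hW0] at h
      have h3 : W ^ 2 ≤ 1 + ξ ^ 2 := by
        have : W ^ 2 ≤ |ξ| ^ 2 := pow_le_pow_left₀ hW0.le h 2
        rw [sq_abs] at this
        linarith
      have h4 : (1 + ξ ^ 2)⁻¹ ≤ (W ^ 2)⁻¹ := inv_anti₀ (by positivity) h3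
      have h5 : (1 + ξ ^ 2)⁻¹ ^ 2 ≤ W⁻¹ ^ 4 := by
        calc (1 + ξ ^ 2)⁻¹ ^ 2 ≤ (W ^ 2)⁻¹ ^ 2 := pow_le_pow_left₀ (by positivity) h4 2
          _ = W⁻¹ ^ 4 := by rw [← inv_pow, ← pow_mul]
      calc K * B * (1 + ξ ^ 2)⁻¹ ^ 3 = K * B * (1 + ξ ^ 2)⁻¹ ^ 2 * (1 + ξ ^ 2)⁻¹ := by ring
        _ ≤ K * B * W⁻¹ ^ 4 * (1 + ξ ^ 2)⁻¹ := by gcongr
  have hz : ∀ ξ : ℝ, |ξ / W| < 1 → p0 c f s W ξ = 0 ∧ p1 c d1 f s W ξ = 0 ∧ p2 c d1 d2 f s W ξ = 0 := by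
    intro ξ h
    refine p_supp (S := {y : ℝ | |y| < 1}) (fun y hy => ?_) (fun y hy => ?_) (fun y hy => ?_) s W ξ h
    · simp only [hc, ch]
      rw [chi_one (le_of_lt hy), Complex.ofReal_one, sub_self]
    · simp only [hd1]
      rw [(ch_deriv_zero (Or.inl hy)).1, neg_zero]
    · simp only [hd2]
      rw [(ch_deriv_zero (Or.inl hy)).2, neg_zero]
  have hbb := hb c d1 d2 B hc2 s hs W hW
  have b0 : ∀ ξ, ‖p0 c f s W ξ‖ ≤ K * B * W⁻¹ ^ 4 * (1 + ξ ^ 2)⁻¹ := fun ξ =>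
    hpt ξ _ (hbb ξ).1 fun h => (hz ξ h).1
  have b1 : ∀ ξ, ‖p1 c d1 f s W ξ‖ ≤ K * B * W⁻¹ ^ 4 * (1 + ξ ^ 2)⁻¹ := fun ξ =>
    hpt ξ _ (hbb ξ).2.1 fun h => (hz ξ h).2.1
  have b2 : ∀ ξ, ‖p2 c d1 d2 f s W ξ‖ ≤ K * B * W⁻¹ ^ 4 * (1 + ξ ^ 2)⁻¹ := fun ξ =>
    hpt ξ _ (hbb ξ).2.2 fun h => (hz ξ h).2.2
  have hgi : Integrable (fun ξ : ℝ => K * B * W⁻¹ ^ 4 * (1 + ξ ^ 2)⁻¹) :=
    integrable_inv_one_add_sq.const_mul _
  have hgI : ∫ ξ : ℝ, K * B * W⁻¹ ^ 4 * (1 + ξ ^ 2)⁻¹ = K * B * Real.pi * W⁻¹ ^ 4 := by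
    rw [integral_const_mul, integral_univ_inv_one_add_sq]; ring
  have i0 : Integrable (p0 c f s W) := hgi.mono' (p0_cont hc2 hf s W).aestronglyMeasurable
    (Eventually.of_forall b0)
  have i1 : Integrable (p1 c d1 f s W) := hgi.mono' (p1_cont hc2 hf s W).aestronglyMeasurable
    (Eventually.of_forall b1)
  have i2 : Integrable (p2 c d1 d2 f s W) := hgi.mono' (p2_cont hc2 hf s W).aestronglyMeasurable
    (Eventually.of_forall b2)
  have I0 : ∫ ξ, ‖p0 c f s W ξ‖ ≤ K * B * Real.pi * W⁻¹ ^ 4 := by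
    rw [← hgI]; exact integral_mono i0.norm hgi b0
  have I2 : ∫ ξ, ‖p2 c d1 d2 f s W ξ‖ ≤ K * B * Real.pi * W⁻¹ ^ 4 := by
    rw [← hgI]; exact integral_mono i2.norm hgi b2
  have e0 := (norm_fourier_le (p0 c f s W) (-x)).trans I0
  have e2 := (four2 (p0_deriv hc2 hf s W) (p1_deriv hc2 hf s W) i0 i1 i2 (-x)).trans I2
  rw [neg_sq] at e2
  -- the difference
  have hinv : gs f s x = ∫ ξ : ℝ, 𝓕 (gs f s) ξ * cexp (I * ((ξ * (2 * Real.pi * x) : ℝ) : ℂ)) := by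
    rw [ft_eq]
    have h1 := Continuous.fourierInv_fourier_eq (gs_cc hf s).cont (gs_cc hf s).int (gs_four_int hf hs)
    have h2 := congrFun h1 x
    rw [Real.fourierInv_eq_fourier_neg] at h2
    exact h2.symm
  have hec : Continuous fun ξ : ℝ => cexp (I * ((ξ * (2 * Real.pi * x) : ℝ) : ℂ)) := by fun_prop
  have hen : ∀ ξ : ℝ, ‖cexp (I * ((ξ * (2 * Real.pi * x) : ℝ) : ℂ))‖ = 1 := by
    intro ξ
    rw [mul_comm, Complex.norm_exp_ofReal_mul_I]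
  have im : ∀ {g : ℝ → ℂ}, Integrable g → Continuous g →
      Integrable (fun ξ : ℝ => g ξ * cexp (I * ((ξ * (2 * Real.pi * x) : ℝ) : ℂ))) := by
    intro g hg hgc
    refine hg.norm.mono' (hgc.mul hec).aestronglyMeasurable (Eventually.of_forall fun ξ => ?_)
    rw [norm_mul, hen, mul_one]
  have hfi := gs_four_int hf hs
  have ip : Integrable (p0 ch f s W) := by
    have hK' := (hb ch (deriv ch) (deriv (deriv ch)) B hc1 s hs W hW)
    exact (inv_cube_int.const_mul (K * B)).mono' (p0_cont hc1 hf s W).aestronglyMeasurable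
      (Eventually.of_forall fun ξ => (hK' ξ).1)
  have hdiff : gs f s x - ∫ ξ : ℝ, p0 ch f s W ξ * cexp (I * ((ξ * (2 * Real.pi * x) : ℝ) : ℂ)) =
      𝓕 (p0 c f s W) (-x) := by
    rw [hinv, ← integral_sub (im hfi (four_cont hf s)) (im ip (p0_cont hc1 hf s W)), ← ft_eq]
    congr 1
    funext ξ
    simp only [p0, hc]
    ring
  rw [hdiff]
  have hx : 0 < 1 + x ^ 2 := by positivity
  rw [← div_eq_mul_inv, le_div_iff₀ hx]
  nlinarith [e0, e2]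

/-- the effect of the distance from the line -/
theorem shift_bound (hf : CC f) : ∃ K : ℝ, 0 < K ∧ ∀ s ∈ Set.Icc (0 : ℝ) 1, ∀ W : ℝ, 1 ≤ W →
    ∀ L : ℝ, 1 ≤ L → ∀ y x X : ℝ, |y| ≤ 1 / 2 →
    ‖∫ ξ : ℝ, (p0 ch f s W ξ * cfac y x L ξ) * cexp (I * ((ξ * X : ℝ) : ℂ))‖ * (1 + X ^ 2) ≤
      K * W * ((y * L) ^ 2 * (1 + x ^ 2) * Real.exp (2 * W * |y * L|)) := by
  obtain ⟨K, hK, hb⟩ := p_bound hf
  obtain ⟨B, hB, hc, -⟩ := ch_cut
  refine ⟨2 * 2 * (K * B + 11 * (K * B)), by positivity, fun s hs W hW L hL y x X hy => ?_⟩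
  have hW0 : 0 < W := by linarith
  have hL0 : 0 < L := by linarith
  have hbb := hb ch (deriv ch) (deriv (deriv ch)) B hc s hs W hW
  set E : ℝ := (y * L) ^ 2 * (1 + x ^ 2) * Real.exp (2 * W * |y * L|) with hE
  have hE0 : 0 ≤ E := by positivity
  have hKB : 0 ≤ K * B := by positivity
  have hz : ∀ ξ : ℝ, 2 * W < |ξ| → p0 ch f s W ξ = 0 ∧ p1 ch (deriv ch) f s W ξ = 0 ∧
      p2 ch (deriv ch) (deriv (deriv ch)) f s W ξ = 0 := by
    intro ξ h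
    have h1 : ξ / W ∈ {y : ℝ | 2 < |y|} := by
      show 2 < |ξ / W|
      rw [abs_div, abs_of_pos hW0, lt_div_iff₀ hW0]
      exact h
    refine p_supp (S := {y : ℝ | 2 < |y|}) (fun y hy => ?_) (fun y hy => ?_) (fun y hy => ?_) s W ξ h1
    · unfold ch
      rw [chi_zero (le_of_lt hy), Complex.ofReal_zero]
    · exact (ch_deriv_zero (Or.inr hy)).1
    · exact (ch_deriv_zero (Or.inr hy)).2
  -- bounds for the factor
  have hexp : ∀ ξ : ℝ, |ξ| ≤ 2 * W → (y * L) ^ 2 * (1 + x ^ 2) * Real.exp (|ξ| * |y * L|) ≤ E := by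
    intro ξ h
    apply mul_le_mul_of_nonneg_left _ (by positivity)
    exact Real.exp_le_exp.2 (mul_le_mul_of_nonneg_right h (abs_nonneg _))
  have f0 : ∀ ξ : ℝ, |ξ| ≤ 2 * W → ‖cfac y x L ξ‖ ≤ (1 + ξ ^ 2) * E := by
    intro ξ h
    have h1 := cfac_bound (x := x) (δ := 1) hy hL0 one_pos (by rwa [one_mul]) (le_refl |ξ|)
    rw [one_pow, sq_abs] at h1
    exact h1.trans (mul_le_mul_of_nonneg_left (hexp ξ h) (by positivity))
  have f1 : ∀ ξ : ℝ, |ξ| ≤ 2 * W → ‖cfac1 y x L ξ‖ ≤ 4 * (1 + ξ ^ 2) * E := by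
    intro ξ h
    have h1 := cfac1_bound (x := x) (δ := 1) hy hL0 one_pos (by rwa [one_mul]) (le_refl |ξ|)
    refine h1.trans (mul_le_mul ?_ (hexp ξ h) (by positivity) (by positivity))
    have := sq_abs ξ
    nlinarith [sq_nonneg (|ξ| - 1), abs_nonneg ξ]
  have f2 : ∀ ξ : ℝ, |ξ| ≤ 2 * W → ‖cfac2 y x L ξ‖ ≤ 2 * (1 + ξ ^ 2) * E := by
    intro ξ h
    have h1 := cfac2_bound (x := x) hy hL0 (le_refl |ξ|)
    refine h1.trans ?_
    have h2 := hexp ξ h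
    nlinarith [sq_nonneg ξ, mul_nonneg (sq_nonneg ξ) hE0]
  have pr : ∀ (ξ : ℝ) (u v : ℂ) (k : ℝ), 0 ≤ k → ‖u‖ ≤ K * B * (1 + ξ ^ 2)⁻¹ ^ 3 →
      ‖v‖ ≤ k * (1 + ξ ^ 2) * E → ‖u * v‖ ≤ k * (K * B * E) := by
    intro ξ u v k hk hu hv
    rw [norm_mul]
    have hx : 0 < 1 + ξ ^ 2 := by positivity
    have h1 : (1 + ξ ^ 2)⁻¹ ^ 2 ≤ 1 := by
      apply pow_le_one₀ (by positivity)
      exact inv_le_one_of_one_le₀ (by nlinarith [sq_nonneg ξ])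
    calc ‖u‖ * ‖v‖ ≤ (K * B * (1 + ξ ^ 2)⁻¹ ^ 3) * (k * (1 + ξ ^ 2) * E) :=
          mul_le_mul hu hv (norm_nonneg _) (by positivity)
      _ = k * (K * B * E) * (1 + ξ ^ 2)⁻¹ ^ 2 := by field_simp
      _ ≤ k * (K * B * E) * 1 := mul_le_mul_of_nonneg_left h1 (by positivity)
      _ = _ := mul_one _
  have hP0 := p0_deriv hc hf s W
  have hP1 := p1_deriv hc hf s W
  have h := decay (k := fun ξ => p0 ch f s W ξ * cfac y x L ξ)
    (k1 := fun ξ => p1 ch (deriv ch) f s W ξ * cfac y x L ξ + p0 ch f s W ξ * cfac1 y x L ξ)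
    (k2 := fun ξ => (p2 ch (deriv ch) (deriv (deriv ch)) f s W ξ * cfac y x L ξ +
      p1 ch (deriv ch) f s W ξ * cfac1 y x L ξ) +
      (p1 ch (deriv ch) f s W ξ * cfac1 y x L ξ + p0 ch f s W ξ * cfac2 y x L ξ))
    (fun ξ => (hP0 ξ).mul (cfac_deriv y x L ξ))
    (fun ξ => ((hP1 ξ).mul (cfac_deriv y x L ξ)).add ((hP0 ξ).mul (cfac1_deriv y x L ξ)))
    (by
      have k0 : Continuous (cfac y x L) :=
        continuous_iff_continuousAt.2 fun ξ => (cfac_deriv y x L ξ).continuousAt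
      have k1 : Continuous (cfac1 y x L) :=
        continuous_iff_continuousAt.2 fun ξ => (cfac1_deriv y x L ξ).continuousAt
      exact (((p2_cont hc hf s W).mul k0).add ((p1_cont hc hf s W).mul k1)).add
        (((p1_cont hc hf s W).mul k1).add ((p0_cont hc hf s W).mul (cfac2_cont y x L))))
    (M := 2 * W) (B0 := K * B * E) (B2 := 11 * (K * B * E)) (δ := 1) (by positivity)
    (fun ξ h => by rw [(hz ξ h).1, zero_mul])
    (fun ξ h => by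
      rw [(hz ξ h).1, (hz ξ h).2.1, (hz ξ h).2.2]
      simp)
    (fun ξ h => by
      have := pr ξ _ _ 1 zero_le_one (hbb ξ).1 (by rw [one_mul]; exact f0 ξ h)
      rwa [one_mul] at this)
    (fun ξ h => by
      have g1 := pr ξ _ _ 1 zero_le_one (hbb ξ).2.2 (by rw [one_mul]; exact f0 ξ h)
      have g2 := pr ξ _ _ 4 (by norm_num) (hbb ξ).2.1 (f1 ξ h)
      have g3 := pr ξ _ _ 2 (by norm_num) (hbb ξ).1 (f2 ξ h)
      refine (norm_add_le _ _).trans ((add_le_add (norm_add_le _ _) (norm_add_le _ _)).trans ?_)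
      linarith) X
  rw [one_mul, one_pow, one_mul] at h
  refine h.trans (le_of_eq ?_)
  ring

end Pool.Agent.Q278.MC
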