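import Pool.Agent.Q278.MC.F
import Pool.Agent.Y750.OM.GSum
import Pool.Agent.Y750.OM.Dens

/-!
# The zero side (helper278)
-/

set_option autoImplicit false

namespace Pool.Agent.Q278.MC

open Filter Topology MeasureTheory Complex
open scoped FourierTransform ContDiff
open Pool.Agent.Y750.OM (cfac AA_split GG DD expm)
open Pool.Agent.TH850.UR (ew)
open H370 (Zf mult mem_Zf good_zeta zset AA)

variable {f : ℝ → ℂ}

/-- the multiplicity -/
noncomputable def mz (s : ℂ) : ℝ := (mult riemannZeta s : ℝ)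

lemma mz_nonneg (s : ℂ) : 0 ≤ mz s := Nat.cast_nonneg _

/-- the smooth sum over the zeros -/
noncomputable def Sz (f : ℝ → ℂ) (S : Finset ℂ) (a t : ℝ) : ℂ :=
  ∑ s ∈ S, (mz s : ℂ) * f (a * (s.im - t))

/-- the band-limited sum over the zeros -/
noncomputable def Ps (f : ℝ → ℂ) (W a A B t : ℝ) : ℂ :=
  ∫ ξ : ℝ, p0 ch f ((1 / a) ^ 2) W ξ * (cexp (-(I * ((ξ * (2 * Real.pi * a) * t : ℝ) : ℂ))) *
    AA riemannZeta A B (ξ * (2 * Real.pi * a)) t)

lemma p0_int (hf : CC f) {s : ℝ} (hs : s ∈ Set.Icc (0 : ℝ) 1) {W : ℝ} (hW : 1 ≤ W) :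
    Integrable (p0 ch f s W) := by
  obtain ⟨K, hK, hb⟩ := p_bound hf
  obtain ⟨B, hB, hc, -⟩ := ch_cut
  have hK' := hb ch (deriv ch) (deriv (deriv ch)) B hc s hs W hW
  exact (inv_cube_int.const_mul (K * B)).mono' (p0_cont hc hf s W).aestronglyMeasurable
    (Eventually.of_forall fun ξ => (hK' ξ).1)

lemma p0_cs (hf : CC f) {s W : ℝ} (hW : 1 ≤ W) : HasCompactSupport (p0 ch f s W) ∧
    Continuous (p0 ch f s W) := by
  obtain ⟨B, hB, hc, -⟩ := ch_cut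
  refine ⟨?_, p0_cont hc hf s W⟩
  apply HasCompactSupport.intro (isCompact_Icc (a := -(2 * W)) (b := 2 * W))
  intro x hx
  have hW0 : 0 < W := by linarith
  unfold p0 ch
  rw [chi_zero, Complex.ofReal_zero, zero_mul]
  rw [abs_div, abs_of_pos hW0, le_div_iff₀ hW0]
  by_contra h
  push Not at h
  exact hx (abs_le.1 h.le)

/-- the comparison of the two sums -/
theorem zero_split (hf : CC f) {a W A B t : ℝ} (ha : 1 ≤ a) (hW : 1 ≤ W) (hA : 1 ≤ A) :
    Sz f (Zf riemannZeta A B) a t - Ps f W a A B t =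
      ∑ s ∈ Zf riemannZeta A B, (mz s : ℂ) * ((Real.exp (-(s.im - t) ^ 2 / 2) : ℂ) *
        (gs f ((1 / a) ^ 2) (a * (s.im - t)) - ∫ ξ : ℝ, p0 ch f ((1 / a) ^ 2) W ξ *
          cexp (I * ((ξ * (2 * Real.pi * (a * (s.im - t))) : ℝ) : ℂ)))) -
      ∑ s ∈ Zf riemannZeta A B, (mz s : ℂ) * ((Real.exp (-(s.im - t) ^ 2 / 2) : ℂ) *
        ∫ ξ : ℝ, (p0 ch f ((1 / a) ^ 2) W ξ * cfac (s.re - 1 / 2) (s.im - t) (2 * Real.pi * a) ξ) *
          cexp (I * ((ξ * (2 * Real.pi * (a * (s.im - t))) : ℝ) : ℂ))) := by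
  have ha0 : 0 < a := by linarith
  set σ : ℝ := (1 / a) ^ 2 with hσ
  obtain ⟨hcs, hcont⟩ := p0_cs hf (s := σ) hW
  set p := p0 ch f σ W with hp
  have e1 : ∀ ξ : ℝ, p ξ * (cexp (-(I * ((ξ * (2 * Real.pi * a) * t : ℝ) : ℂ))) *
      AA riemannZeta A B (ξ * (2 * Real.pi * a)) t) =
      ∑ s ∈ Zf riemannZeta A B, ((mz s : ℂ) * ((Real.exp (-(s.im - t) ^ 2 / 2) : ℂ) *
        (p ξ * cexp (I * ((ξ * (2 * Real.pi * (a * (s.im - t))) : ℝ) : ℂ)))) +
        (mz s : ℂ) * ((Real.exp (-(s.im - t) ^ 2 / 2) : ℂ) *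
          ((p ξ * cfac (s.re - 1 / 2) (s.im - t) (2 * Real.pi * a) ξ) *
            cexp (I * ((ξ * (2 * Real.pi * (a * (s.im - t))) : ℝ) : ℂ))))) := by
    intro ξ
    rw [AA_split hA]
    unfold GG DD
    rw [← Finset.sum_add_distrib, Finset.mul_sum, Finset.mul_sum]
    refine Finset.sum_congr rfl fun s _ => ?_
    have f1 : cexp (I * ((ξ * (2 * Real.pi * (a * (s.im - t))) : ℝ) : ℂ)) =
        cexp (-(I * ((ξ * (2 * Real.pi * a) * t : ℝ) : ℂ))) *
          cexp (I * ((ξ * (2 * Real.pi * a) : ℝ) : ℂ) * (s.im : ℂ)) := by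
      rw [← Complex.exp_add]; congr 1; push_cast; ring
    have f2 : cexp (I * ((ξ * (2 * Real.pi * a * s.im) : ℝ) : ℂ)) =
        cexp (I * ((ξ * (2 * Real.pi * a) : ℝ) : ℂ) * (s.im : ℂ)) := by
      congr 1; push_cast; ring
    have f3 : cexp (-((s.im : ℂ) - t) ^ 2 / 2) = ((Real.exp (-(s.im - t) ^ 2 / 2) : ℝ) : ℂ) := by
      push_cast; rfl
    rw [f1, f2, f3]
    unfold mz
    ring
  have hk0 : ∀ s : ℂ, Continuous fun ξ : ℝ => cfac (s.re - 1 / 2) (s.im - t) (2 * Real.pi * a) ξ := by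
    intro s
    unfold cfac
    fun_prop
  have i1 : ∀ s : ℂ, Integrable fun ξ : ℝ => p ξ *
      cexp (I * ((ξ * (2 * Real.pi * (a * (s.im - t))) : ℝ) : ℂ)) := fun s =>
    (hcont.mul (by fun_prop)).integrable_of_hasCompactSupport hcs.mul_right
  have i2 : ∀ s : ℂ, Integrable fun ξ : ℝ =>
      (p ξ * cfac (s.re - 1 / 2) (s.im - t) (2 * Real.pi * a) ξ) *
      cexp (I * ((ξ * (2 * Real.pi * (a * (s.im - t))) : ℝ) : ℂ)) := fun s =>
    ((hcont.mul (hk0 s)).mul (by fun_prop)).integrable_of_hasCompactSupport hcs.mul_right.mul_right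
  have e2 : Ps f W a A B t = ∑ s ∈ Zf riemannZeta A B,
      ((mz s : ℂ) * ((Real.exp (-(s.im - t) ^ 2 / 2) : ℂ) *
        ∫ ξ : ℝ, (p ξ * cexp (I * ((ξ * (2 * Real.pi * (a * (s.im - t))) : ℝ) : ℂ)))) +
        (mz s : ℂ) * ((Real.exp (-(s.im - t) ^ 2 / 2) : ℂ) *
          ∫ ξ : ℝ, ((p ξ * cfac (s.re - 1 / 2) (s.im - t) (2 * Real.pi * a) ξ) *
            cexp (I * ((ξ * (2 * Real.pi * (a * (s.im - t))) : ℝ) : ℂ))))) := by
    unfold Ps
    rw [← hσ, ← hp]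
    simp_rw [e1]
    rw [integral_finsetSum]
    swap
    · intro s _
      exact (((i1 s).const_mul _).const_mul _).add (((i2 s).const_mul _).const_mul _)
    refine Finset.sum_congr rfl fun s _ => ?_
    rw [integral_add (((i1 s).const_mul _).const_mul _) (((i2 s).const_mul _).const_mul _),
      integral_const_mul, integral_const_mul, integral_const_mul, integral_const_mul]
  rw [e2]
  unfold Sz
  rw [← Finset.sum_sub_distrib, ← Finset.sum_sub_distrib]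
  refine Finset.sum_congr rfl fun s _ => ?_
  have e3 : f (a * (s.im - t)) = ((Real.exp (-(s.im - t) ^ 2 / 2) : ℝ) : ℂ) *
      gs f σ (a * (s.im - t)) := by
    unfold gs
    rw [← mul_assoc, ← Complex.ofReal_mul, ← Real.exp_add]
    have : -(s.im - t) ^ 2 / 2 + σ * (a * (s.im - t)) ^ 2 / 2 = 0 := by
      rw [hσ]
      field_simp
      ring
    rw [this, Real.exp_zero, Complex.ofReal_one, one_mul]
  rw [e3]
  ring

lemma exp_sq_le (x : ℝ) : Real.exp (-x ^ 2 / 2) * (1 + x ^ 2) ≤ 2 := by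
  have h1 := Real.add_one_le_exp (x ^ 2 / 2)
  have h2 : Real.exp (-x ^ 2 / 2) * Real.exp (x ^ 2 / 2) = 1 := by
    rw [← Real.exp_add, show -x ^ 2 / 2 + x ^ 2 / 2 = 0 by ring, Real.exp_zero]
  have h3 : 0 < Real.exp (-x ^ 2 / 2) := Real.exp_pos _
  nlinarith [mul_le_mul_of_nonneg_left h1 h3.le]

/-- the pointwise bound -/
theorem zero_pt (hf : CC f) : ∃ K : ℝ, 0 < K ∧ ∀ a W A B t : ℝ, 1 ≤ a → 1 ≤ W → 1 ≤ A →
    ‖Sz f (Zf riemannZeta A B) a t - Ps f W a A B t‖ ≤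
      ∑ s ∈ Zf riemannZeta A B, mz s * (K * (W⁻¹ ^ 4 + W * (((s.re - 1 / 2) * (2 * Real.pi * a)) ^ 2 *
        Real.exp (2 * W * |(s.re - 1 / 2) * (2 * Real.pi * a)|)))) * (1 + (a * (s.im - t)) ^ 2)⁻¹ := by
  obtain ⟨K1, hK1, h1⟩ := rem_bound hf
  obtain ⟨K2, hK2, h2⟩ := shift_bound hf
  refine ⟨K1 + 2 * K2, by positivity, fun a W A B t ha hW hA => ?_⟩
  have ha0 : 0 < a := by linarith
  have hW0 : 0 < W := by linarith
  have hσ : (1 / a) ^ 2 ∈ Set.Icc (0 : ℝ) 1 := by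
    refine ⟨by positivity, pow_le_one₀ (by positivity) ?_⟩
    rw [div_le_one ha0]; exact ha
  rw [zero_split hf ha hW hA]
  refine (norm_sub_le _ _).trans ((add_le_add (norm_sum_le _ _) (norm_sum_le _ _)).trans ?_)
  rw [← Finset.sum_add_distrib]
  refine Finset.sum_le_sum fun s hs => ?_
  rw [mem_Zf good_zeta hA] at hs
  obtain ⟨g1, g2, -, -, -⟩ := hs
  have hy : |s.re - 1 / 2| ≤ 1 / 2 := by rw [abs_le]; constructor <;> linarith
  set x : ℝ := s.im - t with hx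
  set Y : ℝ := (s.re - 1 / 2) * (2 * Real.pi * a) with hY
  have hm := mz_nonneg s
  have hE0 : 0 < Real.exp (-x ^ 2 / 2) := Real.exp_pos _
  have hE1 : Real.exp (-x ^ 2 / 2) ≤ 1 := Real.exp_le_one_iff.2 (by nlinarith [sq_nonneg x])
  have hE2 := exp_sq_le x
  have hv : 0 < 1 + (a * x) ^ 2 := by positivity
  have hQ : 0 ≤ Y ^ 2 * Real.exp (2 * W * |Y|) := by positivity
  rw [norm_mul, norm_mul, norm_mul, norm_mul, Complex.norm_real, Complex.norm_real,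
    Real.norm_of_nonneg hm, Real.norm_of_nonneg hE0.le]
  have b1 := h1 _ hσ W hW (a * x)
  have hL1 : 1 ≤ 2 * Real.pi * a := by
    have := Real.pi_gt_three
    nlinarith
  have b2 := h2 _ hσ W hW (2 * Real.pi * a) hL1 (s.re - 1 / 2) x (2 * Real.pi * (a * x)) hy
  rw [← hY] at b2
  set N1 := ‖gs f ((1 / a) ^ 2) (a * x) - ∫ ξ : ℝ, p0 ch f ((1 / a) ^ 2) W ξ *
          cexp (I * ((ξ * (2 * Real.pi * (a * x)) : ℝ) : ℂ))‖ with hN1
  set N2 := ‖∫ ξ : ℝ, (p0 ch f ((1 / a) ^ 2) W ξ * cfac (s.re - 1 / 2) x (2 * Real.pi * a) ξ) *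
          cexp (I * ((ξ * (2 * Real.pi * (a * x)) : ℝ) : ℂ))‖ with hN2
  have hN20 : 0 ≤ N2 := norm_nonneg _
  have c1 : Real.exp (-x ^ 2 / 2) * N1 ≤ K1 * W⁻¹ ^ 4 * (1 + (a * x) ^ 2)⁻¹ :=
    (mul_le_of_le_one_left (norm_nonneg _) hE1).trans b1
  have c2 : Real.exp (-x ^ 2 / 2) * N2 ≤ 2 * K2 * (W * (Y ^ 2 * Real.exp (2 * W * |Y|))) *
      (1 + (a * x) ^ 2)⁻¹ := by
    rw [← div_eq_mul_inv, le_div_iff₀ hv]
    have c3 : 1 + (a * x) ^ 2 ≤ 1 + (2 * Real.pi * (a * x)) ^ 2 := by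
      have h5 : 1 ≤ (2 * Real.pi) ^ 2 := by
        have := Real.pi_gt_three
        nlinarith
      rw [mul_pow (2 * Real.pi)]
      nlinarith [sq_nonneg (a * x)]
    calc Real.exp (-x ^ 2 / 2) * N2 * (1 + (a * x) ^ 2) ≤
          Real.exp (-x ^ 2 / 2) * (N2 * (1 + (2 * Real.pi * (a * x)) ^ 2)) := by
          rw [mul_assoc]
          exact mul_le_mul_of_nonneg_left (mul_le_mul_of_nonneg_left c3 hN20) hE0.le
      _ ≤ Real.exp (-x ^ 2 / 2) * (K2 * W * (Y ^ 2 * (1 + x ^ 2) * Real.exp (2 * W * |Y|))) :=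
          mul_le_mul_of_nonneg_left b2 hE0.le
      _ = (Real.exp (-x ^ 2 / 2) * (1 + x ^ 2)) * (K2 * (W * (Y ^ 2 * Real.exp (2 * W * |Y|)))) := by
          ring
      _ ≤ 2 * (K2 * (W * (Y ^ 2 * Real.exp (2 * W * |Y|)))) :=
          mul_le_mul_of_nonneg_right hE2 (by positivity)
      _ = _ := by ring
  have hr : 0 ≤ K2 * W⁻¹ ^ 4 := by positivity
  have hr1 : 0 ≤ K1 * (W * (Y ^ 2 * Real.exp (2 * W * |Y|))) := by positivity
  calc mz s * (Real.exp (-x ^ 2 / 2) * N1) + mz s * (Real.exp (-x ^ 2 / 2) * N2) ≤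
      mz s * (K1 * W⁻¹ ^ 4 * (1 + (a * x) ^ 2)⁻¹) +
        mz s * (2 * K2 * (W * (Y ^ 2 * Real.exp (2 * W * |Y|))) * (1 + (a * x) ^ 2)⁻¹) :=
        add_le_add (mul_le_mul_of_nonneg_left c1 hm) (mul_le_mul_of_nonneg_left c2 hm)
    _ = mz s * (K1 * W⁻¹ ^ 4 + 2 * K2 * (W * (Y ^ 2 * Real.exp (2 * W * |Y|)))) *
        (1 + (a * x) ^ 2)⁻¹ := by ring
    _ ≤ mz s * ((K1 + 2 * K2) * (W⁻¹ ^ 4 + W * (Y ^ 2 * Real.exp (2 * W * |Y|)))) *
        (1 + (a * x) ^ 2)⁻¹ := by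
        refine mul_le_mul_of_nonneg_right (mul_le_mul_of_nonneg_left ?_ hm) (inv_nonneg.2 hv.le)
        nlinarith

/-- the sum of the weights -/
theorem zero_sum : ∃ C : ℝ, 0 < C ∧ ∀ T A B L W a : ℝ, 10 ≤ T → T ≤ A → B ≤ 2 * T → 0 < L →
    0 < W → 4 * W ≤ L → 2 * Real.pi * a = Real.log T / L →
    ∑ s ∈ Zf riemannZeta A B, mz s * (W⁻¹ ^ 4 + W * (((s.re - 1 / 2) * (2 * Real.pi * a)) ^ 2 *
        Real.exp (2 * W * |(s.re - 1 / 2) * (2 * Real.pi * a)|))) ≤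
      C * (T * Real.log T) * (W⁻¹ ^ 4 + W / L ^ 2) := by
  obtain ⟨C, hC, h⟩ := expm (κ := 1) zero_le_one (by norm_num)
  refine ⟨8 * C, by positivity, fun T A B L W a hT hA hB hL hW hWL ha => ?_⟩
  have hl : 0 < Real.log T := Real.log_pos (by linarith)
  have hsub : Zf riemannZeta A B ⊆ Zf riemannZeta T (2 * T) := by
    intro s hs
    rw [mem_Zf good_zeta (by linarith)] at hs ⊢
    exact ⟨hs.1, hs.2.1, by linarith [hs.2.2.1], by linarith [hs.2.2.2.1], hs.2.2.2.2⟩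
  have hpt : ∀ s : ℂ, W⁻¹ ^ 4 + W * (((s.re - 1 / 2) * (2 * Real.pi * a)) ^ 2 *
        Real.exp (2 * W * |(s.re - 1 / 2) * (2 * Real.pi * a)|)) ≤
      8 * (W⁻¹ ^ 4 + W / L ^ 2) * ew 1 (Real.log T) s := by
    intro s
    unfold ew
    rw [ha, one_mul]
    set v : ℝ := |s.re - 1 / 2| * Real.log T with hv
    have hv0 : 0 ≤ v := by positivity
    have e1 : ((s.re - 1 / 2) * (Real.log T / L)) ^ 2 = v ^ 2 / L ^ 2 := by
      rw [hv, mul_pow, mul_pow, sq_abs, div_pow]; ring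
    have e2 : 2 * W * |(s.re - 1 / 2) * (Real.log T / L)| = 2 * W * v / L := by
      rw [hv, abs_mul, abs_div, abs_of_pos hl, abs_of_pos hL]; ring
    rw [e1, e2]
    have e3 : Real.exp (2 * W * v / L) ≤ Real.exp (v / 2) := by
      apply Real.exp_le_exp.2
      rw [div_le_div_iff₀ hL (by norm_num)]
      nlinarith
    have e4 : v ^ 2 ≤ 8 * Real.exp (v / 2) := by
      have h5 := Real.quadratic_le_exp_of_nonneg (by positivity : 0 ≤ v / 2)
      nlinarith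
    have e5 : Real.exp (v / 2) * Real.exp (v / 2) = Real.exp v := by
      rw [← Real.exp_add]; congr 1; ring
    have e6 : 1 ≤ Real.exp v := Real.one_le_exp hv0
    have e7 : v ^ 2 * Real.exp (2 * W * v / L) ≤ 8 * Real.exp v := by
      calc v ^ 2 * Real.exp (2 * W * v / L) ≤ (8 * Real.exp (v / 2)) * Real.exp (v / 2) :=
            mul_le_mul e4 e3 (Real.exp_pos _).le (by positivity)
        _ = _ := by rw [mul_assoc, e5]
    calc W⁻¹ ^ 4 + W * (v ^ 2 / L ^ 2 * Real.exp (2 * W * v / L)) =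
          W⁻¹ ^ 4 * 1 + W / L ^ 2 * (v ^ 2 * Real.exp (2 * W * v / L)) := by ring
      _ ≤ W⁻¹ ^ 4 * (8 * Real.exp v) + W / L ^ 2 * (8 * Real.exp v) := by
          refine add_le_add (mul_le_mul_of_nonneg_left ?_ (by positivity))
            (mul_le_mul_of_nonneg_left e7 (by positivity))
          linarith
      _ = _ := by ring
  have h1 := h T hT
  calc ∑ s ∈ Zf riemannZeta A B, mz s * (W⁻¹ ^ 4 + W * (((s.re - 1 / 2) * (2 * Real.pi * a)) ^ 2 *
        Real.exp (2 * W * |(s.re - 1 / 2) * (2 * Real.pi * a)|))) ≤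
      ∑ s ∈ Zf riemannZeta A B, 8 * (W⁻¹ ^ 4 + W / L ^ 2) * (mz s * ew 1 (Real.log T) s) := by
        refine Finset.sum_le_sum fun s _ => ?_
        refine (mul_le_mul_of_nonneg_left (hpt s) (mz_nonneg s)).trans (le_of_eq (by ring))
    _ ≤ ∑ s ∈ Zf riemannZeta T (2 * T), 8 * (W⁻¹ ^ 4 + W / L ^ 2) *
          (mz s * ew 1 (Real.log T) s) := by
        refine Finset.sum_le_sum_of_subset_of_nonneg hsub fun s _ _ => ?_
        have : 0 ≤ ew 1 (Real.log T) s := (Real.exp_pos _).le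
        have := mz_nonneg s
        positivity
    _ = 8 * (W⁻¹ ^ 4 + W / L ^ 2) * ∑ s ∈ Zf riemannZeta T (2 * T),
          (mult riemannZeta s : ℝ) * ew 1 (Real.log T) s := by
        rw [Finset.mul_sum]
        rfl
    _ ≤ 8 * (W⁻¹ ^ 4 + W / L ^ 2) * (C * (T * Real.log T)) :=
        mul_le_mul_of_nonneg_left h1 (by positivity)
    _ = _ := by ring

/-- the bounding function of the zero side -/
noncomputable def Bz (K W a A B t : ℝ) : ℝ :=
  ∑ s ∈ Zf riemannZeta A B, mz s * (K * (W⁻¹ ^ 4 + W * (((s.re - 1 / 2) * (2 * Real.pi * a)) ^ 2 *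
        Real.exp (2 * W * |(s.re - 1 / 2) * (2 * Real.pi * a)|)))) * (1 + (a * (s.im - t)) ^ 2)⁻¹

lemma Bz_cont (K W a A B : ℝ) : Continuous (Bz K W a A B) := by
  unfold Bz
  refine continuous_finsetSum _ fun s _ => continuous_const.mul ?_
  refine Continuous.inv₀ (by fun_prop) fun t => ?_
  positivity

theorem Bz_int : ∃ C : ℝ, 0 < C ∧ ∀ K T A B L W a x1 x2 : ℝ, 0 ≤ K → 10 ≤ T → T ≤ A → B ≤ 2 * T →
    0 < L → 0 < W → 4 * W ≤ L → 2 * Real.pi * a = Real.log T / L → x1 ≤ x2 →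
    ∫ t in x1..x2, Bz K W a A B t ≤ C * K * T * (L * W⁻¹ ^ 4 + W / L) := by
  obtain ⟨C, hC, h⟩ := zero_sum
  refine ⟨2 * Real.pi ^ 2 * C, by positivity, fun K T A B L W a x1 x2 hK hT hA hB hL hW hWL ha hx => ?_⟩
  have hl : 0 < Real.log T := Real.log_pos (by linarith)
  have hpi := Real.pi_pos
  have ha0 : 0 < a := by
    have h1 : 0 < 2 * Real.pi * a := by rw [ha]; positivity
    by_contra hn
    push Not at hn
    nlinarith
  have hI : ∀ γ : ℝ, Integrable (fun t : ℝ => (1 + (a * (γ - t)) ^ 2)⁻¹) := by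
    intro γ
    exact (integrable_inv_one_add_sq.comp_mul_left' ha0.ne').comp_sub_left γ
  have hI2 : ∀ γ : ℝ, ∫ t : ℝ, (1 + (a * (γ - t)) ^ 2)⁻¹ = Real.pi / a := by
    intro γ
    rw [integral_sub_left_eq_self (fun t : ℝ => (1 + (a * t) ^ 2)⁻¹) volume γ,
      Measure.integral_comp_mul_left (fun z : ℝ => (1 + z ^ 2)⁻¹) a, integral_univ_inv_one_add_sq,
      abs_of_pos (by positivity), smul_eq_mul]
    field_simp
  have hle : ∀ γ : ℝ, ∫ t in x1..x2, (1 + (a * (γ - t)) ^ 2)⁻¹ ≤ Real.pi / a := by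
    intro γ
    rw [intervalIntegral.integral_of_le hx, ← hI2 γ]
    exact setIntegral_le_integral (hI γ) (Eventually.of_forall fun t => by positivity)
  unfold Bz
  rw [intervalIntegral.integral_finsetSum fun s _ => ((hI s.im).const_mul _).intervalIntegrable]
  have h1 := h T A B L W a hT hA hB hL hW hWL ha
  set w : ℂ → ℝ := fun s => W⁻¹ ^ 4 + W * (((s.re - 1 / 2) * (2 * Real.pi * a)) ^ 2 *
        Real.exp (2 * W * |(s.re - 1 / 2) * (2 * Real.pi * a)|)) with hw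
  have hw0 : ∀ s, 0 ≤ w s := fun s => by simp only [hw]; positivity
  have ea : 1 / a = 2 * Real.pi * L / Real.log T := by
    rw [div_eq_div_iff ha0.ne' hl.ne']
    have h3 : 2 * Real.pi * a * L = Real.log T := by rw [ha]; field_simp
    linarith
  calc ∑ s ∈ Zf riemannZeta A B, ∫ t in x1..x2, mz s * (K * w s) * (1 + (a * (s.im - t)) ^ 2)⁻¹ ≤
      ∑ s ∈ Zf riemannZeta A B, K * (Real.pi / a) * (mz s * w s) := by
        refine Finset.sum_le_sum fun s _ => ?_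
        rw [intervalIntegral.integral_const_mul]
        have := mul_le_mul_of_nonneg_left (hle s.im)
          (mul_nonneg (mz_nonneg s) (mul_nonneg hK (hw0 s)))
        refine this.trans (le_of_eq (by ring))
    _ = K * (Real.pi / a) * ∑ s ∈ Zf riemannZeta A B, mz s * w s := by rw [Finset.mul_sum]
    _ ≤ K * (Real.pi / a) * (C * (T * Real.log T) * (W⁻¹ ^ 4 + W / L ^ 2)) :=
        mul_le_mul_of_nonneg_left h1 (by positivity)
    _ = K * Real.pi * (1 / a) * (C * (T * Real.log T) * (W⁻¹ ^ 4 + W / L ^ 2)) := by ring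
    _ = _ := by
        rw [ea]
        field_simp

end Pool.Agent.Q278.MC
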