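import Pool.Agent.Q278.MC.F

/-!
# Gaussian averages of the Fourier transform (helper278)
-/

set_option autoImplicit false

namespace Pool.Agent.Q278.MC

open Filter Topology MeasureTheory Complex
open scoped FourierTransform ContDiff ComplexConjugate

variable {f : ℝ → ℂ}

/-- the Gaussian weight -/
noncomputable def gw (a v ξ : ℝ) : ℝ := Real.exp (-(ξ * (2 * Real.pi * a) - v) ^ 2 / 2)

lemma gw_pos (a v ξ : ℝ) : 0 < gw a v ξ := Real.exp_pos _

lemma gw_le (a v ξ : ℝ) : gw a v ξ ≤ 1 := Real.exp_le_one_iff.2 (by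
  have := sq_nonneg (ξ * (2 * Real.pi * a) - v)
  linarith)

lemma gw_cont (a v : ℝ) : Continuous (gw a v) := by unfold gw; fun_prop

lemma gw_eq (a v ξ : ℝ) : ((gw a v ξ : ℝ) : ℂ) = cexp ((-((2 * Real.pi * a) ^ 2 / 2 : ℝ) : ℂ) * ξ ^ 2 +
    ((2 * Real.pi * a * v : ℝ) : ℂ) * ξ + ((-v ^ 2 / 2 : ℝ) : ℂ)) := by
  unfold gw
  rw [Complex.ofReal_exp]
  congr 1
  push_cast
  ring

lemma gw_integrable {a : ℝ} (ha : 0 < a) (v : ℝ) : Integrable (gw a v) := by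
  have hpi := Real.pi_pos
  have h := (integrable_exp_neg_mul_sq (b := (2 * Real.pi * a) ^ 2 / 2) (by positivity)).comp_sub_right
    (v / (2 * Real.pi * a))
  refine h.congr (Eventually.of_forall fun ξ => ?_)
  simp only [gw]
  congr 1
  field_simp

lemma gw_integral {a : ℝ} (ha : 0 < a) (v : ℝ) :
    ∫ ξ, gw a v ξ = 1 / (a * Real.sqrt (2 * Real.pi)) := by
  have hpi := Real.pi_pos
  have e : ∀ ξ : ℝ, gw a v ξ = (fun x : ℝ => Real.exp (-((2 * Real.pi * a) ^ 2 / 2) * x ^ 2))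
      (ξ - v / (2 * Real.pi * a)) := by
    intro ξ
    simp only [gw]
    congr 1
    field_simp
  simp_rw [e]
  rw [integral_sub_right_eq_self (fun x : ℝ => Real.exp (-((2 * Real.pi * a) ^ 2 / 2) * x ^ 2)),
    integral_gaussian]
  have h1 : Real.pi / ((2 * Real.pi * a) ^ 2 / 2) = (1 / (a * Real.sqrt (2 * Real.pi))) ^ 2 := by
    have h2 : (a * Real.sqrt (2 * Real.pi)) ^ 2 = a ^ 2 * (2 * Real.pi) := by
      rw [mul_pow, Real.sq_sqrt (by positivity)]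
    rw [div_pow, h2]
    field_simp
  rw [h1, Real.sqrt_sq (by positivity)]

/-- the full Gaussian average of the transform -/
theorem four_gauss (hf : CC f) {a : ℝ} (ha : 0 < a) (v : ℝ) :
    ∫ ξ : ℝ, 𝓕 (gs f ((1 / a) ^ 2)) ξ * ((gw a v ξ : ℝ) : ℂ) =
      ((1 / (a * Real.sqrt (2 * Real.pi)) : ℝ) : ℂ) * 𝓕 f (v / (2 * Real.pi * a)) := by
  have hpi := Real.pi_pos
  have hF := gs_cc hf ((1 / a) ^ 2)
  have hgi : Integrable (fun ξ : ℝ => ((gw a v ξ : ℝ) : ℂ)) := (gw_integrable ha v).ofReal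
  have h1 : ∫ ξ : ℝ, 𝓕 (gs f ((1 / a) ^ 2)) ξ • ((gw a v ξ : ℝ) : ℂ) =
      ∫ x : ℝ, gs f ((1 / a) ^ 2) x • 𝓕 (fun ξ : ℝ => ((gw a v ξ : ℝ) : ℂ)) x := by
    have := VectorFourier.integral_fourierIntegral_smul_eq_flip (μ := volume) (ν := volume)
      (e := Real.fourierChar) (L := innerₗ ℝ) (f := gs f ((1 / a) ^ 2))
      (g := fun ξ : ℝ => ((gw a v ξ : ℝ) : ℂ)) Real.continuous_fourierChar
      continuous_inner hF.int hgi
    simpa using! this
  have h2 : ∀ x : ℝ, 𝓕 (fun ξ : ℝ => ((gw a v ξ : ℝ) : ℂ)) x =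
      ((1 / (a * Real.sqrt (2 * Real.pi)) : ℝ) : ℂ) *
        (cexp (((-2 * Real.pi * x * (v / (2 * Real.pi * a)) : ℝ) : ℂ) * I) *
          ((Real.exp (-((1 / a) ^ 2 * x ^ 2 / 2)) : ℝ) : ℂ)) := by
    intro x
    rw [Real.fourier_real_eq_integral_exp_smul]
    have e1 : ∀ ξ : ℝ, cexp (((-2 * Real.pi * ξ * x : ℝ) : ℂ) * I) • ((gw a v ξ : ℝ) : ℂ) =
        cexp ((-((2 * Real.pi * a) ^ 2 / 2 : ℝ) : ℂ) * (ξ : ℂ) ^ 2 +
          (((2 * Real.pi * a * v : ℝ) : ℂ) - 2 * Real.pi * x * I) * ξ + ((-v ^ 2 / 2 : ℝ) : ℂ)) := by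
      intro ξ
      rw [gw_eq, smul_eq_mul, ← Complex.exp_add]
      congr 1
      push_cast
      ring
    simp_rw [e1]
    rw [integral_cexp_quadratic (by
      rw [← Complex.ofReal_neg, Complex.ofReal_re]
      have : 0 < (2 * Real.pi * a) ^ 2 / 2 := by positivity
      linarith)]
    have e2 : ((Real.pi : ℂ) / -(-((2 * Real.pi * a) ^ 2 / 2 : ℝ) : ℂ)) ^ (1 / 2 : ℂ) =
        ((1 / (a * Real.sqrt (2 * Real.pi)) : ℝ) : ℂ) := by
      have h3 : Real.pi / ((2 * Real.pi * a) ^ 2 / 2) = (1 / (a * Real.sqrt (2 * Real.pi))) ^ 2 := by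
        have h2 : (a * Real.sqrt (2 * Real.pi)) ^ 2 = a ^ 2 * (2 * Real.pi) := by
          rw [mul_pow, Real.sq_sqrt (by positivity)]
        rw [div_pow, h2]
        field_simp
      have h4 : (Real.pi : ℂ) / -(-((2 * Real.pi * a) ^ 2 / 2 : ℝ) : ℂ) =
          (((1 / (a * Real.sqrt (2 * Real.pi))) ^ 2 : ℝ) : ℂ) := by
        rw [neg_neg, ← h3]
        push_cast
        rfl
      rw [h4, show (1 / 2 : ℂ) = ((1 / 2 : ℝ) : ℂ) by push_cast; ring,
        ← Complex.ofReal_cpow (by positivity), ← Real.sqrt_eq_rpow, Real.sqrt_sq (by positivity)]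
    rw [e2, Complex.ofReal_exp, ← Complex.exp_add]
    congr 2
    have ha' : (a : ℂ) ≠ 0 := by exact_mod_cast ha.ne'
    have hp' : (Real.pi : ℂ) ≠ 0 := by exact_mod_cast hpi.ne'
    push_cast
    field_simp
    ring_nf
    simp only [I_sq]
    ring
  simp only [smul_eq_mul] at h1
  rw [h1]
  simp_rw [h2]
  rw [Real.fourier_real_eq_integral_exp_smul, ← integral_const_mul]
  congr 1
  funext x
  rw [smul_eq_mul]
  have h5 : gs f ((1 / a) ^ 2) x * ((Real.exp (-((1 / a) ^ 2 * x ^ 2 / 2)) : ℝ) : ℂ) = f x := by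
    unfold gs
    rw [mul_comm, ← mul_assoc, ← Complex.ofReal_mul, ← Real.exp_add]
    have : -((1 / a) ^ 2 * x ^ 2 / 2) + (1 / a) ^ 2 * x ^ 2 / 2 = 0 := by ring
    rw [this, Real.exp_zero, Complex.ofReal_one, one_mul]
  calc _ = ((1 / (a * Real.sqrt (2 * Real.pi)) : ℝ) : ℂ) *
        (cexp (((-2 * Real.pi * x * (v / (2 * Real.pi * a)) : ℝ) : ℂ) * I) *
          (gs f ((1 / a) ^ 2) x * ((Real.exp (-((1 / a) ^ 2 * x ^ 2 / 2)) : ℝ) : ℂ))) := by ring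
    _ = _ := by rw [h5]

/-- the transform of a real function -/
lemma four_neg {g : ℝ → ℂ} (hg : ∀ x, conj (g x) = g x) (ξ : ℝ) : 𝓕 g (-ξ) = conj (𝓕 g ξ) := by
  rw [Real.fourier_real_eq_integral_exp_smul, Real.fourier_real_eq_integral_exp_smul,
    ← integral_conj]
  congr 1
  funext x
  rw [smul_eq_mul, smul_eq_mul, map_mul, hg, ← Complex.exp_conj]
  congr 2
  rw [map_mul, Complex.conj_ofReal, Complex.conj_I]
  push_cast
  ring

lemma gs_real (hr : ∀ x, conj (f x) = f x) (s x : ℝ) : conj (gs f s x) = gs f s x := by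
  unfold gs
  rw [map_mul, Complex.conj_ofReal, hr]

lemma p0_neg (hr : ∀ x, conj (f x) = f x) (s W ξ : ℝ) : p0 ch f s W (-ξ) = conj (p0 ch f s W ξ) := by
  unfold p0
  rw [map_mul, four_neg (gs_real hr s), neg_div, ch_neg]
  congr 1
  unfold ch
  rw [Complex.conj_ofReal]

/-- integrals of hermitian functions -/
lemma herm {J : ℝ → ℂ} (hi : Integrable J) (hJ : ∀ ξ, J (-ξ) = conj (J ξ)) :
    ∫ ξ, J ξ = ((2 * (∫ ξ in Set.Ioi (0 : ℝ), J ξ).re : ℝ) : ℂ) := by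
  have h1 := integral_add_compl (measurableSet_Iic (a := (0 : ℝ))) hi
  rw [Set.compl_Iic] at h1
  have h2 := integral_comp_neg_Ioi (0 : ℝ) J
  rw [neg_zero] at h2
  have h3 : ∫ ξ in Set.Ioi (0 : ℝ), J (-ξ) = conj (∫ ξ in Set.Ioi (0 : ℝ), J ξ) := by
    rw [← integral_conj]
    congr 1
    funext ξ
    exact hJ ξ
  rw [← h1, ← h2, h3, add_comm, Complex.add_conj]

end Pool.Agent.Q278.MC
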