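import Pool.Agent.Q278.MC.G
import Pool.Agent.Q278.MC.H
import Pool.Agent.Q278.MC.B
import Pool.Agent.H343R2.EFb
import Pool.Agent.H370R2.PC3

/-!
# The prime side (helper278)
-/

set_option autoImplicit false

namespace Pool.Agent.Q278.MC

open Filter Topology MeasureTheory Complex
open scoped FourierTransform ContDiff ComplexConjugate
open H370 (Zf mult mem_Zf good_zeta zset AA AA_eq hh hh_eq hh_conj zz zz_refl sum_refl mult_refl
  PP pterm)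

variable {f : ℝ → ℂ}

/-- the coefficients of `-ζ'/ζ` -/
noncomputable def lamC (n : ℕ) : ℂ := (ArithmeticFunction.vonMangoldt n : ℂ)

lemma lamC_le (n : ℕ) : ‖lamC n‖ ≤ ArithmeticFunction.vonMangoldt n := by
  unfold lamC
  rw [Complex.norm_real, Real.norm_eq_abs, abs_of_nonneg ArithmeticFunction.vonMangoldt_nonneg]

lemma AAb_one (F : ℂ → ℂ) (U1 U2 u t : ℝ) : H343.AAb 1 F U1 U2 u t = AA F U1 U2 u t := by
  unfold H343.AAb AA
  refine finsum_mem_congr rfl fun s _ => ?_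
  unfold H343.hhb hh
  rw [Complex.ofReal_one, one_mul]

lemma PPb_one (a : ℕ → ℂ) (u t : ℝ) : H343.PPb 1 a u t = PP a u t := by
  unfold H343.PPb PP
  congr 1
  funext n
  rw [mul_one]

/-- the explicit formula -/
theorem expl : ∃ C T0 : ℝ, 0 < C ∧ 10 ≤ T0 ∧ ∀ T : ℝ, T0 ≤ T →
    ∃ U1 U2 : ℝ, T ≤ U1 ∧ U1 ≤ T + 1 ∧ 2 * T - 1 ≤ U2 ∧ U2 ≤ 2 * T ∧
      ∀ u t : ℝ, 0 ≤ u → u ≤ Real.log T → T + Real.log T ≤ t → t ≤ 2 * T - Real.log T →
        ‖AA riemannZeta U1 U2 u t - (1 / Real.sqrt (2 * Real.pi) : ℝ) *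
          (Real.log T * cexp (I * u * t) * Real.exp (-u ^ 2 / 2) - PP lamC u t)‖ ≤
        C * Real.exp (-u) := by
  obtain ⟨C, T0, hC, hT0, h⟩ := H343.explicit_formula_zeta good_zeta 1 1 zero_le_one one_pos
  refine ⟨C, T0, hC, hT0, fun T hT => ?_⟩
  obtain ⟨U1, U2, h1, h2, h3, h4, h5⟩ := h T hT
  refine ⟨U1, U2, h1, h2, h3, h4, fun u t hu hu2 ht1 ht2 => ?_⟩
  have h6 := h5 u t hu (by rwa [one_mul]) ht1 ht2
  rw [AAb_one, PPb_one, mul_one, mul_one] at h6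
  exact h6

lemma AA_neg {A B : ℝ} (hA : 1 ≤ A) (u t : ℝ) :
    AA riemannZeta A B (-u) t = conj (AA riemannZeta A B u t) := by
  rw [AA_eq good_zeta hA, AA_eq good_zeta hA, map_sum]
  have h2 := sum_refl good_zeta (U2 := B) hA
      (fun s => (mult riemannZeta s : ℂ) * hh (-u) t s)
  rw [← h2]
  refine Finset.sum_congr rfl fun s hs => ?_
  rw [mem_Zf good_zeta hA] at hs
  rw [mult_refl good_zeta hs.1 hs.2.1 (by linarith [hs.2.2.1]), map_mul, Complex.conj_natCast,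
    hh_conj, hh_eq, zz_refl]
  congr 3
  push_cast
  ring

lemma AA_cont_u {A B : ℝ} (hA : 1 ≤ A) (t : ℝ) : Continuous fun u : ℝ => AA riemannZeta A B u t := by
  simp_rw [AA_eq good_zeta hA]
  unfold hh
  fun_prop

/-- half line averages -/
noncomputable def q0 (f : ℝ → ℂ) (W a v : ℝ) : ℂ :=
  ∫ ξ in Set.Ioi (0 : ℝ), p0 ch f ((1 / a) ^ 2) W ξ * ((gw a v ξ : ℝ) : ℂ)

/-- the normalising constant -/
noncomputable def c0 : ℝ := 1 / Real.sqrt (2 * Real.pi)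

lemma c0_pos : 0 < c0 := by
  have := Real.pi_pos
  unfold c0
  positivity

lemma c0_le : c0 ≤ 1 := by
  unfold c0
  have := Real.pi_gt_three
  have h1 : 1 ≤ Real.sqrt (2 * Real.pi) := by rw [Real.one_le_sqrt]; linarith
  rw [div_le_one (by linarith)]
  exact h1

/-- the coefficients of the prime side -/
noncomputable def dn (f : ℝ → ℂ) (W a : ℝ) (n : ℕ) : ℂ :=
  ((2 * c0 * (ArithmeticFunction.vonMangoldt n * (Real.sqrt n)⁻¹) : ℝ) : ℂ) * q0 f W a (Real.log n)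

lemma sig_mem {a : ℝ} (ha : 1 ≤ a) : (1 / a) ^ 2 ∈ Set.Icc (0 : ℝ) 1 := by
  have ha0 : 0 < a := by linarith
  refine ⟨by positivity, pow_le_one₀ (by positivity) ?_⟩
  rw [div_le_one ha0]; exact ha

lemma cut_bound (hf : CC f) : ∃ K : ℝ, 0 < K ∧ ∀ s ∈ Set.Icc (0 : ℝ) 1, ∀ W : ℝ, 1 ≤ W → ∀ ξ : ℝ,
    ‖𝓕 (gs f s) ξ - p0 ch f s W ξ‖ ≤ K * W⁻¹ ^ 4 * (1 + ξ ^ 2)⁻¹ ∧
    ‖𝓕 (gs f s) ξ‖ ≤ K * (1 + ξ ^ 2)⁻¹ ∧ ‖p0 ch f s W ξ‖ ≤ K * (1 + ξ ^ 2)⁻¹ := by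
  obtain ⟨K, hK, h⟩ := gs_decay hf
  refine ⟨2 * K, by positivity, fun s hs W hW ξ => ?_⟩
  have hW0 : 0 < W := by linarith
  have h1 := h s hs ξ
  have hx : 0 < 1 + ξ ^ 2 := by positivity
  have hx0 : 0 ≤ (1 + ξ ^ 2)⁻¹ := by positivity
  have hx1 : (1 + ξ ^ 2)⁻¹ ≤ 1 := inv_le_one_of_one_le₀ (by nlinarith [sq_nonneg ξ])
  have h2 : ‖𝓕 (gs f s) ξ‖ ≤ K * (1 + ξ ^ 2)⁻¹ := by
    refine h1.trans (mul_le_mul_of_nonneg_left ?_ hK.le)
    calc (1 + ξ ^ 2)⁻¹ ^ 3 = (1 + ξ ^ 2)⁻¹ * (1 + ξ ^ 2)⁻¹ ^ 2 := by ring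
      _ ≤ (1 + ξ ^ 2)⁻¹ * 1 := mul_le_mul_of_nonneg_left (pow_le_one₀ hx0 hx1) hx0
      _ = _ := mul_one _
  have hch : ‖1 - ch (ξ / W)‖ ≤ 1 := by
    unfold ch
    rw [← Complex.ofReal_one, ← Complex.ofReal_sub, Complex.norm_real, Real.norm_eq_abs, abs_le]
    have g1 := chi.nonneg (x := ξ / W)
    have g2 := chi.le_one (x := ξ / W)
    constructor <;> linarith
  refine ⟨?_, ?_, ?_⟩
  · have e1 : 𝓕 (gs f s) ξ - p0 ch f s W ξ = (1 - ch (ξ / W)) * 𝓕 (gs f s) ξ := by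
      unfold p0; ring
    rw [e1]
    by_cases hc : |ξ / W| ≤ 1
    · unfold ch
      rw [chi_one hc, Complex.ofReal_one, sub_self, zero_mul, norm_zero]
      positivity
    · push Not at hc
      rw [abs_div, abs_of_pos hW0, one_lt_div hW0] at hc
      have h3 : W ^ 2 ≤ 1 + ξ ^ 2 := by
        have : W ^ 2 ≤ |ξ| ^ 2 := pow_le_pow_left₀ hW0.le hc.le 2
        rw [sq_abs] at this
        linarith
      have h4 : (1 + ξ ^ 2)⁻¹ ≤ (W ^ 2)⁻¹ := inv_anti₀ (by positivity) h3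
      have h5 : (1 + ξ ^ 2)⁻¹ ^ 2 ≤ W⁻¹ ^ 4 := by
        calc (1 + ξ ^ 2)⁻¹ ^ 2 ≤ (W ^ 2)⁻¹ ^ 2 := pow_le_pow_left₀ (by positivity) h4 2
          _ = W⁻¹ ^ 4 := by rw [← inv_pow, ← pow_mul]
      rw [norm_mul]
      calc ‖1 - ch (ξ / W)‖ * ‖𝓕 (gs f s) ξ‖ ≤ 1 * (K * (1 + ξ ^ 2)⁻¹ ^ 3) :=
            mul_le_mul hch h1 (norm_nonneg _) zero_le_one
        _ = K * (1 + ξ ^ 2)⁻¹ ^ 2 * (1 + ξ ^ 2)⁻¹ := by ring
        _ ≤ K * W⁻¹ ^ 4 * (1 + ξ ^ 2)⁻¹ := by gcongr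
        _ ≤ 2 * K * W⁻¹ ^ 4 * (1 + ξ ^ 2)⁻¹ := by
            have : 0 ≤ K * W⁻¹ ^ 4 * (1 + ξ ^ 2)⁻¹ := by positivity
            linarith
  · have : 0 ≤ K * (1 + ξ ^ 2)⁻¹ := by positivity
    linarith
  · unfold p0
    rw [norm_mul]
    have : 0 ≤ K * (1 + ξ ^ 2)⁻¹ := by positivity
    have h3 := mul_le_of_le_one_left (norm_nonneg (𝓕 (gs f s) ξ)) (ch_norm (ξ / W))
    linarith

/-- the coefficients, in terms of the transform of `f` -/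
theorem q0_bound (hf : CC f) : ∃ K : ℝ, 0 < K ∧ ∀ a W v : ℝ, 1 ≤ a → 1 ≤ W → 0 ≤ v →
    ‖((2 * c0 : ℝ) : ℂ) * q0 f W a v - ((1 / (Real.pi * a) : ℝ) : ℂ) * 𝓕 f (v / (2 * Real.pi * a))‖ ≤
      K / a * (Real.exp (-v ^ 2 / 2) + W⁻¹ ^ 4) := by
  obtain ⟨K, hK, h⟩ := cut_bound hf
  refine ⟨2 * K, by positivity, fun a W v ha hW hv => ?_⟩
  have ha0 : 0 < a := by linarith
  have hpi := Real.pi_pos
  have hσ := sig_mem ha
  set s : ℝ := (1 / a) ^ 2 with hs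
  have hs2 : 0 < Real.sqrt (2 * Real.pi) := Real.sqrt_pos.2 (by positivity)
  have hfull := four_gauss hf ha0 v
  rw [← hs] at hfull
  have hgI := gw_integral ha0 v
  have hgi := gw_integrable ha0 v
  have hx1 : ∀ ξ : ℝ, (1 + ξ ^ 2)⁻¹ ≤ 1 := fun ξ => inv_le_one_of_one_le₀ (by nlinarith [sq_nonneg ξ])
  obtain ⟨hcs, hpc⟩ := p0_cs hf (s := s) hW
  have iF : Integrable (fun ξ : ℝ => 𝓕 (gs f s) ξ * ((gw a v ξ : ℝ) : ℂ)) := by
    refine (hgi.const_mul K).mono' ((four_cont hf s).mul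
      (Complex.continuous_ofReal.comp (gw_cont a v))).aestronglyMeasurable
      (Eventually.of_forall fun ξ => ?_)
    rw [norm_mul, Complex.norm_real, Real.norm_of_nonneg (gw_pos a v ξ).le]
    refine mul_le_mul_of_nonneg_right ?_ (gw_pos a v ξ).le
    exact (h s hσ W hW ξ).2.1.trans (mul_le_of_le_one_right hK.le (hx1 ξ))
  have iP : Integrable (fun ξ : ℝ => p0 ch f s W ξ * ((gw a v ξ : ℝ) : ℂ)) :=
    (hpc.mul (Complex.continuous_ofReal.comp (gw_cont a v))).integrable_of_hasCompactSupport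
      hcs.mul_right
  have hsplit := integral_add_compl (measurableSet_Iic (a := (0 : ℝ))) iF
  rw [Set.compl_Iic] at hsplit
  have e1 : ((2 * c0 : ℝ) : ℂ) * (((1 / (a * Real.sqrt (2 * Real.pi)) : ℝ) : ℂ)) =
      ((1 / (Real.pi * a) : ℝ) : ℂ) := by
    rw [← Complex.ofReal_mul]
    congr 1
    unfold c0
    have h2 : Real.sqrt (2 * Real.pi) ^ 2 = 2 * Real.pi := Real.sq_sqrt (by positivity)
    field_simp
    nlinarith
  have e2 : ((2 * c0 : ℝ) : ℂ) * q0 f W a v -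
      ((1 / (Real.pi * a) : ℝ) : ℂ) * 𝓕 f (v / (2 * Real.pi * a)) =
      -(((2 * c0 : ℝ) : ℂ) * ((∫ ξ in Set.Iic (0 : ℝ), 𝓕 (gs f s) ξ * ((gw a v ξ : ℝ) : ℂ)) +
        ∫ ξ in Set.Ioi (0 : ℝ), (𝓕 (gs f s) ξ - p0 ch f s W ξ) * ((gw a v ξ : ℝ) : ℂ))) := by
    rw [← e1, mul_assoc, ← hfull, ← hsplit]
    have e3 : ∫ ξ in Set.Ioi (0 : ℝ), (𝓕 (gs f s) ξ - p0 ch f s W ξ) * ((gw a v ξ : ℝ) : ℂ) =
        (∫ ξ in Set.Ioi (0 : ℝ), 𝓕 (gs f s) ξ * ((gw a v ξ : ℝ) : ℂ)) - q0 f W a v := by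
      unfold q0
      rw [← hs, ← integral_sub iF.integrableOn iP.integrableOn]
      congr 1
      funext ξ
      ring
    rw [e3]
    ring
  rw [e2, norm_neg, norm_mul, Complex.norm_real, Real.norm_of_nonneg (by have := c0_pos; positivity)]
  -- the two bounds
  have b1 : ‖∫ ξ in Set.Iic (0 : ℝ), 𝓕 (gs f s) ξ * ((gw a v ξ : ℝ) : ℂ)‖ ≤
      K * Real.exp (-v ^ 2 / 2) * (1 / (a * Real.sqrt (2 * Real.pi))) := by
    have hg0 := gw_integral ha0 0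
    have hgi0 := gw_integrable ha0 0
    calc ‖∫ ξ in Set.Iic (0 : ℝ), 𝓕 (gs f s) ξ * ((gw a v ξ : ℝ) : ℂ)‖ ≤
        ∫ ξ in Set.Iic (0 : ℝ), K * Real.exp (-v ^ 2 / 2) * gw a 0 ξ := by
          refine norm_integral_le_of_norm_le (hgi0.const_mul _).integrableOn ?_
          refine (ae_restrict_iff' measurableSet_Iic).2 (Eventually.of_forall fun ξ hξ => ?_)
          have hξ' : ξ ≤ 0 := hξ
          rw [norm_mul, Complex.norm_real, Real.norm_of_nonneg (gw_pos a v ξ).le]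
          have g1 : gw a v ξ ≤ Real.exp (-v ^ 2 / 2) * gw a 0 ξ := by
            unfold gw
            rw [← Real.exp_add]
            apply Real.exp_le_exp.2
            have : 0 ≤ -ξ * (2 * Real.pi * a) * v := by
              have h9 : 0 ≤ -ξ := by linarith
              positivity
            nlinarith
          calc ‖𝓕 (gs f s) ξ‖ * gw a v ξ ≤ K * (Real.exp (-v ^ 2 / 2) * gw a 0 ξ) :=
                mul_le_mul ((h s hσ W hW ξ).2.1.trans (mul_le_of_le_one_right hK.le (hx1 ξ))) g1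
                  (gw_pos a v ξ).le hK.le
            _ = _ := by ring
      _ ≤ ∫ ξ : ℝ, K * Real.exp (-v ^ 2 / 2) * gw a 0 ξ :=
          setIntegral_le_integral (hgi0.const_mul _) (Eventually.of_forall fun ξ => by
            have := gw_pos a 0 ξ
            positivity)
      _ = _ := by rw [integral_const_mul, hg0]
  have b2 : ‖∫ ξ in Set.Ioi (0 : ℝ), (𝓕 (gs f s) ξ - p0 ch f s W ξ) * ((gw a v ξ : ℝ) : ℂ)‖ ≤
      K * W⁻¹ ^ 4 * (1 / (a * Real.sqrt (2 * Real.pi))) := by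
    have hW0 : 0 < W := by linarith
    calc ‖∫ ξ in Set.Ioi (0 : ℝ), (𝓕 (gs f s) ξ - p0 ch f s W ξ) * ((gw a v ξ : ℝ) : ℂ)‖ ≤
        ∫ ξ in Set.Ioi (0 : ℝ), K * W⁻¹ ^ 4 * gw a v ξ := by
          refine norm_integral_le_of_norm_le (hgi.const_mul _).integrableOn
            (Eventually.of_forall fun ξ => ?_)
          rw [norm_mul, Complex.norm_real, Real.norm_of_nonneg (gw_pos a v ξ).le]
          refine mul_le_mul_of_nonneg_right ?_ (gw_pos a v ξ).le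
          exact (h s hσ W hW ξ).1.trans (mul_le_of_le_one_right (by positivity) (hx1 ξ))
      _ ≤ ∫ ξ : ℝ, K * W⁻¹ ^ 4 * gw a v ξ :=
          setIntegral_le_integral (hgi.const_mul _) (Eventually.of_forall fun ξ => by
            have := gw_pos a v ξ
            positivity)
      _ = _ := by rw [integral_const_mul, hgI]
  have hc := c0_pos
  have hc1 := c0_le
  have e5 : 1 / (a * Real.sqrt (2 * Real.pi)) = c0 / a := by
    unfold c0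
    field_simp
  rw [e5] at b1 b2
  have hn := (norm_add_le (∫ ξ in Set.Iic (0 : ℝ), 𝓕 (gs f s) ξ * ((gw a v ξ : ℝ) : ℂ))
    (∫ ξ in Set.Ioi (0 : ℝ), (𝓕 (gs f s) ξ - p0 ch f s W ξ) * ((gw a v ξ : ℝ) : ℂ))).trans
    (add_le_add b1 b2)
  have hE : 0 < Real.exp (-v ^ 2 / 2) := Real.exp_pos _
  have hW4 : 0 ≤ W⁻¹ ^ 4 := by positivity
  calc 2 * c0 * ‖_‖ ≤ 2 * c0 * (K * Real.exp (-v ^ 2 / 2) * (c0 / a) + K * W⁻¹ ^ 4 * (c0 / a)) :=
        mul_le_mul_of_nonneg_left hn (by positivity)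
    _ = (c0 * c0) * (2 * K / a * (Real.exp (-v ^ 2 / 2) + W⁻¹ ^ 4)) := by ring
    _ ≤ 1 * (2 * K / a * (Real.exp (-v ^ 2 / 2) + W⁻¹ ^ 4)) := by
        refine mul_le_mul_of_nonneg_right ?_ (by positivity)
        nlinarith
    _ = _ := one_mul _

end Pool.Agent.Q278.MC
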