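import Pool.Agent.Q278.MC.I

/-!
# The explicit formula for the smooth sum over the zeros (helper278)
-/

set_option autoImplicit false

namespace Pool.Agent.Q278.MC

open Filter Topology MeasureTheory Complex
open scoped FourierTransform ContDiff ComplexConjugate
open H370 (Zf mult mem_Zf good_zeta zset AA PP pterm)

variable {f : ℝ → ℂ}

/-- the integrand on the zero side -/
noncomputable def Jf (f : ℝ → ℂ) (W a A B t ξ : ℝ) : ℂ :=
  p0 ch f ((1 / a) ^ 2) W ξ * (cexp (-(I * ((ξ * (2 * Real.pi * a) * t : ℝ) : ℂ))) *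
    AA riemannZeta A B (ξ * (2 * Real.pi * a)) t)

lemma Jf_int (hf : CC f) {W a A B t : ℝ} (hW : 1 ≤ W) (hA : 1 ≤ A) : Integrable (Jf f W a A B t) := by
  obtain ⟨hcs, hpc⟩ := p0_cs hf (s := (1 / a) ^ 2) hW
  unfold Jf
  refine (hpc.mul (Continuous.mul (by fun_prop) ?_)).integrable_of_hasCompactSupport hcs.mul_right
  exact (AA_cont_u hA t).comp (by fun_prop)

lemma Jf_neg (hr : ∀ x, conj (f x) = f x) {W a A B t : ℝ} (hA : 1 ≤ A) (ξ : ℝ) :
    Jf f W a A B t (-ξ) = conj (Jf f W a A B t ξ) := by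
  unfold Jf
  rw [map_mul, map_mul, p0_neg hr, neg_mul, AA_neg hA, ← Complex.exp_conj]
  congr 3
  rw [map_neg, map_mul, Complex.conj_I, Complex.conj_ofReal]
  push_cast
  ring

/-- the model for the zero sum -/
noncomputable def Mf (a ℓ : ℝ) (X : ℕ) (t ξ : ℝ) : ℂ :=
  (c0 : ℂ) * ((ℓ : ℂ) * ((gw a 0 ξ : ℝ) : ℂ) - ∑ n ∈ Finset.Icc 1 X,
    ((ArithmeticFunction.vonMangoldt n * (Real.sqrt n)⁻¹ : ℝ) : ℂ) * (n : ℂ) ^ (-(t : ℂ) * I) *
      ((gw a (Real.log n) ξ : ℝ) : ℂ))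

lemma pterm_eq (u t : ℝ) (n : ℕ) (hn : 1 ≤ n) : cexp (-(I * ((u * t : ℝ) : ℂ))) * pterm lamC u t n =
    ((ArithmeticFunction.vonMangoldt n * (Real.sqrt n)⁻¹ : ℝ) : ℂ) * (n : ℂ) ^ (-(t : ℂ) * I) *
      ((Real.exp (-(u - Real.log n) ^ 2 / 2) : ℝ) : ℂ) := by
  unfold pterm lamC
  have hn0 : (n : ℂ) ≠ 0 := by
    have : n ≠ 0 := by omega
    exact_mod_cast this
  have e : cexp (-(I * ((u * t : ℝ) : ℂ))) * cexp (I * t * (u - Real.log n)) =
      cexp (Complex.log n * (-(t : ℂ) * I)) := by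
    rw [← Complex.exp_add, ← Complex.natCast_log]
    congr 1
    push_cast
    ring
  have e2 : ((ArithmeticFunction.vonMangoldt n * (Real.sqrt n)⁻¹ : ℝ) : ℂ) =
      (ArithmeticFunction.vonMangoldt n : ℂ) * (Real.sqrt n : ℂ)⁻¹ := by
    rw [Complex.ofReal_mul, Complex.ofReal_inv]
  rw [Complex.cpow_def_of_ne_zero hn0, ← e, e2]
  ring

/-- the explicit formula, pointwise in `ξ` -/
theorem expl_pt : ∃ C T0 : ℝ, 0 < C ∧ 10 ≤ T0 ∧ ∀ T : ℝ, T0 ≤ T →
    ∃ U1 U2 : ℝ, T ≤ U1 ∧ U1 ≤ T + 1 ∧ 2 * T - 1 ≤ U2 ∧ U2 ≤ 2 * T ∧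
      ∀ a U ξ t : ℝ, 0 < a → 16 ≤ U → U ≤ Real.log T → 0 ≤ ξ → ξ * (2 * Real.pi * a) ≤ U →
        ∀ X : ℕ, 2 * U ≤ Real.log (X + 1) →
        T + Real.log T ≤ t → t ≤ 2 * T - Real.log T →
        ‖cexp (-(I * ((ξ * (2 * Real.pi * a) * t : ℝ) : ℂ))) *
            AA riemannZeta U1 U2 (ξ * (2 * Real.pi * a)) t - Mf a (Real.log T) X t ξ‖ ≤
          C * (Real.exp (-(ξ * (2 * Real.pi * a))) + Real.exp (-U)) := by
  obtain ⟨C, T0, hC, hT0, h⟩ := expl
  set Z : ℝ := ∑' n : ℕ, 1 / (n : ℝ) ^ 2 with hZ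
  have hZ0 : 0 ≤ Z := tsum_nonneg fun n => by positivity
  refine ⟨C + 2 * Z * Real.exp 4, T0, by positivity, hT0, fun T hT => ?_⟩
  obtain ⟨U1, U2, h1, h2, h3, h4, h5⟩ := h T hT
  refine ⟨U1, U2, h1, h2, h3, h4, fun a U ξ t ha hU hUT hξ hξU X hX ht1 ht2 => ?_⟩
  have hpi := Real.pi_pos
  set u : ℝ := ξ * (2 * Real.pi * a) with hu
  have hu0 : 0 ≤ u := by positivity
  have h6 := h5 u t hu0 (by linarith) ht1 ht2
  have h7 := H370.PP_trunc lamC_le u t U X (by linarith) (by linarith)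
  have hen : ‖cexp (-(I * ((u * t : ℝ) : ℂ)))‖ = 1 := by
    rw [show -(I * ((u * t : ℝ) : ℂ)) = ((-(u * t) : ℝ) : ℂ) * I by push_cast; ring,
      Complex.norm_exp_ofReal_mul_I]
  set e := cexp (-(I * ((u * t : ℝ) : ℂ))) with he
  have hMf : Mf a (Real.log T) X t ξ = (c0 : ℂ) * (e * (Real.log T * cexp (I * u * t) *
      Real.exp (-u ^ 2 / 2) - ∑ n ∈ Finset.Icc 1 X, pterm lamC u t n)) := by
    unfold Mf
    rw [mul_sub e, Finset.mul_sum]
    congr 2
    · have e1 : e * cexp (I * u * t) = 1 := by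
        rw [he, ← Complex.exp_add]
        have : -(I * ((u * t : ℝ) : ℂ)) + I * u * t = 0 := by push_cast; ring
        rw [this, Complex.exp_zero]
      have e2 : gw a 0 ξ = Real.exp (-u ^ 2 / 2) := by
        unfold gw
        rw [sub_zero]
      rw [e2]
      calc ((Real.log T : ℝ) : ℂ) * ((Real.exp (-u ^ 2 / 2) : ℝ) : ℂ) =
            (e * cexp (I * u * t)) * (((Real.log T : ℝ) : ℂ) * ((Real.exp (-u ^ 2 / 2) : ℝ) : ℂ)) := by
            rw [e1, one_mul]
        _ = _ := by ring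
    · refine Finset.sum_congr rfl fun n hn => ?_
      rw [Finset.mem_Icc] at hn
      rw [he, pterm_eq u t n hn.1]
      rfl
  have e3 : e * AA riemannZeta U1 U2 u t - Mf a (Real.log T) X t ξ =
      e * (AA riemannZeta U1 U2 u t - (1 / Real.sqrt (2 * Real.pi) : ℝ) *
          (Real.log T * cexp (I * u * t) * Real.exp (-u ^ 2 / 2) - PP lamC u t)) -
      e * ((c0 : ℂ) * (PP lamC u t - ∑ n ∈ Finset.Icc 1 X, pterm lamC u t n)) := by
    rw [hMf]
    unfold c0
    ring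
  rw [e3]
  refine (norm_sub_le _ _).trans ?_
  rw [norm_mul, norm_mul, norm_mul, hen, one_mul, one_mul, Complex.norm_real,
    Real.norm_of_nonneg c0_pos.le]
  have h8 : Real.exp (4 + 2 * u) * Real.exp (-U ^ 2 / 4) ≤ Real.exp 4 * Real.exp (-U) := by
    rw [← Real.exp_add, ← Real.exp_add]
    apply Real.exp_le_exp.2
    nlinarith
  calc ‖_‖ + c0 * ‖PP lamC u t - ∑ n ∈ Finset.Icc 1 X, pterm lamC u t n‖ ≤
      C * Real.exp (-u) + 1 * (2 * Z * (Real.exp 4 * Real.exp (-U))) := by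
        refine add_le_add h6 (mul_le_mul c0_le (h7.trans ?_) (norm_nonneg _) zero_le_one)
        exact mul_le_mul_of_nonneg_left h8 (by positivity)
    _ ≤ (C + 2 * Z * Real.exp 4) * (Real.exp (-u) + Real.exp (-U)) := by
        have g1 := Real.exp_pos (-u)
        have g2 := Real.exp_pos (-U)
        have g3 : 0 ≤ 2 * Z * Real.exp 4 := by positivity
        nlinarith [mul_nonneg g3 g1.le, mul_nonneg hC.le g2.le]

lemma exp_half {b : ℝ} (hb : 0 < b) : Integrable (fun ξ : ℝ => Real.exp (-(ξ * b)))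
    (volume.restrict (Set.Ioi 0)) ∧ ∫ ξ in Set.Ioi (0 : ℝ), Real.exp (-(ξ * b)) = 1 / b := by
  have h1 := exp_neg_integrableOn_Ioi 0 hb
  have e : (fun ξ : ℝ => Real.exp (-(ξ * b))) = fun x => Real.exp (-b * x) := by
    funext ξ; congr 1; ring
  rw [e]
  refine ⟨h1, ?_⟩
  have h2 := integral_exp_mul_Ioi (a := -b) (by linarith) 0
  rw [mul_zero, Real.exp_zero] at h2
  rw [h2]
  field_simp

/-- the explicit formula for the smooth sum over the zeros -/
theorem prime_pt (hf : CC f) (hr : ∀ x, conj (f x) = f x) : ∃ K T0 : ℝ, 0 < K ∧ 10 ≤ T0 ∧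
    ∀ T : ℝ, T0 ≤ T → ∃ U1 U2 : ℝ, T ≤ U1 ∧ U1 ≤ T + 1 ∧ 2 * T - 1 ≤ U2 ∧ U2 ≤ 2 * T ∧
      ∀ L W a : ℝ, 1 ≤ a → 1 ≤ W → 0 < L → 2 * Real.pi * a = Real.log T / L → 2 * W ≤ L →
        16 ≤ 2 * W * (2 * Real.pi * a) → ∀ X : ℕ, 2 * (2 * W * (2 * Real.pi * a)) ≤ Real.log (X + 1) →
        ∀ t : ℝ, T + Real.log T ≤ t → t ≤ 2 * T - Real.log T →
        |(Ps f W a U1 U2 t).re - (L * (∫ x, f x).re - (DP (dn f W a) X t).re)| ≤
          K * (1 / a + Real.exp (-(2 * W * (2 * Real.pi * a))) + L * W⁻¹ ^ 4) := by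
  obtain ⟨C, T0, hC, hT0, h⟩ := expl_pt
  obtain ⟨K, hK, hcut⟩ := cut_bound hf
  have hpi := Real.pi_pos
  refine ⟨2 * K * C + 2 * K * C * Real.pi + K, T0, by positivity, hT0, fun T hT => ?_⟩
  obtain ⟨U1, U2, h1, h2, h3, h4, h5⟩ := h T hT
  refine ⟨U1, U2, h1, h2, h3, h4, fun L W a ha hW hL haL hWL hU X hX t ht1 ht2 => ?_⟩
  have ha0 : 0 < a := by linarith
  have hW0 : 0 < W := by linarith
  have hA : 1 ≤ U1 := by linarith
  have hσ := sig_mem ha
  set s : ℝ := (1 / a) ^ 2 with hs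
  set U : ℝ := 2 * W * (2 * Real.pi * a) with hUd
  have hl : 0 < Real.log T := Real.log_pos (by linarith)
  have hUl : U ≤ Real.log T := by
    rw [hUd, haL]
    rw [← mul_div_assoc, div_le_iff₀ hL]
    nlinarith
  obtain ⟨hcs, hpc⟩ := p0_cs hf (s := s) hW
  set p := p0 ch f s W with hp
  have hx1 : ∀ ξ : ℝ, (1 + ξ ^ 2)⁻¹ ≤ 1 := fun ξ => inv_le_one_of_one_le₀ (by nlinarith [sq_nonneg ξ])
  have hcutξ := fun ξ => hcut s hσ W hW ξ
  -- (2) the half line
  have hJi := Jf_int (a := a) (t := t) (B := U2) hf hW hA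
  have hJ2 : (Ps f W a U1 U2 t).re = 2 * (∫ ξ in Set.Ioi (0 : ℝ), Jf f W a U1 U2 t ξ).re := by
    have e1 := herm hJi (Jf_neg hr hA)
    have e2 : Ps f W a U1 U2 t = ∫ ξ, Jf f W a U1 U2 t ξ := rfl
    rw [e2, e1, Complex.ofReal_re]
  -- integrability
  have ig : ∀ v : ℝ, Integrable (fun ξ : ℝ => p ξ * ((gw a v ξ : ℝ) : ℂ)) := fun v =>
    (hpc.mul (Complex.continuous_ofReal.comp (gw_cont a v))).integrable_of_hasCompactSupport
      hcs.mul_right
  -- (5) the model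
  have hMfe : ∀ ξ : ℝ, p ξ * Mf a (Real.log T) X t ξ = (c0 : ℂ) * ((Real.log T : ℂ) *
      (p ξ * ((gw a 0 ξ : ℝ) : ℂ)) - ∑ n ∈ Finset.Icc 1 X,
    ((ArithmeticFunction.vonMangoldt n * (Real.sqrt n)⁻¹ : ℝ) : ℂ) * (n : ℂ) ^ (-(t : ℂ) * I) *
      (p ξ * ((gw a (Real.log n) ξ : ℝ) : ℂ))) := by
    intro ξ
    unfold Mf
    rw [mul_left_comm, mul_sub, Finset.mul_sum]
    congr 2
    · ring
    · exact Finset.sum_congr rfl fun n _ => by ring
  have iM : Integrable (fun ξ : ℝ => p ξ * Mf a (Real.log T) X t ξ) := by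
    simp_rw [hMfe]
    refine (((ig 0).const_mul _).sub ?_).const_mul _
    exact integrable_finsetSum _ fun n _ => (ig _).const_mul _
  have hM : 2 * (∫ ξ in Set.Ioi (0 : ℝ), p ξ * Mf a (Real.log T) X t ξ).re =
      2 * c0 * Real.log T * (q0 f W a 0).re - (DP (dn f W a) X t).re := by
    have e1 : ∫ ξ in Set.Ioi (0 : ℝ), p ξ * Mf a (Real.log T) X t ξ = (c0 : ℂ) *
        ((Real.log T : ℂ) * q0 f W a 0 - ∑ n ∈ Finset.Icc 1 X,
        ((ArithmeticFunction.vonMangoldt n * (Real.sqrt n)⁻¹ : ℝ) : ℂ) * (n : ℂ) ^ (-(t : ℂ) * I) *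
        q0 f W a (Real.log n)) := by
      simp_rw [hMfe]
      rw [integral_const_mul, integral_sub ((ig 0).const_mul _).integrableOn
        (integrable_finsetSum _ fun n _ => (ig _).const_mul _).integrableOn, integral_const_mul,
        integral_finsetSum _ fun n _ => ((ig _).const_mul _).integrableOn]
      congr 2
      refine Finset.sum_congr rfl fun n _ => ?_
      rw [integral_const_mul]
      rfl
    have e2 : (2 : ℂ) * ((c0 : ℂ) * ((Real.log T : ℂ) * q0 f W a 0 - ∑ n ∈ Finset.Icc 1 X,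
        ((ArithmeticFunction.vonMangoldt n * (Real.sqrt n)⁻¹ : ℝ) : ℂ) * (n : ℂ) ^ (-(t : ℂ) * I) *
        q0 f W a (Real.log n))) =
        ((2 * c0 * Real.log T : ℝ) : ℂ) * q0 f W a 0 - DP (dn f W a) X t := by
      unfold DP dn
      rw [← mul_assoc, mul_sub, Finset.mul_sum]
      congr 1
      · push_cast; ring
      · refine Finset.sum_congr rfl fun n _ => ?_
        push_cast
        ring
    have e3 := congrArg Complex.re e2
    rw [Complex.sub_re, Complex.re_ofReal_mul, ← e1] at e3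
    rw [← e3]
    simp
  -- (4) the difference
  have hdiff : ‖(∫ ξ in Set.Ioi (0 : ℝ), Jf f W a U1 U2 t ξ) -
      ∫ ξ in Set.Ioi (0 : ℝ), p ξ * Mf a (Real.log T) X t ξ‖ ≤
      K * C * (1 / a) + K * C * Real.pi * Real.exp (-U) := by
    rw [← integral_sub hJi.integrableOn iM.integrableOn]
    obtain ⟨x1, x2⟩ := exp_half (b := 2 * Real.pi * a) (by positivity)
    have igl : IntegrableOn (fun ξ : ℝ => K * C * Real.exp (-(ξ * (2 * Real.pi * a))) +
        K * C * Real.exp (-U) * (1 + ξ ^ 2)⁻¹) (Set.Ioi 0) :=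
      Integrable.add (x1.const_mul _) (integrable_inv_one_add_sq.const_mul _).integrableOn
    refine (norm_integral_le_of_norm_le igl ?_).trans ?_
    · refine (ae_restrict_iff' measurableSet_Ioi).2 (Eventually.of_forall fun ξ hξ => ?_)
      have hξ0 : 0 < ξ := hξ
      have e1 : Jf f W a U1 U2 t ξ - p ξ * Mf a (Real.log T) X t ξ =
          p ξ * (cexp (-(I * ((ξ * (2 * Real.pi * a) * t : ℝ) : ℂ))) *
            AA riemannZeta U1 U2 (ξ * (2 * Real.pi * a)) t - Mf a (Real.log T) X t ξ) := by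
        unfold Jf
        rw [← hs, ← hp]
        ring
      rw [e1]
      by_cases hz : 2 * W < ξ
      · have : p ξ = 0 := by
          rw [hp]
          unfold p0 ch
          rw [chi_zero, Complex.ofReal_zero, zero_mul]
          rw [abs_div, abs_of_pos hW0, abs_of_pos hξ0, le_div_iff₀ hW0]
          exact hz.le
        rw [this, zero_mul, norm_zero]
        positivity
      · push Not at hz
        have hξU : ξ * (2 * Real.pi * a) ≤ U :=
          mul_le_mul_of_nonneg_right hz (by positivity)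
        have g1 := h5 a U ξ t ha0 hU hUl hξ0.le hξU X hX ht1 ht2
        have g2 := (hcutξ ξ).2.2
        rw [norm_mul]
        have g3 : 0 ≤ (1 + ξ ^ 2)⁻¹ := by positivity
        have g4 := Real.exp_pos (-(ξ * (2 * Real.pi * a)))
        have g5 := Real.exp_pos (-U)
        calc ‖p ξ‖ * ‖_‖ ≤ (K * (1 + ξ ^ 2)⁻¹) *
              (C * (Real.exp (-(ξ * (2 * Real.pi * a))) + Real.exp (-U))) :=
              mul_le_mul g2 g1 (norm_nonneg _) (by positivity)
          _ = K * C * Real.exp (-(ξ * (2 * Real.pi * a))) * (1 + ξ ^ 2)⁻¹ +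
              K * C * Real.exp (-U) * (1 + ξ ^ 2)⁻¹ := by ring
          _ ≤ _ := by
              have := mul_le_of_le_one_right
                (by positivity : 0 ≤ K * C * Real.exp (-(ξ * (2 * Real.pi * a)))) (hx1 ξ)
              linarith
    · rw [integral_add (x1.const_mul _) (integrable_inv_one_add_sq.const_mul _).integrableOn,
        integral_const_mul, integral_const_mul, x2]
      have e2 : ∫ ξ in Set.Ioi (0 : ℝ), (1 + ξ ^ 2)⁻¹ ≤ Real.pi := by
        rw [← integral_univ_inv_one_add_sq]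
        exact setIntegral_le_integral integrable_inv_one_add_sq
          (Eventually.of_forall fun ξ => by positivity)
      have e3 : 1 / (2 * Real.pi * a) ≤ 1 / a := by
        apply one_div_le_one_div_of_le ha0
        have := Real.pi_gt_three
        nlinarith
      have e4 : 0 ≤ K * C * Real.exp (-U) := by positivity
      calc K * C * (1 / (2 * Real.pi * a)) + K * C * Real.exp (-U) * ∫ ξ in Set.Ioi (0 : ℝ), (1 + ξ ^ 2)⁻¹
          ≤ K * C * (1 / a) + K * C * Real.exp (-U) * Real.pi := by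
            refine add_le_add (mul_le_mul_of_nonneg_left e3 (by positivity))
              (mul_le_mul_of_nonneg_left e2 e4)
        _ = _ := by ring
  -- (6) the main term
  have hmain : |2 * c0 * Real.log T * (q0 f W a 0).re - L * (∫ x, f x).re| ≤ K * (L * W⁻¹ ^ 4) := by
    have e1 : ∫ ξ, p ξ * ((gw a 0 ξ : ℝ) : ℂ) = ((2 * (q0 f W a 0).re : ℝ) : ℂ) := by
      have e2 := herm (ig 0) (fun ξ => by
        have hgn : gw a 0 (-ξ) = gw a 0 ξ := by
          unfold gw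
          congr 1
          ring
        rw [hp, p0_neg hr, map_mul, Complex.conj_ofReal, hgn])
      exact e2
    have hg0 := gw_integral ha0 0
    have hgi := gw_integrable ha0 0
    have iF : Integrable (fun ξ : ℝ => 𝓕 (gs f s) ξ * ((gw a 0 ξ : ℝ) : ℂ)) := by
      refine (hgi.const_mul K).mono' ((four_cont hf s).mul
        (Complex.continuous_ofReal.comp (gw_cont a 0))).aestronglyMeasurable
        (Eventually.of_forall fun ξ => ?_)
      rw [norm_mul, Complex.norm_real, Real.norm_of_nonneg (gw_pos a 0 ξ).le]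
      refine mul_le_mul_of_nonneg_right ?_ (gw_pos a 0 ξ).le
      exact (hcutξ ξ).2.1.trans (mul_le_of_le_one_right hK.le (hx1 ξ))
    have hfull := four_gauss hf ha0 0
    rw [← hs, zero_div] at hfull
    have hf0 : 𝓕 f 0 = ∫ x, f x := by
      rw [Real.fourier_real_eq_integral_exp_smul]
      simp
    rw [hf0] at hfull
    have e3 : ‖(((2 * (q0 f W a 0).re : ℝ) : ℂ)) -
        ((1 / (a * Real.sqrt (2 * Real.pi)) : ℝ) : ℂ) * ∫ x, f x‖ ≤
        K * W⁻¹ ^ 4 * (1 / (a * Real.sqrt (2 * Real.pi))) := by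
      rw [← e1, ← hfull, ← integral_sub (ig 0) iF, ← hg0, ← integral_const_mul]
      refine norm_integral_le_of_norm_le (hgi.const_mul _) (Eventually.of_forall fun ξ => ?_)
      rw [← sub_mul, norm_mul, Complex.norm_real, Real.norm_of_nonneg (gw_pos a 0 ξ).le,
        norm_sub_rev]
      refine mul_le_mul_of_nonneg_right ?_ (gw_pos a 0 ξ).le
      exact (hcutξ ξ).1.trans (mul_le_of_le_one_right (by positivity) (hx1 ξ))
    have e4 := (Complex.abs_re_le_norm _).trans e3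
    rw [Complex.sub_re, Complex.ofReal_re, Complex.re_ofReal_mul] at e4
    have e5 : c0 * Real.log T * (1 / (a * Real.sqrt (2 * Real.pi))) = L := by
      have h6 : Real.log T = 2 * Real.pi * a * L := by rw [haL]; field_simp
      have h7 : Real.sqrt (2 * Real.pi) ^ 2 = 2 * Real.pi := Real.sq_sqrt (by positivity)
      have h8 : 0 < Real.sqrt (2 * Real.pi) := Real.sqrt_pos.2 (by positivity)
      rw [h6]
      unfold c0
      field_simp
      nlinarith
    have hcl : 0 < c0 * Real.log T := mul_pos c0_pos hl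
    have e6 : 2 * c0 * Real.log T * (q0 f W a 0).re - L * (∫ x, f x).re =
        (c0 * Real.log T) * (2 * (q0 f W a 0).re -
          1 / (a * Real.sqrt (2 * Real.pi)) * (∫ x, f x).re) := by
      rw [mul_sub, ← mul_assoc (c0 * Real.log T) (1 / (a * Real.sqrt (2 * Real.pi))), e5]
      ring
    rw [e6, abs_mul, abs_of_pos hcl]
    calc c0 * Real.log T * |_| ≤ c0 * Real.log T * (K * W⁻¹ ^ 4 * (1 / (a * Real.sqrt (2 * Real.pi)))) :=
          mul_le_mul_of_nonneg_left e4 hcl.le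
      _ = K * W⁻¹ ^ 4 * (c0 * Real.log T * (1 / (a * Real.sqrt (2 * Real.pi)))) := by ring
      _ = _ := by rw [e5]; ring
  -- conclusion
  have e7 : (Ps f W a U1 U2 t).re - (L * (∫ x, f x).re - (DP (dn f W a) X t).re) =
      2 * ((∫ ξ in Set.Ioi (0 : ℝ), Jf f W a U1 U2 t ξ) -
        ∫ ξ in Set.Ioi (0 : ℝ), p ξ * Mf a (Real.log T) X t ξ).re +
      (2 * c0 * Real.log T * (q0 f W a 0).re - L * (∫ x, f x).re) := by
    rw [hJ2, Complex.sub_re, mul_sub, hM]
    ring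
  rw [e7]
  have e8 : |2 * ((∫ ξ in Set.Ioi (0 : ℝ), Jf f W a U1 U2 t ξ) -
        ∫ ξ in Set.Ioi (0 : ℝ), p ξ * Mf a (Real.log T) X t ξ).re| ≤
      2 * (K * C * (1 / a) + K * C * Real.pi * Real.exp (-U)) := by
    rw [abs_mul, abs_of_pos (by norm_num : (0 : ℝ) < 2)]
    exact mul_le_mul_of_nonneg_left ((Complex.abs_re_le_norm _).trans hdiff) (by norm_num)
  refine (abs_add_le _ _).trans ((add_le_add e8 hmain).trans ?_)
  have g1 : 0 ≤ 1 / a := by positivity
  have g2 := (Real.exp_pos (-U)).le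
  have g3 : 0 ≤ L * W⁻¹ ^ 4 := by positivity
  have g4 : 0 ≤ K * C := by positivity
  have g5 : 0 ≤ K * C * Real.pi := by positivity
  nlinarith [mul_nonneg g4 g1, mul_nonneg g4 g2, mul_nonneg g4 g3, mul_nonneg g5 g1,
    mul_nonneg g5 g2, mul_nonneg g5 g3, mul_nonneg hK.le g1, mul_nonneg hK.le g2]

end Pool.Agent.Q278.MC
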