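import Pool.Agent.Q278.MC.L

/-!
# The limit of the characteristic function (helper278)
-/

set_option autoImplicit false

namespace Pool.Agent.Q278.MC

open Filter Topology MeasureTheory Complex
open scoped FourierTransform ContDiff ComplexConjugate
open H370 (Zf mult mem_Zf good_zeta zset finsum_Zf)

/-- the scale -/
noncomputable def aP (L T : ℝ) : ℝ := Real.log T / (2 * Real.pi * L)

/-- the cut-off parameter -/
noncomputable def WP (L : ℝ) : ℝ := L ^ (1 / 3 : ℝ)

/-- the largest frequency -/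
noncomputable def UP (L T : ℝ) : ℝ := 2 * WP L * (2 * Real.pi * aP L T)

/-- the length of the prime sum -/
noncomputable def XP (L T : ℝ) : ℕ := ⌊Real.exp (2 * UP L T)⌋₊

/-- the centred statistic -/
noncomputable def st (f : ℝ → ℝ) (L T t : ℝ) : ℝ := SZ f (aP L T) t - L * ∫ x, f x

lemma aP_eq {L T : ℝ} (hL : 0 < L) : 2 * Real.pi * aP L T = Real.log T / L := by
  have := Real.pi_pos
  unfold aP
  field_simp

lemma XP_one {L T : ℝ} (h : 0 ≤ UP L T) : 1 ≤ XP L T := by
  unfold XP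
  apply Nat.le_floor
  rw [Nat.cast_one]
  exact Real.one_le_exp (by linarith)

lemma XP_le {L T : ℝ} : (XP L T : ℝ) ≤ Real.exp (2 * UP L T) := Nat.floor_le (Real.exp_pos _).le

lemma XP_log {L T : ℝ} (h : 0 ≤ UP L T) : Real.log (XP L T) ≤ 2 * UP L T := by
  rw [Real.log_le_iff_le_exp (by exact_mod_cast XP_one h)]
  exact XP_le

lemma XP_log1 {L T : ℝ} : 2 * UP L T ≤ Real.log (XP L T + 1) := by
  rw [Real.le_log_iff_exp_le (by positivity)]
  exact (Nat.lt_floor_add_one _).le

lemma XP_log2 {L T : ℝ} (h : 1 ≤ UP L T) : UP L T ≤ Real.log (XP L T) := by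
  have h1 := XP_log1 (L := L) (T := T)
  have hX : (1 : ℝ) ≤ XP L T := by exact_mod_cast XP_one (by linarith)
  have h2 : Real.log (XP L T + 1) ≤ Real.log (2 * XP L T) := Real.log_le_log (by linarith) (by linarith)
  rw [Real.log_mul (by norm_num) (by linarith)] at h2
  have := Real.log_two_lt_d9
  linarith

section seq

variable {T L : ℕ → ℝ}

lemma W_top (hL : Tendsto L atTop atTop) : Tendsto (fun n => WP (L n)) atTop atTop :=
  (tendsto_rpow_atTop (by norm_num)).comp hL

lemma WL_zero (hL : Tendsto L atTop atTop) : Tendsto (fun n => WP (L n) / L n) atTop (𝓝 0) := by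
  have h1 : Tendsto (fun x : ℝ => x ^ (-(2 / 3 : ℝ))) atTop (𝓝 0) := tendsto_rpow_neg_atTop (by norm_num)
  refine (h1.comp hL).congr' ?_
  filter_upwards [hL.eventually_gt_atTop 0] with n hn
  simp only [Function.comp_apply, WP]
  rw [← Real.rpow_sub_one hn.ne']
  norm_num

lemma LW_zero (hL : Tendsto L atTop atTop) : Tendsto (fun n => L n * (WP (L n))⁻¹ ^ 4) atTop (𝓝 0) := by
  have h1 : Tendsto (fun x : ℝ => x ^ (-(1 / 3 : ℝ))) atTop (𝓝 0) := tendsto_rpow_neg_atTop (by norm_num)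
  refine (h1.comp hL).congr' ?_
  filter_upwards [hL.eventually_gt_atTop 0] with n hn
  simp only [Function.comp_apply, WP]
  rw [← Real.rpow_neg hn.le, ← Real.rpow_natCast, ← Real.rpow_mul hn.le]
  nth_rewrite 2 [← Real.rpow_one (L n)]
  rw [← Real.rpow_add hn]
  norm_num

lemma a_top (hL : Tendsto L atTop atTop) (hLT : Tendsto (fun n => L n / Real.log (T n)) atTop (𝓝 0))
    (hT : Tendsto T atTop atTop) : Tendsto (fun n => aP (L n) (T n)) atTop atTop := by
  have hpi := Real.pi_pos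
  have h1 : Tendsto (fun n => L n / Real.log (T n)) atTop (𝓝[>] 0) := by
    rw [tendsto_nhdsWithin_iff]
    refine ⟨hLT, ?_⟩
    filter_upwards [hL.eventually_gt_atTop 0, hT.eventually_gt_atTop 1] with n h2 h3
    exact div_pos h2 (Real.log_pos h3)
  have h2 := (h1.inv_tendsto_nhdsGT_zero).const_mul_atTop (by positivity : 0 < 1 / (2 * Real.pi))
  refine h2.congr fun n => ?_
  simp only [Pi.inv_apply, aP]
  rw [inv_div]
  field_simp

/-- the characteristic function of the prime sum -/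
theorem prime_char {f : ℝ → ℝ} (hf : CC (fc f)) (hv : 0 < vr (fc f)) (hT : Tendsto T atTop atTop)
    (hL : Tendsto L atTop atTop) (hLT : Tendsto (fun n => L n / Real.log (T n)) atTop (𝓝 0))
    (hT1 : ∀ n, 1 ≤ T n) (ha1 : ∀ n, 1 ≤ aP (L n) (T n)) (hW1 : ∀ n, 1 ≤ WP (L n)) :
    Tendsto (fun n => ((1 / T n : ℝ) : ℂ) * ∫ t in (T n + Real.log (T n))..(2 * T n - Real.log (T n)),
      cexp (I * ((-(DP (cn (fc f) (aP (L n) (T n)) (XP (L n) (T n))) (XP (L n) (T n)) t).re : ℝ) : ℂ)))
      atTop (𝓝 (cexp ((-vr (fc f) / 2 : ℝ) : ℂ))) := by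
  have hpi := Real.pi_pos
  have hpi3 := Real.pi_gt_three
  have haT := a_top hL hLT hT
  have hWT := W_top hL
  have hU : ∀ n, 1 ≤ UP (L n) (T n) := by
    intro n
    unfold UP
    have h1 := ha1 n
    have h2 := hW1 n
    have h3 : 1 ≤ 2 * Real.pi * aP (L n) (T n) := by nlinarith
    nlinarith
  have hX1 : ∀ n, 1 ≤ XP (L n) (T n) := fun n => XP_one (by linarith [hU n])
  obtain ⟨K, hK, hsm⟩ := cn_small hf
  have hV := VV_lim hf (fc_real f) haT hX1 (by
    refine tendsto_atTop_mono' atTop ?_ (hWT.const_mul_atTop (by norm_num : (0 : ℝ) < 2))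
    refine Eventually.of_forall fun n => ?_
    have h1 := XP_log2 (hU n)
    have h2 : 0 < 2 * Real.pi * aP (L n) (T n) := by
      have := ha1 n
      positivity
    rw [le_div_iff₀ h2]
    exact h1)
  have hM : Tendsto (fun n => K / aP (L n) (T n) ^ 2) atTop (𝓝 0) :=
    tendsto_const_nhds.div_atTop ((tendsto_pow_atTop (by norm_num)).comp haT)
  have hN : ∀ m : ℕ, ∀ᶠ n in atTop, ((XP (L n) (T n) : ℝ)) ^ m ≤ Real.sqrt (T n) := by
    intro m
    have h1 := (WL_zero hL).const_mul (4 * (m : ℝ))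
    rw [mul_zero] at h1
    filter_upwards [h1.eventually_le_const (u := 1 / 2) (by norm_num), hL.eventually_gt_atTop 0,
      hT.eventually_gt_atTop 1] with n h2 h3 h4
    have hl : 0 < Real.log (T n) := Real.log_pos h4
    have h5 : (XP (L n) (T n) : ℝ) ^ m ≤ Real.exp (2 * UP (L n) (T n)) ^ m :=
      pow_le_pow_left₀ (Nat.cast_nonneg _) XP_le m
    refine h5.trans ?_
    rw [← Real.exp_nat_mul, Real.sqrt_eq_rpow, Real.rpow_def_of_pos (by linarith)]
    apply Real.exp_le_exp.2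
    unfold UP
    rw [aP_eq h3]
    have h6 : (m : ℝ) * (2 * (2 * WP (L n) * (Real.log (T n) / L n))) =
        (4 * (m : ℝ) * (WP (L n) / L n)) * Real.log (T n) := by ring
    rw [h6, mul_comm (Real.log (T n))]
    exact mul_le_mul_of_nonneg_right h2 hl.le
  have h := clt (T := T) (c := fun n => cn (fc f) (aP (L n) (T n)) (XP (L n) (T n)))
    (P := fun n => PX (XP (L n) (T n))) (N := fun n => XP (L n) (T n)) hT hT1
    (fun n => cn_Pc _ _ _) hX1 hN hM (fun n p hp => hsm _ _ (by linarith [ha1 n]) p hp)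
    (V := 2 * vr (fc f)) (by positivity) hV
  have e : -(2 * vr (fc f)) / 4 = -vr (fc f) / 2 := by ring
  rw [e] at h
  exact h

lemma cexp_lip (x y : ℝ) : ‖cexp (I * (x : ℂ)) - cexp (I * (y : ℂ))‖ ≤ |x - y| := by
  have e : cexp (I * (x : ℂ)) - cexp (I * (y : ℂ)) =
      cexp (I * (y : ℂ)) * (cexp (I * ((x - y : ℝ) : ℂ)) - 1) := by
    rw [mul_sub, mul_one, ← Complex.exp_add]
    congr 2
    push_cast
    ring
  rw [e, norm_mul]
  have h1 : ‖cexp (I * (y : ℂ))‖ = 1 := by rw [mul_comm, Complex.norm_exp_ofReal_mul_I]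
  rw [h1, one_mul]
  exact Real.norm_exp_I_mul_ofReal_sub_one_le

end seq

end Pool.Agent.Q278.MC
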