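import Pool.Agent.Q278.MC.M

/-!
# The limit of the characteristic function, conclusion (helper278)
-/

set_option autoImplicit false

namespace Pool.Agent.Q278.MC

open Filter Topology MeasureTheory Complex
open scoped FourierTransform ContDiff ComplexConjugate
open H370 (Zf mult mem_Zf good_zeta zset finsum_Zf)

lemma exists_R {f : ℝ → ℝ} (hf : CC (fc f)) : ∃ R : ℝ, 0 ≤ R ∧ ∀ x, R < |x| → f x = 0 := by
  obtain ⟨R, hR⟩ := hf.cs.isCompact.isBounded.subset_closedBall (0 : ℝ)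
  refine ⟨max R 0, le_max_right _ _, fun x hx => ?_⟩
  by_contra h
  have h3 : x ∈ tsupport (fc f) := by
    apply subset_tsupport
    rw [Function.mem_support]
    unfold fc
    exact_mod_cast h
  have h4 := hR h3
  rw [Metric.mem_closedBall, dist_zero_right, Real.norm_eq_abs] at h4
  exact absurd (h4.trans (le_max_left _ _)) (not_le.2 hx)

lemma fc_cont {f : ℝ → ℝ} (hf : CC (fc f)) : Continuous f := by
  have h := Complex.continuous_re.comp hf.cont
  refine h.congr fun x => ?_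
  simp only [Function.comp_apply, fc, Complex.ofReal_re]

/-- the statistic is continuous in `t` -/
lemma st_cont {f : ℝ → ℝ} (hf : CC (fc f)) {R : ℝ} (hR : ∀ x, R < |x| → f x = 0) {L T : ℝ}
    (ha : 1 ≤ aP L T) (hT : R + 3 ≤ T) : ContinuousOn (st f L T) (Set.Icc T (2 * T)) := by
  have hfc := fc_cont hf
  have h1 : ContinuousOn (fun t => ∑ s ∈ Zf riemannZeta (T - R - 1) (2 * T + R),
      mz s * f (aP L T * (s.im - t)) - L * ∫ x, f x) (Set.Icc T (2 * T)) := by
    refine (Continuous.sub (continuous_finsetSum _ fun s _ => continuous_const.mul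
      (hfc.comp (by fun_prop))) continuous_const).continuousOn
  refine h1.congr fun t ht => ?_
  unfold st
  rw [SZ_eq (A := T - R - 1) (B := 2 * T + R) hR ha (by linarith) (by linarith [ht.1])
    (by linarith [ht.2])]

/-- the comparison of the characteristic functions -/
theorem close {f : ℝ → ℝ} (hf : CC (fc f)) : ∃ K T0 : ℝ, 0 < K ∧ 10 ≤ T0 ∧ ∀ T : ℝ, T0 ≤ T →
    ∀ L : ℝ, 0 < L → 1 ≤ aP L T → 1 ≤ WP L → 4 * WP L ≤ L → 16 ≤ UP L T →
      8 * (XP L T : ℝ) * (1 + Real.log (XP L T)) ≤ T →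
      ‖(∫ t in T..(2 * T), cexp (I * ((st f L T t : ℝ) : ℂ))) -
        ∫ t in (T + Real.log T)..(2 * T - Real.log T), cexp (I *
          ((-(DP (cn (fc f) (aP L T) (XP L T)) (XP L T) t).re : ℝ) : ℂ))‖ ≤
        2 * Real.log T + K * T * ((L * (WP L)⁻¹ ^ 4 + WP L / L) + (1 / aP L T +
          Real.exp (-UP L T) + L * (WP L)⁻¹ ^ 4) +
          1 / aP L T * (1 + (WP L)⁻¹ ^ 4 * (1 + Real.log (XP L T)))) := by
  obtain ⟨K1, T1, hK1, hT1, h1⟩ := approx hf
  obtain ⟨C2, hC2, h2⟩ := Bz_int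
  obtain ⟨K3, hK3, h3⟩ := Er_int hf
  obtain ⟨R, hR0, hR⟩ := exists_R hf
  refine ⟨C2 * K1 + K1 + K3, max T1 (R + 3), by positivity, hT1.trans (le_max_left _ _),
    fun T hT L hL ha hW hWL hU hX => ?_⟩
  have hTT1 : T1 ≤ T := (le_max_left _ _).trans hT
  have hTR : R + 3 ≤ T := (le_max_right _ _).trans hT
  have hT10 : 10 ≤ T := hT1.trans hTT1
  have hT0 : 0 < T := by linarith
  obtain ⟨U1, U2, g1, g2, g3, g4, g5⟩ := h1 T hTT1
  have hl : 0 < Real.log T := Real.log_pos (by linarith)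
  have h2l := two_log_le (x := T) (by linarith)
  have hU0 : 0 ≤ UP L T := by linarith
  have hX1 := XP_one hU0
  set a := aP L T with ha'
  set W := WP L with hW'
  set X := XP L T with hX'
  set ℓ := Real.log T with hℓ
  have haL : 2 * Real.pi * a = ℓ / L := aP_eq hL
  have hpt := g5 L W a ha hW hL haL (by linarith) hU X XP_log1
  set Q : ℝ := 1 / a + Real.exp (-UP L T) + L * W⁻¹ ^ 4 with hQ
  have hW0 : 0 < W := by linarith
  have ha0 : 0 < a := by linarith
  -- the three pieces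
  have hcst := st_cont hf hR ha hTR
  have hci : ∀ x y : ℝ, T ≤ x → x ≤ y → y ≤ 2 * T →
      IntervalIntegrable (fun t => cexp (I * ((st f L T t : ℝ) : ℂ))) volume x y := by
    intro x y hx hxy hy
    apply ContinuousOn.intervalIntegrable
    rw [Set.uIcc_of_le hxy]
    have h6 : ContinuousOn (fun t => st f L T t) (Set.Icc x y) :=
      hcst.mono (Set.Icc_subset_Icc hx hy)
    exact Complex.continuous_exp.comp_continuousOn
      (continuousOn_const.mul (Complex.continuous_ofReal.comp_continuousOn h6))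
  have hsp1 := intervalIntegral.integral_add_adjacent_intervals
    (hci T (T + ℓ) le_rfl (by linarith) (by linarith))
    (hci (T + ℓ) (2 * T - ℓ) (by linarith) (by linarith) (by linarith))
  have hsp2 := intervalIntegral.integral_add_adjacent_intervals
    (hci T (2 * T - ℓ) le_rfl (by linarith) (by linarith))
    (hci (2 * T - ℓ) (2 * T) (by linarith) (by linarith) le_rfl)
  have hsmall : ∀ x y : ℝ, x ≤ y → ‖∫ t in x..y, cexp (I * ((st f L T t : ℝ) : ℂ))‖ ≤ y - x := by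
    intro x y hxy
    have := intervalIntegral.norm_integral_le_of_norm_le_const (a := x) (b := y) (C := 1)
      (f := fun t => cexp (I * ((st f L T t : ℝ) : ℂ))) (fun t _ => by
        rw [mul_comm, Complex.norm_exp_ofReal_mul_I])
    rwa [one_mul, abs_of_nonneg (by linarith)] at this
  set P : ℝ → ℝ := fun t => -(DP (cn (fc f) a X) X t).re with hP
  have hPc : Continuous P := (Complex.continuous_re.comp (DP_cont _ _)).neg
  have hPi : IntervalIntegrable (fun t => cexp (I * ((P t : ℝ) : ℂ))) volume (T + ℓ) (2 * T - ℓ) :=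
    Continuous.intervalIntegrable (by fun_prop) _ _
  have hErc : Continuous (Er (fc f) W a X) := DP_cont _ _
  have hmid : ‖(∫ t in (T + ℓ)..(2 * T - ℓ), cexp (I * ((st f L T t : ℝ) : ℂ))) -
      ∫ t in (T + ℓ)..(2 * T - ℓ), cexp (I * ((P t : ℝ) : ℂ))‖ ≤
      C2 * K1 * T * (L * W⁻¹ ^ 4 + W / L) + T * (K1 * Q) +
        K3 * T * (1 / a * (1 + W⁻¹ ^ 4 * (1 + Real.log X))) := by
    rw [← intervalIntegral.integral_sub
      (hci (T + ℓ) (2 * T - ℓ) (by linarith) (by linarith) (by linarith)) hPi]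
    have hgi : IntervalIntegrable (fun t => Bz K1 W a U1 U2 t + K1 * Q + ‖Er (fc f) W a X t‖)
        volume (T + ℓ) (2 * T - ℓ) :=
      Continuous.intervalIntegrable (((Bz_cont _ _ _ _ _).add continuous_const).add hErc.norm) _ _
    refine (intervalIntegral.norm_integral_le_of_norm_le (by linarith) ?_ hgi).trans ?_
    · refine Eventually.of_forall fun t ht => ?_
      refine (cexp_lip _ _).trans ?_
      have h7 := hpt t ht.1.le ht.2
      refine le_trans (le_of_eq ?_) h7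
      simp only [hP, st]
      rw [sub_neg_eq_add]
    · have i1 : IntervalIntegrable (fun t => Bz K1 W a U1 U2 t + K1 * Q) volume (T + ℓ)
          (2 * T - ℓ) :=
        Continuous.intervalIntegrable ((Bz_cont _ _ _ _ _).add continuous_const) _ _
      have i2 : IntervalIntegrable (fun t => ‖Er (fc f) W a X t‖) volume (T + ℓ) (2 * T - ℓ) :=
        hErc.norm.intervalIntegrable _ _
      have i3 : IntervalIntegrable (fun t => Bz K1 W a U1 U2 t) volume (T + ℓ) (2 * T - ℓ) :=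
        (Bz_cont _ _ _ _ _).intervalIntegrable _ _
      have i4 : IntervalIntegrable (fun _ : ℝ => K1 * Q) volume (T + ℓ) (2 * T - ℓ) := by simp
      rw [intervalIntegral.integral_add i1 i2, intervalIntegral.integral_add i3 i4,
        intervalIntegral.integral_const, smul_eq_mul]
      have b1 := h2 K1 T U1 U2 L W a (T + ℓ) (2 * T - ℓ) hK1.le hT10 g1 g4 hL hW0 hWL haL
        (by linarith)
      have b3 := h3 T W a X hT10 ha hW hX1 hX
      have b2 : (2 * T - ℓ - (T + ℓ)) * (K1 * Q) ≤ T * (K1 * Q) := by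
        refine mul_le_mul_of_nonneg_right (by linarith) ?_
        positivity
      linarith
  have e1 := hsmall T (T + ℓ) (by linarith)
  have e2 := hsmall (2 * T - ℓ) (2 * T) (by linarith)
  rw [← hsp2, ← hsp1]
  set A1 := ∫ t in T..(T + ℓ), cexp (I * ((st f L T t : ℝ) : ℂ)) with hA1
  set A2 := ∫ t in (T + ℓ)..(2 * T - ℓ), cexp (I * ((st f L T t : ℝ) : ℂ)) with hA2
  set A3 := ∫ t in (2 * T - ℓ)..(2 * T), cexp (I * ((st f L T t : ℝ) : ℂ)) with hA3
  set A4 := ∫ t in (T + ℓ)..(2 * T - ℓ), cexp (I * ((P t : ℝ) : ℂ)) with hA4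
  have e3 : A1 + A2 + A3 - A4 = A1 + (A2 - A4) + A3 := by ring
  rw [e3]
  have hlX : 0 ≤ Real.log X := Real.log_nonneg (by exact_mod_cast hX1)
  have q1 : 0 ≤ T * (L * W⁻¹ ^ 4 + W / L) := by positivity
  have q2 : 0 ≤ T * Q := by positivity
  have q3 : 0 ≤ T * (1 / a * (1 + W⁻¹ ^ 4 * (1 + Real.log X))) := by positivity
  calc ‖A1 + (A2 - A4) + A3‖ ≤ ‖A1‖ + ‖A2 - A4‖ + ‖A3‖ := norm_add₃_le
    _ ≤ ℓ + (C2 * K1 * T * (L * W⁻¹ ^ 4 + W / L) + T * (K1 * Q) +
        K3 * T * (1 / a * (1 + W⁻¹ ^ 4 * (1 + Real.log X)))) + ℓ := by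
        refine add_le_add (add_le_add (by linarith) hmid) (by linarith)
    _ ≤ _ := by
        have p1 : 0 ≤ C2 * K1 := by positivity
        nlinarith [mul_nonneg p1 q2, mul_nonneg p1 q3, mul_nonneg hK1.le q1, mul_nonneg hK1.le q3,
          mul_nonneg hK3.le q1, mul_nonneg hK3.le q2]

/-- zero variance -/
lemma vr_zero {f : ℝ → ℝ} (hf : CC (fc f)) (h : vr (fc f) = 0) : ∀ x, f x = 0 := by
  obtain ⟨K, hK, hb⟩ := four_bound hf
  have hc : Continuous (𝓕 (fc f)) := by
    have := four_cont hf 0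
    have e0 : gs (fc f) 0 = fc f := by funext x; unfold gs; simp
    rwa [e0] at this
  have hg : Continuous fun ξ : ℝ => |ξ| * ‖𝓕 (fc f) ξ‖ ^ 2 := continuous_abs.mul (hc.norm.pow 2)
  have hfi : Integrable (𝓕 (fc f)) :=
    (inv_cube_int.const_mul K).mono' hc.aestronglyMeasurable (Eventually.of_forall hb)
  have hi : Integrable fun ξ : ℝ => |ξ| * ‖𝓕 (fc f) ξ‖ ^ 2 := by
    refine (integrable_inv_one_add_sq.const_mul (K ^ 2)).mono' hg.aestronglyMeasurable
      (Eventually.of_forall fun ξ => ?_)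
    have hone : (1 + ξ ^ 2)⁻¹ ≤ 1 := inv_le_one_of_one_le₀ (by nlinarith [sq_nonneg ξ])
    have hpos : 0 ≤ (1 + ξ ^ 2)⁻¹ := by positivity
    have hxi : |ξ| * (1 + ξ ^ 2)⁻¹ ≤ 1 := by
      rw [← div_eq_mul_inv, div_le_one (by positivity)]
      have := sq_abs ξ
      nlinarith [sq_nonneg (|ξ| - 1), abs_nonneg ξ]
    rw [Real.norm_of_nonneg (by positivity)]
    calc |ξ| * ‖𝓕 (fc f) ξ‖ ^ 2 ≤ |ξ| * (K * (1 + ξ ^ 2)⁻¹ ^ 3) ^ 2 :=
          mul_le_mul_of_nonneg_left (pow_le_pow_left₀ (norm_nonneg _) (hb ξ) 2) (abs_nonneg _)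
      _ = K ^ 2 * (|ξ| * (1 + ξ ^ 2)⁻¹) * (1 + ξ ^ 2)⁻¹ * (1 + ξ ^ 2)⁻¹ ^ 4 := by ring
      _ ≤ K ^ 2 * 1 * (1 + ξ ^ 2)⁻¹ * 1 := by
          gcongr
          exact pow_le_one₀ hpos hone
      _ = _ := by ring
  have h1 : (fun ξ : ℝ => |ξ| * ‖𝓕 (fc f) ξ‖ ^ 2) =ᵐ[volume] 0 :=
    (integral_eq_zero_iff_of_nonneg (fun ξ => by positivity) hi).1 h
  have h2 : (fun ξ : ℝ => |ξ| * ‖𝓕 (fc f) ξ‖ ^ 2) = fun _ => (0 : ℝ) :=
    (Continuous.ae_eq_iff_eq volume hg continuous_const).1 h1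
  have h3 : 𝓕 (fc f) =ᵐ[volume] fun _ => (0 : ℂ) := by
    have : ∀ᵐ ξ : ℝ ∂volume, ξ ≠ 0 := by
      rw [ae_iff]
      have e : {ξ : ℝ | ¬ ξ ≠ 0} = {0} := by ext; simp
      rw [e]
      exact Real.volume_singleton
    filter_upwards [this] with ξ hξ
    have h4 : |ξ| * ‖𝓕 (fc f) ξ‖ ^ 2 = 0 := congrFun h2 ξ
    have h5 : ‖𝓕 (fc f) ξ‖ ^ 2 = 0 := by
      rcases mul_eq_zero.1 h4 with h | h
      · exact absurd (abs_eq_zero.1 h) hξ
      · exact h
    simpa using h5
  have h4 : 𝓕 (fc f) = fun _ => (0 : ℂ) :=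
    (Continuous.ae_eq_iff_eq volume hc continuous_const).1 h3
  have h5 := Continuous.fourierInv_fourier_eq hf.cont hf.int hfi
  intro x
  have h6 := congrFun h5 x
  rw [Real.fourierInv_eq_fourier_neg, Real.fourier_real_eq_integral_exp_smul] at h6
  rw [h4] at h6
  simp only [smul_zero, integral_zero] at h6
  unfold fc at h6
  exact_mod_cast h6.symm

end Pool.Agent.Q278.MC
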