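import Pool.Agent.Q278.MC.N

/-!
# The central limit theorem for the zeros at mesoscopic scales (helper278)
-/

set_option autoImplicit false

namespace Pool.Agent.Q278.MC

open Filter Topology MeasureTheory Complex
open scoped FourierTransform ContDiff ComplexConjugate

variable {T L : ℕ → ℝ}

/-- the error terms tend to zero -/
lemma errs (K : ℝ) (hT : Tendsto T atTop atTop)
    (hL : Tendsto L atTop atTop) (hLT : Tendsto (fun n => L n / Real.log (T n)) atTop (𝓝 0)) :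
    Tendsto (fun n => 2 * (Real.log (T n) / T n) + K * ((L n * (WP (L n))⁻¹ ^ 4 + WP (L n) / L n) +
      (1 / aP (L n) (T n) + Real.exp (-UP (L n) (T n)) + L n * (WP (L n))⁻¹ ^ 4) +
      (1 / aP (L n) (T n) * (1 + (WP (L n))⁻¹ ^ 4) + 8 * Real.pi * (WP (L n))⁻¹ ^ 3))) atTop (𝓝 0) := by
  have hpi := Real.pi_gt_three
  have haT := a_top hL hLT hT
  have hWT := W_top hL
  have hWi : Tendsto (fun n => (WP (L n))⁻¹) atTop (𝓝 0) := tendsto_inv_atTop_zero.comp hWT
  have h1 : Tendsto (fun n => 1 / aP (L n) (T n)) atTop (𝓝 0) := tendsto_const_nhds.div_atTop haT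
  have hU : Tendsto (fun n => UP (L n) (T n)) atTop atTop := by
    refine tendsto_atTop_mono' atTop ?_ hWT
    filter_upwards [haT.eventually_ge_atTop 1, hWT.eventually_ge_atTop 0] with n g1 g2
    unfold UP
    have : 1 ≤ 2 * Real.pi * aP (L n) (T n) := by nlinarith
    nlinarith
  have h2 : Tendsto (fun n => Real.exp (-UP (L n) (T n))) atTop (𝓝 0) :=
    Real.tendsto_exp_neg_atTop_nhds_zero.comp hU
  have h3 : Tendsto (fun n => Real.log (T n) / T n) atTop (𝓝 0) := by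
    have := Real.isLittleO_log_id_atTop.tendsto_div_nhds_zero
    exact this.comp hT
  have h4 := LW_zero hL
  have h5 := WL_zero hL
  have h6 := (h3.const_mul 2).add (((h4.add h5).add ((h1.add h2).add h4)).add
    ((h1.mul ((hWi.pow 4).const_add 1)).add ((hWi.pow 3).const_mul (8 * Real.pi))) |>.const_mul K)
  simpa using h6

theorem main_seq {f : ℝ → ℝ} (hf : CC (fc f)) (hT : Tendsto T atTop atTop)
    (hL : Tendsto L atTop atTop) (hLT : Tendsto (fun n => L n / Real.log (T n)) atTop (𝓝 0)) :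
    Tendsto (fun n => ((1 / T n : ℝ) : ℂ) * ∫ t in (T n)..(2 * T n),
      cexp (I * ((st f (L n) (T n) t : ℝ) : ℂ))) atTop (𝓝 (cexp ((-vr (fc f) / 2 : ℝ) : ℂ))) := by
  have hpi := Real.pi_gt_three
  have hv0 : 0 ≤ vr (fc f) := integral_nonneg fun ξ => by positivity
  rcases hv0.eq_or_lt with hv | hv
  · -- the zero function
    have hf0 := vr_zero hf hv.symm
    have hst : ∀ n t, st f (L n) (T n) t = 0 := by
      intro n t
      unfold st SZ
      simp only [hf0, mul_zero, finsum_zero, integral_zero, sub_zero]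
    rw [← hv]
    simp only [hst]
    refine Tendsto.congr' (f₁ := fun _ => (1 : ℂ)) ?_ ?_
    · filter_upwards [hT.eventually_gt_atTop 0] with n hn
      have hTc : ((T n : ℝ) : ℂ) ≠ 0 := by exact_mod_cast hn.ne'
      simp only [Complex.ofReal_zero, mul_zero, Complex.exp_zero, intervalIntegral.integral_const]
      rw [show 2 * T n - T n = T n by ring, Complex.real_smul, mul_one]
      push_cast
      field_simp
    · simp
  -- positive variance
  obtain ⟨K, T0, hK, hT0, hcl⟩ := close hf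
  have haT := a_top hL hLT hT
  have hWT := W_top hL
  have hWL := (WL_zero hL).eventually_le_const (u := 1 / 4) (by norm_num)
  have hN : ∀ᶠ n in atTop, ((XP (L n) (T n) : ℝ)) ^ 2 ≤ Real.sqrt (T n) := by
    have h1 := (WL_zero hL).const_mul 8
    rw [mul_zero] at h1
    filter_upwards [h1.eventually_le_const (u := 1 / 2) (by norm_num), hL.eventually_gt_atTop 0,
      hT.eventually_gt_atTop 1] with n h2 h3 h4
    have hl : 0 < Real.log (T n) := Real.log_pos h4
    have h5 : (XP (L n) (T n) : ℝ) ^ 2 ≤ Real.exp (2 * UP (L n) (T n)) ^ 2 :=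
      pow_le_pow_left₀ (Nat.cast_nonneg _) XP_le 2
    refine h5.trans ?_
    rw [← Real.exp_nat_mul, Real.sqrt_eq_rpow, Real.rpow_def_of_pos (by linarith)]
    apply Real.exp_le_exp.2
    unfold UP
    rw [aP_eq h3]
    have h6 : ((2 : ℕ) : ℝ) * (2 * (2 * WP (L n) * (Real.log (T n) / L n))) =
        (8 * (WP (L n) / L n)) * Real.log (T n) := by push_cast; ring
    rw [h6, mul_comm (Real.log (T n))]
    exact mul_le_mul_of_nonneg_right h2 hl.le
  have hev : ∀ᶠ n in atTop, T0 ≤ T n ∧ 64 ≤ T n ∧ 0 < L n ∧ 1 ≤ aP (L n) (T n) ∧ 8 ≤ WP (L n) ∧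
      4 * WP (L n) ≤ L n ∧ ((XP (L n) (T n) : ℝ)) ^ 2 ≤ Real.sqrt (T n) := by
    filter_upwards [hT.eventually_ge_atTop T0, hT.eventually_ge_atTop 64, hL.eventually_gt_atTop 0,
      haT.eventually_ge_atTop 1, hWT.eventually_ge_atTop 8, hWL, hN] with n g1 g2 g3 g4 g5 g6 g7
    refine ⟨g1, g2, g3, g4, g5, ?_, g7⟩
    rw [div_le_iff₀ g3] at g6
    linarith
  obtain ⟨n0, hn0⟩ := eventually_atTop.1 hev
  have hsh : Tendsto (fun n : ℕ => n + n0) atTop atTop := tendsto_add_atTop_nat n0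
  rw [← tendsto_add_atTop_iff_nat n0]
  have hc : ∀ n : ℕ, T0 ≤ T (n + n0) ∧ 64 ≤ T (n + n0) ∧ 0 < L (n + n0) ∧
      1 ≤ aP (L (n + n0)) (T (n + n0)) ∧ 8 ≤ WP (L (n + n0)) ∧
      4 * WP (L (n + n0)) ≤ L (n + n0) ∧
      ((XP (L (n + n0)) (T (n + n0)) : ℝ)) ^ 2 ≤ Real.sqrt (T (n + n0)) := fun n =>
    hn0 (n + n0) (by omega)
  have hT' := hT.comp hsh
  have hL' := hL.comp hsh
  have hLT' := hLT.comp hsh
  have hchar := prime_char (T := fun n => T (n + n0)) (L := fun n => L (n + n0)) hf hv hT' hL' hLT'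
    (fun n => by linarith [(hc n).2.1]) (fun n => (hc n).2.2.2.1)
    (fun n => by linarith [(hc n).2.2.2.2.1])
  have herr := errs (T := fun n => T (n + n0)) (L := fun n => L (n + n0)) K hT' hL' hLT'
  have hd : Tendsto (fun n => ((1 / T (n + n0) : ℝ) : ℂ) * (∫ t in (T (n + n0))..(2 * T (n + n0)),
      cexp (I * ((st f (L (n + n0)) (T (n + n0)) t : ℝ) : ℂ))) -
      ((1 / T (n + n0) : ℝ) : ℂ) * ∫ t in (T (n + n0) + Real.log (T (n + n0)))..(2 * T (n + n0) -
        Real.log (T (n + n0))), cexp (I * ((-(DP (cn (fc f) (aP (L (n + n0)) (T (n + n0)))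
          (XP (L (n + n0)) (T (n + n0)))) (XP (L (n + n0)) (T (n + n0))) t).re : ℝ) : ℂ)))
      atTop (𝓝 0) := by
    refine squeeze_zero_norm (fun n => ?_) herr
    obtain ⟨g1, g2, g3, g4, g5, g6, g7⟩ := hc n
    set t0 := T (n + n0) with ht0
    set l0 := L (n + n0) with hl0
    have htp : 0 < t0 := by linarith
    have hUd : UP l0 t0 = 2 * WP l0 * (2 * Real.pi * aP l0 t0) := rfl
    have hU2 : 16 ≤ UP l0 t0 := by
      rw [hUd]
      have : 1 ≤ 2 * Real.pi * aP l0 t0 := by nlinarith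
      nlinarith
    have hX1 : (1 : ℝ) ≤ XP l0 t0 := by exact_mod_cast XP_one (by linarith)
    have hlX0 : 0 ≤ Real.log (XP l0 t0) := Real.log_nonneg hX1
    have hXl := Real.log_le_sub_one_of_pos (by linarith : (0 : ℝ) < XP l0 t0)
    have hX8 : 8 * (XP l0 t0 : ℝ) * (1 + Real.log (XP l0 t0)) ≤ t0 := by
      have h8 : 8 * (XP l0 t0 : ℝ) * (1 + Real.log (XP l0 t0)) ≤ 8 * (XP l0 t0 : ℝ) ^ 2 := by
        nlinarith
      have h9 : 8 ≤ Real.sqrt t0 := by
        rw [show (8 : ℝ) = Real.sqrt 64 by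
          rw [show (64 : ℝ) = 8 ^ 2 by norm_num, Real.sqrt_sq (by norm_num)]]
        exact Real.sqrt_le_sqrt g2
      have h10 : Real.sqrt t0 ^ 2 = t0 := Real.sq_sqrt htp.le
      nlinarith
    have h11 := hcl t0 g1 l0 g3 g4 (by linarith) g6 hU2 hX8
    rw [← mul_sub, norm_mul, Complex.norm_real, Real.norm_of_nonneg (by positivity)]
    have hW0 : 0 < WP l0 := by linarith
    have ha0 : 0 < aP l0 t0 := by linarith
    have h12 : 1 / aP l0 t0 * (1 + (WP l0)⁻¹ ^ 4 * (1 + Real.log (XP l0 t0))) ≤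
        1 / aP l0 t0 * (1 + (WP l0)⁻¹ ^ 4) + 8 * Real.pi * (WP l0)⁻¹ ^ 3 := by
      have h13 := XP_log (L := l0) (T := t0) (by linarith)
      have h14 : (WP l0)⁻¹ ^ 4 * Real.log (XP l0 t0) ≤ (WP l0)⁻¹ ^ 4 * (2 * UP l0 t0) :=
        mul_le_mul_of_nonneg_left h13 (by positivity)
      have h15 : 1 / aP l0 t0 * ((WP l0)⁻¹ ^ 4 * (2 * UP l0 t0)) = 8 * Real.pi * (WP l0)⁻¹ ^ 3 := by
        rw [hUd]
        field_simp
        ring
      calc 1 / aP l0 t0 * (1 + (WP l0)⁻¹ ^ 4 * (1 + Real.log (XP l0 t0))) =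
          1 / aP l0 t0 * (1 + (WP l0)⁻¹ ^ 4) +
            1 / aP l0 t0 * ((WP l0)⁻¹ ^ 4 * Real.log (XP l0 t0)) := by ring
        _ ≤ 1 / aP l0 t0 * (1 + (WP l0)⁻¹ ^ 4) +
            1 / aP l0 t0 * ((WP l0)⁻¹ ^ 4 * (2 * UP l0 t0)) := by
            have : 0 ≤ 1 / aP l0 t0 := by positivity
            linarith [mul_le_mul_of_nonneg_left h14 this]
        _ = _ := by rw [h15]
    calc 1 / t0 * ‖_‖ ≤ 1 / t0 * (2 * Real.log t0 + K * t0 * ((l0 * (WP l0)⁻¹ ^ 4 + WP l0 / l0) +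
          (1 / aP l0 t0 + Real.exp (-UP l0 t0) + l0 * (WP l0)⁻¹ ^ 4) +
          1 / aP l0 t0 * (1 + (WP l0)⁻¹ ^ 4 * (1 + Real.log (XP l0 t0))))) :=
          mul_le_mul_of_nonneg_left h11 (by positivity)
      _ = 2 * (Real.log t0 / t0) + K * ((l0 * (WP l0)⁻¹ ^ 4 + WP l0 / l0) +
          (1 / aP l0 t0 + Real.exp (-UP l0 t0) + l0 * (WP l0)⁻¹ ^ 4) +
          1 / aP l0 t0 * (1 + (WP l0)⁻¹ ^ 4 * (1 + Real.log (XP l0 t0)))) := by
          field_simp
      _ ≤ _ := by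
          have := mul_le_mul_of_nonneg_left h12 hK.le
          linarith
  have h16 := hd.add hchar
  rw [zero_add] at h16
  refine h16.congr fun n => ?_
  ring

end Pool.Agent.Q278.MC
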