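import Pool.Agent.Q278.MC.O

/-!
# Several test functions, and convergence in law (helper278)
-/

set_option autoImplicit false

namespace Pool.Agent.Q278.MC

open Filter Topology MeasureTheory Complex ProbabilityTheory
open scoped FourierTransform ContDiff ComplexConjugate
open H370 (Zf mult mem_Zf good_zeta zset finsum_Zf)

/-- the covariance -/
noncomputable def cv (f g : ℝ → ℝ) : ℝ := ∫ ξ : ℝ, |ξ| * (𝓕 (fc f) ξ * conj (𝓕 (fc g) ξ)).re

lemma cv_self (f : ℝ → ℝ) : cv f f = vr (fc f) := by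
  unfold cv vr
  refine integral_congr_ae (Eventually.of_forall fun ξ => ?_)
  show |ξ| * (𝓕 (fc f) ξ * conj (𝓕 (fc f) ξ)).re = |ξ| * ‖𝓕 (fc f) ξ‖ ^ 2
  rw [Complex.mul_conj, Complex.ofReal_re, Complex.normSq_eq_norm_sq]

lemma cv_symm (f g : ℝ → ℝ) : cv f g = cv g f := by
  unfold cv
  refine integral_congr_ae (Eventually.of_forall fun ξ => ?_)
  show |ξ| * (𝓕 (fc f) ξ * conj (𝓕 (fc g) ξ)).re = |ξ| * (𝓕 (fc g) ξ * conj (𝓕 (fc f) ξ)).re
  have : (𝓕 (fc f) ξ * conj (𝓕 (fc g) ξ)).re = (conj (𝓕 (fc f) ξ * conj (𝓕 (fc g) ξ))).re :=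
    (Complex.conj_re _).symm
  rw [this, map_mul, Complex.conj_conj, mul_comm (conj (𝓕 (fc f) ξ))]

lemma four_contR {f : ℝ → ℝ} (hf : CC (fc f)) : Continuous (𝓕 (fc f)) := by
  have := four_cont hf 0
  have e0 : gs (fc f) 0 = fc f := by funext x; unfold gs; simp
  rwa [e0] at this

lemma cv_int {f g : ℝ → ℝ} (hf : CC (fc f)) (hg : CC (fc g)) :
    Integrable fun ξ : ℝ => |ξ| * (𝓕 (fc f) ξ * conj (𝓕 (fc g) ξ)).re := by
  obtain ⟨K, hK, hb⟩ := four_bound hf
  obtain ⟨M, hM, hc⟩ := four_bound hg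
  have h1 := four_contR hf
  have h2 := four_contR hg
  have h3 : Continuous fun ξ : ℝ => |ξ| * (𝓕 (fc f) ξ * conj (𝓕 (fc g) ξ)).re :=
    continuous_abs.mul (Complex.continuous_re.comp (h1.mul (Complex.continuous_conj.comp h2)))
  refine (integrable_inv_one_add_sq.const_mul (K * M)).mono' h3.aestronglyMeasurable
      (Eventually.of_forall fun ξ => ?_)
  have hone : (1 + ξ ^ 2)⁻¹ ≤ 1 := inv_le_one_of_one_le₀ (by nlinarith [sq_nonneg ξ])
  have hpos : 0 ≤ (1 + ξ ^ 2)⁻¹ := by positivity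
  have hxi : |ξ| * (1 + ξ ^ 2)⁻¹ ≤ 1 := by
    rw [← div_eq_mul_inv, div_le_one (by positivity)]
    have := sq_abs ξ
    nlinarith [sq_nonneg (|ξ| - 1), abs_nonneg ξ]
  rw [norm_mul, Real.norm_of_nonneg (abs_nonneg ξ), Real.norm_eq_abs]
  have h4 : |(𝓕 (fc f) ξ * conj (𝓕 (fc g) ξ)).re| ≤
      (K * (1 + ξ ^ 2)⁻¹ ^ 3) * (M * (1 + ξ ^ 2)⁻¹ ^ 3) := by
    refine (Complex.abs_re_le_norm _).trans ?_
    rw [norm_mul, RCLike.norm_conj]
    exact mul_le_mul (hb ξ) (hc ξ) (norm_nonneg _) ((norm_nonneg _).trans (hb ξ))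
  calc |ξ| * |(𝓕 (fc f) ξ * conj (𝓕 (fc g) ξ)).re| ≤
      |ξ| * ((K * (1 + ξ ^ 2)⁻¹ ^ 3) * (M * (1 + ξ ^ 2)⁻¹ ^ 3)) :=
        mul_le_mul_of_nonneg_left h4 (abs_nonneg _)
    _ = (K * M) * (|ξ| * (1 + ξ ^ 2)⁻¹) * (1 + ξ ^ 2)⁻¹ * (1 + ξ ^ 2)⁻¹ ^ 4 := by ring
    _ ≤ (K * M) * 1 * (1 + ξ ^ 2)⁻¹ * 1 := by
        gcongr
        exact pow_le_one₀ hpos hone
    _ = _ := by ring

/-- a linear combination of test functions -/
def lc {k : ℕ} (f : Fin k → ℝ → ℝ) (c : Fin k → ℝ) (x : ℝ) : ℝ := ∑ j, c j * f j x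

lemma lc_fc {k : ℕ} (f : Fin k → ℝ → ℝ) (c : Fin k → ℝ) :
    fc (lc f c) = fun x => ∑ j, (c j : ℂ) * fc (f j) x := by
  funext x
  unfold fc lc
  push_cast
  rfl

lemma lc_CC {k : ℕ} {f : Fin k → ℝ → ℝ} (hf : ∀ j, CC (fc (f j))) (c : Fin k → ℝ) :
    CC (fc (lc f c)) := by
  rw [lc_fc]
  constructor
  · exact ContDiff.sum fun j _ => contDiff_const.mul (hf j).cd
  · have : ∀ s : Finset (Fin k), HasCompactSupport fun x => ∑ j ∈ s, (c j : ℂ) * fc (f j) x := by
      intro s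
      classical
      induction s using Finset.induction_on with
      | empty =>
        simp only [Finset.sum_empty]
        exact (HasCompactSupport.zero : HasCompactSupport (0 : ℝ → ℂ))
      | insert a s ha ih =>
        simp only [Finset.sum_insert ha]
        exact HasCompactSupport.add ((hf a).cs.mul_left) ih
    exact this _

lemma lc_four {k : ℕ} {f : Fin k → ℝ → ℝ} (hf : ∀ j, CC (fc (f j))) (c : Fin k → ℝ) (ξ : ℝ) :
    𝓕 (fc (lc f c)) ξ = ∑ j, (c j : ℂ) * 𝓕 (fc (f j)) ξ := by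
  rw [lc_fc, Real.fourier_real_eq_integral_exp_smul]
  have e : ∀ j, (c j : ℂ) * 𝓕 (fc (f j)) ξ =
      ∫ v : ℝ, Complex.exp (↑(-2 * Real.pi * v * ξ) * Complex.I) • ((c j : ℂ) * fc (f j) v) := by
    intro j
    rw [Real.fourier_real_eq_integral_exp_smul, ← integral_const_mul]
    refine integral_congr_ae (Eventually.of_forall fun v => ?_)
    simp only [smul_eq_mul]
    ring
  simp only [e]
  rw [← integral_finsetSum]
  · refine integral_congr_ae (Eventually.of_forall fun v => ?_)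
    simp only [smul_eq_mul, Finset.mul_sum]
  · intro j _
    have h1 : Integrable fun v : ℝ => (c j : ℂ) * fc (f j) v := (hf j).int.const_mul _
    refine h1.norm.mono' ?_ (Eventually.of_forall fun v => ?_)
    · refine Continuous.aestronglyMeasurable ?_
      exact ((Complex.continuous_exp.comp (by fun_prop))).smul
        (continuous_const.mul (hf j).cont)
    · rw [norm_smul, Complex.norm_exp_ofReal_mul_I, one_mul]

lemma vr_lc {k : ℕ} {f : Fin k → ℝ → ℝ} (hf : ∀ j, CC (fc (f j))) (c : Fin k → ℝ) :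
    vr (fc (lc f c)) = ∑ i, ∑ j, c i * c j * cv (f i) (f j) := by
  rw [← cv_self]
  unfold cv
  have e : ∀ ξ : ℝ, |ξ| * (𝓕 (fc (lc f c)) ξ * conj (𝓕 (fc (lc f c)) ξ)).re =
      ∑ i, ∑ j, c i * c j * (|ξ| * (𝓕 (fc (f i)) ξ * conj (𝓕 (fc (f j)) ξ)).re) := by
    intro ξ
    rw [lc_four hf, map_sum, Finset.sum_mul_sum, Complex.re_sum, Finset.mul_sum]
    refine Finset.sum_congr rfl fun i _ => ?_
    rw [Complex.re_sum, Finset.mul_sum]
    refine Finset.sum_congr rfl fun j _ => ?_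
    rw [map_mul, Complex.conj_ofReal]
    have : ((c i : ℂ) * 𝓕 (fc (f i)) ξ * ((c j : ℂ) * conj (𝓕 (fc (f j)) ξ))) =
        ((c i * c j : ℝ) : ℂ) * (𝓕 (fc (f i)) ξ * conj (𝓕 (fc (f j)) ξ)) := by
      push_cast; ring
    rw [this, Complex.re_ofReal_mul]
    ring
  simp only [e]
  rw [integral_finsetSum]
  · refine Finset.sum_congr rfl fun i _ => ?_
    rw [integral_finsetSum]
    · refine Finset.sum_congr rfl fun j _ => ?_
      rw [integral_const_mul]
    · intro j _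
      exact (cv_int (hf i) (hf j)).const_mul _
  · intro i _
    exact integrable_finsetSum _ fun j _ => (cv_int (hf i) (hf j)).const_mul _

/-- linearity of the statistic -/
lemma st_lc {k : ℕ} {f : Fin k → ℝ → ℝ} (hf : ∀ j, CC (fc (f j))) : ∃ R : ℝ, 0 ≤ R ∧
    (∀ j, ∀ x, R < |x| → f j x = 0) ∧ ∀ (c : Fin k → ℝ) (L T t : ℝ), 1 ≤ aP L T → R + 3 ≤ T →
      T ≤ t → st (lc f c) L T t = ∑ j, c j * st (f j) L T t := by
  choose R hR0 hR using fun j => exists_R (hf j)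
  have hRj : ∀ j, R j ≤ ∑ i, R i := fun j =>
    Finset.single_le_sum (fun i _ => hR0 i) (Finset.mem_univ j)
  have hRR : ∀ j, ∀ x, ∑ i, R i < |x| → f j x = 0 := fun j x hx => hR j x ((hRj j).trans_lt hx)
  refine ⟨∑ j, R j, Finset.sum_nonneg fun j _ => hR0 j, hRR, fun c L T t ha hT ht => ?_⟩
  set R' := ∑ j, R j with hR'
  have h0 : 0 ≤ R' := Finset.sum_nonneg fun j _ => hR0 j
  have hlc : ∀ x, R' < |x| → lc f c x = 0 := by
    intro x hx
    unfold lc
    refine Finset.sum_eq_zero fun j _ => ?_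
    rw [hRR j x hx, mul_zero]
  unfold st
  rw [SZ_eq (A := t - R' - 1) (B := t + R') hlc ha (by linarith) (by linarith) le_rfl]
  have e1 : ∀ j, SZ (f j) (aP L T) t = ∑ s ∈ Zf riemannZeta (t - R' - 1) (t + R'),
      mz s * f j (aP L T * (s.im - t)) := fun j =>
    SZ_eq (hRR j) ha (by linarith) (by linarith) le_rfl
  simp only [e1]
  have e2 : ∫ x, lc f c x = ∑ j, c j * ∫ x, f j x := by
    unfold lc
    rw [integral_finsetSum]
    · refine Finset.sum_congr rfl fun j _ => ?_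
      rw [integral_const_mul]
    · intro j _
      have := (hf j).int.re
      exact this.const_mul _
  rw [e2]
  simp only [mul_sub, Finset.sum_sub_distrib]
  congr 1
  · unfold lc
    simp only [Finset.mul_sum]
    rw [Finset.sum_comm]
    refine Finset.sum_congr rfl fun j _ => ?_
    refine Finset.sum_congr rfl fun s _ => ?_
    ring
  · rw [Finset.mul_sum]
    refine Finset.sum_congr rfl fun j _ => ?_
    ring

end Pool.Agent.Q278.MC
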