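import Pool.Agent.Q278.MC.P

/-!
# Convergence in law from characteristic functions (helper278)
-/

set_option autoImplicit false
set_option linter.unusedSectionVars false

namespace Pool.Agent.Q278.MC

open Filter Topology MeasureTheory Complex ProbabilityTheory
open scoped FourierTransform ContDiff ComplexConjugate RealInnerProductSpace BoundedContinuousFunction
open H370 (Zf mult mem_Zf good_zeta zset finsum_Zf)

variable {E : Type*} [NormedAddCommGroup E] [InnerProductSpace ℝ E] [FiniteDimensional ℝ E]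
  [MeasurableSpace E] [BorelSpace E]

/-- the law of `X` under the uniform measure on `[T, 2T]` -/
noncomputable def lw (X : ℝ → E) (T : ℝ) : Measure E :=
  (ENNReal.ofReal (1 / T)) • (volume.restrict (Set.Icc T (2 * T))).map X

lemma lw_prob {X : ℝ → E} {T : ℝ} (hT : 0 < T)
    (hX : AEMeasurable X (volume.restrict (Set.Icc T (2 * T)))) : IsProbabilityMeasure (lw X T) := by
  constructor
  unfold lw
  rw [Measure.smul_apply, Measure.map_apply_of_aemeasurable hX MeasurableSet.univ,
    Set.preimage_univ, Measure.restrict_apply_univ, Real.volume_Icc, smul_eq_mul,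
    ← ENNReal.ofReal_mul (by positivity)]
  rw [show 1 / T * (2 * T - T) = 1 by field_simp; ring, ENNReal.ofReal_one]

lemma lw_int {X : ℝ → E} {T : ℝ} (hT : 0 < T)
    (hX : AEMeasurable X (volume.restrict (Set.Icc T (2 * T)))) {F : Type*} [NormedAddCommGroup F]
    [NormedSpace ℝ F] {φ : E → F} (hφ : Continuous φ) [SecondCountableTopologyEither E F] :
    ∫ x, φ x ∂(lw X T) = (1 / T) • ∫ t in T..(2 * T), φ (X t) := by
  unfold lw
  rw [integral_smul_measure, integral_map hX hφ.aestronglyMeasurable,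
    intervalIntegral.integral_of_le (by linarith), integral_Icc_eq_integral_Ioc,
    ENNReal.toReal_ofReal (by positivity)]

lemma lw_set {X : ℝ → E} {T : ℝ} (hT : 0 < T)
    (hX : AEMeasurable X (volume.restrict (Set.Icc T (2 * T)))) {A : Set E} (hA : MeasurableSet A) :
    (lw X T).real A = (1 / T) * volume.real {t : ℝ | T ≤ t ∧ t ≤ 2 * T ∧ X t ∈ A} := by
  unfold lw Measure.real
  rw [Measure.smul_apply, Measure.map_apply_of_aemeasurable hX hA,
    Measure.restrict_apply' measurableSet_Icc, smul_eq_mul, ENNReal.toReal_mul,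
    ENNReal.toReal_ofReal (by positivity)]
  congr 3
  ext t
  simp only [Set.mem_inter_iff, Set.mem_preimage, Set.mem_Icc, Set.mem_ofPred_eq]
  tauto

open Classical in
/-- the law as a probability measure -/
noncomputable def pw (X : ℝ → E) (T : ℝ) : ProbabilityMeasure E :=
  if h : 0 < T ∧ AEMeasurable X (volume.restrict (Set.Icc T (2 * T))) then
    ⟨lw X T, lw_prob h.1 h.2⟩ else ⟨Measure.dirac 0, inferInstance⟩

lemma pw_eq {X : ℝ → E} {T : ℝ} (hT : 0 < T)
    (hX : AEMeasurable X (volume.restrict (Set.Icc T (2 * T)))) :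
    ((pw X T : ProbabilityMeasure E) : Measure E) = lw X T := by
  have e : pw X T = (⟨lw X T, lw_prob hT hX⟩ : ProbabilityMeasure E) :=
    dif_pos (⟨hT, hX⟩ : 0 < T ∧ AEMeasurable X (volume.restrict (Set.Icc T (2 * T))))
  rw [e]
  rfl

/-- convergence in law from characteristic functions -/
theorem weak_lim {X : ℕ → ℝ → E} {T : ℕ → ℝ} (G : ProbabilityMeasure E)
    (hev : ∀ᶠ n in atTop, 0 < T n ∧ AEMeasurable (X n) (volume.restrict (Set.Icc (T n) (2 * T n))))
    (h : ∀ u : E, Tendsto (fun n => ((1 / T n : ℝ) : ℂ) * ∫ t in (T n)..(2 * T n),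
      cexp (I * ((⟪X n t, u⟫ : ℝ) : ℂ))) atTop (𝓝 (charFun (G : Measure E) u))) :
    Tendsto (fun n => pw (X n) (T n)) atTop (𝓝 G) := by
  refine ProbabilityMeasure.tendsto_iff_tendsto_charFun.2 fun u => ?_
  refine (h u).congr' ?_
  filter_upwards [hev] with n hn
  rw [pw_eq hn.1 hn.2, charFun_apply]
  have hc : Continuous fun x : E => cexp (((⟪x, u⟫ : ℝ) : ℂ) * I) := by fun_prop
  rw [lw_int hn.1 hn.2 hc, Complex.real_smul]
  congr 1
  refine intervalIntegral.integral_congr fun t _ => ?_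
  show cexp (I * ((⟪X n t, u⟫ : ℝ) : ℂ)) = cexp (((⟪X n t, u⟫ : ℝ) : ℂ) * I)
  rw [mul_comm]

theorem weak_lim_int {X : ℕ → ℝ → E} {T : ℕ → ℝ} (G : ProbabilityMeasure E)
    (hev : ∀ᶠ n in atTop, 0 < T n ∧ AEMeasurable (X n) (volume.restrict (Set.Icc (T n) (2 * T n))))
    (h : Tendsto (fun n => pw (X n) (T n)) atTop (𝓝 G)) (φ : E →ᵇ ℝ) :
    Tendsto (fun n => (1 / T n) * ∫ t in (T n)..(2 * T n), φ (X n t)) atTop
      (𝓝 (∫ x, φ x ∂(G : Measure E))) := by
  have h1 := (ProbabilityMeasure.tendsto_iff_forall_integral_tendsto.1 h) φ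
  refine h1.congr' ?_
  filter_upwards [hev] with n hn
  rw [pw_eq hn.1 hn.2, lw_int hn.1 hn.2 φ.continuous, smul_eq_mul]

theorem weak_lim_set {X : ℕ → ℝ → E} {T : ℕ → ℝ} (G : ProbabilityMeasure E)
    (hev : ∀ᶠ n in atTop, 0 < T n ∧ AEMeasurable (X n) (volume.restrict (Set.Icc (T n) (2 * T n))))
    (h : Tendsto (fun n => pw (X n) (T n)) atTop (𝓝 G)) {A : Set E} (hA : MeasurableSet A)
    (hfr : (G : Measure E) (frontier A) = 0) :
    Tendsto (fun n => (1 / T n) * volume.real {t : ℝ | T n ≤ t ∧ t ≤ 2 * T n ∧ X n t ∈ A}) atTop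
      (𝓝 ((G : Measure E).real A)) := by
  have h2 := ProbabilityMeasure.tendsto_measure_of_null_frontier_of_tendsto' h hfr
  have h3 := (ENNReal.tendsto_toReal (measure_ne_top _ _)).comp h2
  refine h3.congr' ?_
  filter_upwards [hev] with n hn
  rw [← lw_set hn.1 hn.2 hA, ← pw_eq hn.1 hn.2]
  rfl

end Pool.Agent.Q278.MC
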